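import Mathlib

set_option autoImplicit false

/-!
# Module RBIN: real inequalities for the first moment

* `choose_bd`: `choose m i ≤ m ^ i / i!` (`Nat.choose_le_pow_div` or `Nat.choose_le_pow`), `i! ≥ (i / 3) ^ i` (`3 ^ i * i! ≥ i ^ i`: induction with
  `(1 + 1/i) ^ i ≤ e < 3`, or `Real.exp` : `i ^ i / i! ≤ exp i ≤ 3 ^ i` from `Real.pow_div_factorial_le_exp`).
* `rbin`: `k := (3 * i + 7) / 8`, so `8 * k ≥ 3 * i`, `i ≤ 3 * k`, and `8 * u < 13 * i` gives `u ≤ 2 * i`, `3 * i - u ≥ i + k`. `choose_bd` for `choose (Δ n) i` and (for `1 ≤ u`; `u = 0`: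
  `choose = 1` and `(0 / n) ^ (3 i) = 0`) `choose n u ≤ (3 n / u) ^ u`: the product is at most
  `(3 Δ n / i) ^ i * (3 n / u) ^ u * (u / n) ^ (3 i) = (3 Δ) ^ i * (n / i) ^ i * 3 ^ u * (u / n) ^ (3 i - u) ≤ (3 Δ) ^ i * 9 ^ i * (n / i) ^ i * (2 i / n) ^ (i + k)`
  (`u / n ≤ 2 i / n ≤ 1`) `= (54 Δ) ^ i * (2 i / n) ^ k ≤ ((54 Δ) ^ 3) ^ k * (2 i / n) ^ k`.
* `sum_geo`: for every `k` there are at most three `i` with `(3 * i + 7) / 8 = k`; induction on `r` with the stronger claim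
  `∑ ≤ 6 q - (something)`, or: `∑_(i = 1)^(r) q ^ ((3 i + 7) / 8) ≤ ∑_(j < r) ∑_(c < 3) ..`: group `i = 3 j + 1, 3 j + 2, 3 j + 3`: `(3 i + 7) / 8 ≥ j + 1` (because
  `(3 (3 j + 1) + 7) / 8 = (9 j + 10) / 8 ≥ j + 1`), so `∑ ≤ 3 ∑_j q ^ (j + 1) ≤ 3 q / (1 - q) ≤ 6 q`.
-/

namespace Pool.Agent.H55.QT

/-- constant of the first moment -/
noncomputable def Cx (Δ : ℕ) : ℝ := 2 * (54 * Δ) ^ 3

theorem choose_bd (m i : ℕ) : (m.choose i : ℝ) * (i : ℝ) ^ i ≤ (3 * m : ℝ) ^ i := by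
  have h1 : (m.choose i : ℝ) ≤ (m : ℝ) ^ i / (i.factorial : ℝ) := Nat.choose_le_pow_div i m
  have h2 : (i : ℝ) ^ i / (i.factorial : ℝ) ≤ Real.exp i :=
    Real.pow_div_factorial_le_exp (i : ℝ) (Nat.cast_nonneg i) i
  have h3 : Real.exp i ≤ 3 ^ i := by
    have h4 : Real.exp i = Real.exp 1 ^ i := by
      rw [← Real.exp_nat_mul]
      simp
    rw [h4]
    exact pow_le_pow_left₀ (Real.exp_pos 1).le Real.exp_one_lt_three.le i
  have hf : (0 : ℝ) < (i.factorial : ℝ) := by exact_mod_cast Nat.factorial_pos i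
  calc (m.choose i : ℝ) * (i : ℝ) ^ i
      ≤ (m : ℝ) ^ i / (i.factorial : ℝ) * (i : ℝ) ^ i :=
        mul_le_mul_of_nonneg_right h1 (by positivity)
    _ = (m : ℝ) ^ i * ((i : ℝ) ^ i / (i.factorial : ℝ)) := by field_simp
    _ ≤ (m : ℝ) ^ i * 3 ^ i := mul_le_mul_of_nonneg_left (h2.trans h3) (by positivity)
    _ = (3 * m : ℝ) ^ i := by rw [mul_pow]; ring

theorem rbin {Δ n i u : ℕ} (hΔ : 1 ≤ Δ) (hi : 1 ≤ i) (hin : 2 * i ≤ n) (hu : 8 * u < 13 * i) :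
    ((Δ * n).choose i : ℝ) * (n.choose u : ℝ) * ((u : ℝ) / n) ^ (3 * i) ≤
      (Cx Δ * i / n) ^ ((3 * i + 7) / 8) := by
  obtain ⟨k, hk⟩ : ∃ k, k = (3 * i + 7) / 8 := ⟨_, rfl⟩
  rw [← hk]
  have hn : 0 < n := by omega
  have hnr : (0 : ℝ) < n := by exact_mod_cast hn
  have hir : (0 : ℝ) < i := by exact_mod_cast hi
  have hΔr : (1 : ℝ) ≤ Δ := by exact_mod_cast hΔ
  have hk1 : u + k ≤ 2 * i := by omega
  have hk2 : i ≤ 3 * k := by omega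
  have hu2 : u ≤ 2 * i := by omega
  obtain ⟨d, hd⟩ : ∃ d, 3 * i = u + (i + k + d) := ⟨3 * i - u - i - k, by omega⟩
  -- first factor
  have a1 : ((Δ * n).choose i : ℝ) ≤ (3 * Δ * (n / i)) ^ i := by
    have h1 := choose_bd (Δ * n) i
    have h2 : (3 * Δ * (n / i) : ℝ) ^ i = (3 * ((Δ * n : ℕ) : ℝ)) ^ i / (i : ℝ) ^ i := by
      rw [← div_pow]
      congr 1
      push_cast
      ring
    rw [h2, le_div_iff₀ (by positivity)]
    exact h1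
  -- second factor
  have a2 : (n.choose u : ℝ) * ((u : ℝ) / n) ^ u ≤ 3 ^ u := by
    have h1 := choose_bd n u
    rw [div_pow, ← mul_div_assoc, div_le_iff₀ (by positivity)]
    rw [← mul_pow]
    exact h1
  have hx0 : 0 ≤ (2 : ℝ) * (i / n) := by positivity
  have hx1 : (2 : ℝ) * (i / n) ≤ 1 := by
    rw [← mul_div_assoc, div_le_one hnr]
    exact_mod_cast hin
  have hy0 : 0 ≤ (u : ℝ) / n := by positivity
  have hy1 : (u : ℝ) / n ≤ 2 * (i / n) := by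
    rw [← mul_div_assoc]
    refine div_le_div_of_nonneg_right ?_ hnr.le
    exact_mod_cast hu2
  have a3 : ((u : ℝ) / n) ^ (i + k + d) ≤ (2 * (i / n)) ^ (i + k) := by
    calc ((u : ℝ) / n) ^ (i + k + d) ≤ (2 * ((i : ℝ) / n)) ^ (i + k + d) :=
          pow_le_pow_left₀ hy0 hy1 _
      _ ≤ (2 * ((i : ℝ) / n)) ^ (i + k) := pow_le_pow_of_le_one hx0 hx1 (Nat.le_add_right _ _)
  have a4 : (3 : ℝ) ^ u ≤ 9 ^ i := by
    calc (3 : ℝ) ^ u ≤ 3 ^ (2 * i) := pow_le_pow_right₀ (by norm_num) hu2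
      _ = 9 ^ i := by rw [pow_mul]; norm_num
  have a5 : (n.choose u : ℝ) * ((u : ℝ) / n) ^ (3 * i) ≤ 9 ^ i * (2 * (i / n)) ^ (i + k) := by
    rw [hd, pow_add, ← mul_assoc]
    exact mul_le_mul (a2.trans a4) a3 (by positivity) (by positivity)
  have a6 : ((54 : ℝ) * Δ) ^ i ≤ ((54 * Δ) ^ 3) ^ k := by
    rw [← pow_mul]
    exact pow_le_pow_right₀ (by linarith) hk2
  calc ((Δ * n).choose i : ℝ) * (n.choose u : ℝ) * ((u : ℝ) / n) ^ (3 * i)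
      = ((Δ * n).choose i : ℝ) * ((n.choose u : ℝ) * ((u : ℝ) / n) ^ (3 * i)) := by ring
    _ ≤ (3 * Δ * (n / i)) ^ i * (9 ^ i * (2 * (i / n)) ^ (i + k)) :=
        mul_le_mul a1 a5 (by positivity) (by positivity)
    _ = (54 * Δ) ^ i * (2 * (i / n)) ^ k := by
        rw [pow_add, ← mul_assoc, ← mul_assoc, ← mul_pow, ← mul_pow]
        congr 2
        field_simp
        ring
    _ ≤ ((54 * Δ) ^ 3) ^ k * (2 * (i / n)) ^ k :=
        mul_le_mul_of_nonneg_right a6 (by positivity)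
    _ = (Cx Δ * i / n) ^ k := by
        rw [← mul_pow]
        congr 1
        unfold Cx
        ring

private theorem sum_geo3 {q : ℝ} (h0 : 0 ≤ q) (h1 : q ≤ 1 / 2) (m : ℕ) :
    ∑ i ∈ Finset.Icc 1 (3 * m), q ^ ((3 * i + 7) / 8) ≤ 6 * q - 6 * q ^ (m + 1) := by
  induction m with
  | zero => simp
  | succ m ih =>
    have e : 3 * (m + 1) = 3 * m + 1 + 1 + 1 := by ring
    rw [e, Finset.sum_Icc_succ_top (by omega), Finset.sum_Icc_succ_top (by omega),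
      Finset.sum_Icc_succ_top (by omega)]
    have hq1 : q ≤ 1 := by linarith
    have t1 : q ^ ((3 * (3 * m + 1) + 7) / 8) ≤ q ^ (m + 1) :=
      pow_le_pow_of_le_one h0 hq1 (by omega)
    have t2 : q ^ ((3 * (3 * m + 1 + 1) + 7) / 8) ≤ q ^ (m + 1) :=
      pow_le_pow_of_le_one h0 hq1 (by omega)
    have t3 : q ^ ((3 * (3 * m + 1 + 1 + 1) + 7) / 8) ≤ q ^ (m + 1) :=
      pow_le_pow_of_le_one h0 hq1 (by omega)
    have hp : 0 ≤ q ^ (m + 1) := pow_nonneg h0 _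
    have t4 : q ^ (m + 1 + 1) ≤ q ^ (m + 1) * (1 / 2) := by
      rw [pow_succ q (m + 1)]
      exact mul_le_mul_of_nonneg_left h1 hp
    linarith

theorem sum_geo {q : ℝ} (h0 : 0 ≤ q) (h1 : q ≤ 1 / 2) (r : ℕ) :
    ∑ i ∈ Finset.Icc 1 r, q ^ ((3 * i + 7) / 8) ≤ 6 * q := by
  have h2 := sum_geo3 h0 h1 r
  have h3 : ∑ i ∈ Finset.Icc 1 r, q ^ ((3 * i + 7) / 8) ≤
      ∑ i ∈ Finset.Icc 1 (3 * r), q ^ ((3 * i + 7) / 8) :=
    Finset.sum_le_sum_of_subset_of_nonneg (Finset.Icc_subset_Icc_right (by omega))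
      (fun i _ _ => pow_nonneg h0 _)
  have h4 : 0 ≤ q ^ (r + 1) := pow_nonneg h0 _
  linarith

end Pool.Agent.H55.QT
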