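import Mathlib

set_option autoImplicit false

/-!
# 3-CNFs: definitions

`Cl n`: clauses with three different variables among `n`. `clist c`: the list of its literals
(`(i, true)` is the variable `i`, `(i, false)` its negation). A formula with `m` clauses is a
function `φ : Fin m → Cl n`.
-/

namespace Pool.Agent.H55.QT

open Finset

/-- clauses with three different variables -/
abbrev Cl (n : ℕ) : Type := (Fin 3 ↪ Fin n) × (Fin 3 → Bool)

/-- the variables of a clause -/
def cvar {n : ℕ} (c : Cl n) : Finset (Fin n) := univ.map c.1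

/-- the list of the literals -/
def clist {n : ℕ} (c : Cl n) : List (Fin n × Bool) :=
  [(c.1 0, c.2 0), (c.1 1, c.2 1), (c.1 2, c.2 2)]

/-- satisfiable -/
def Sat {n m : ℕ} (φ : Fin m → Cl n) : Prop :=
  ∃ x : Fin n → Bool, ∀ j, ∃ i, x ((φ j).1 i) = (φ j).2 i

/-- every nonempty set of at most `r` clauses has at least `13/8` times as many variables -/
def Exp13 {n m : ℕ} (r : ℕ) (φ : Fin m → Cl n) : Prop :=
  ∀ I : Finset (Fin m), I.card ≤ r → 13 * I.card ≤ 8 * (I.biUnion fun j => cvar (φ j)).card

end Pool.Agent.H55.QT
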