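import Mathlib
import Pool.Agent.H55.QT.RDefs

set_option autoImplicit false
set_option linter.unusedSectionVars false

/-!
# Module RCNT: counting 3-CNFs

`Fintype.card (Cl n) = n.descFactorial 3 * 8` (`Fintype.card_embedding_eq`, `Fintype.card_prod`, `Fintype.card_fun`).

* `card_sub`: clauses with `cvar c ⊆ A`: the embedding has values in `A`: injection into `(Fin 3 ↪ A) × (Fin 3 → Bool)`, so at most
  `A.card.descFactorial 3 * 8` of them. `descFactorial u 3 * n ^ 3 ≤ u ^ 3 * descFactorial n 3` for `u ≤ n` (`(u - j) * n ≤ u * (n - j)`, `j = 0, 1, 2`).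
* `card_cov`: the functions `φ` with `cvar (φ j) ⊆ A` for all `j ∈ I` are a product set (`Fintype.piFinset` with `t j = {c | cvar c ⊆ A}` for `j ∈ I`, `univ`
  otherwise; `Fintype.card_piFinset`, `Finset.prod_ite`/`Finset.prod_pow_boole`): their number is `x ^ I.card * y ^ (m - I.card)`, `x = #{cvar c ⊆ A}`, `y = card (Cl n)`,
  and `x * n ^ 3 ≤ u ^ 3 * y`.
* `card_one`: for a fixed `x : Fin n → Bool`: the clauses satisfied by `x`: all sign vectors but one: `descFactorial n 3 * 7`, i.e. `8 * # = 7 * card (Cl n)`.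
* `card_sat`: union bound over the `2 ^ n` assignments, product set for each.
-/

namespace Pool.Agent.H55.QT

open Finset Classical

private theorem desc3 (u n : ℕ) (h : u ≤ n) :
    u.descFactorial 3 * n ^ 3 ≤ u ^ 3 * n.descFactorial 3 := by
  have key : ∀ j, (u - j) * n ≤ u * (n - j) := by
    intro j
    rcases Nat.lt_or_ge u j with h1 | h1
    · rw [Nat.sub_eq_zero_of_le h1.le, zero_mul]
      exact Nat.zero_le _
    · rw [Nat.sub_mul, Nat.mul_sub]
      have h2 : u * j ≤ j * n := by
        rw [mul_comm]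
        exact Nat.mul_le_mul_left j h
      omega
  have e1 : u.descFactorial 3 = (u - 2) * ((u - 1) * (u - 0)) := by
    simp [Nat.descFactorial]
  have e2 : n.descFactorial 3 = (n - 2) * ((n - 1) * (n - 0)) := by
    simp [Nat.descFactorial]
  have h3 : u.descFactorial 3 * n ^ 3 = ((u - 2) * n) * (((u - 1) * n) * ((u - 0) * n)) := by
    rw [e1]; ring
  have h4 : u ^ 3 * n.descFactorial 3 = (u * (n - 2)) * ((u * (n - 1)) * (u * (n - 0))) := by
    rw [e2]; ring
  rw [h3, h4]
  exact Nat.mul_le_mul (key 2) (Nat.mul_le_mul (key 1) (key 0))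

private theorem card_cl (n : ℕ) : Fintype.card (Cl n) = n.descFactorial 3 * 8 := by
  rw [Fintype.card_prod, Fintype.card_embedding_eq, Fintype.card_fun, Fintype.card_fin,
    Fintype.card_fin, Fintype.card_bool]
  norm_num

theorem card_sub {n : ℕ} (A : Finset (Fin n)) :
    (univ.filter fun c : Cl n => cvar c ⊆ A).card * n ^ 3 ≤ A.card ^ 3 * Fintype.card (Cl n) := by
  let g : (Fin 3 ↪ A) × (Fin 3 → Bool) → Cl n := fun p =>
    (p.1.trans (Function.Embedding.subtype _), p.2)
  have h1 : (univ.filter fun c : Cl n => cvar c ⊆ A) ⊆ univ.image g := by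
    intro c hc
    rw [mem_filter] at hc
    have h2 : ∀ i, c.1 i ∈ A := fun i => hc.2 (mem_map_of_mem c.1 (mem_univ i))
    rw [mem_image]
    refine ⟨(⟨fun i => ⟨c.1 i, h2 i⟩, fun i j hij => c.1.injective (congrArg Subtype.val hij)⟩, c.2),
      mem_univ _, ?_⟩
    refine Prod.ext ?_ rfl
    ext i
    rfl
  have h2 : (univ.filter fun c : Cl n => cvar c ⊆ A).card ≤ A.card.descFactorial 3 * 8 := by
    refine (card_le_card h1).trans (card_image_le.trans ?_)
    rw [card_univ, Fintype.card_prod, Fintype.card_embedding_eq, Fintype.card_fun, Fintype.card_fin,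
      Fintype.card_bool, Fintype.card_coe]
    norm_num
  have h3 : A.card ≤ n := by
    have := card_le_univ A
    rwa [Fintype.card_fin] at this
  calc (univ.filter fun c : Cl n => cvar c ⊆ A).card * n ^ 3
      ≤ A.card.descFactorial 3 * 8 * n ^ 3 := Nat.mul_le_mul_right _ h2
    _ = (A.card.descFactorial 3 * n ^ 3) * 8 := by ring
    _ ≤ (A.card ^ 3 * n.descFactorial 3) * 8 := Nat.mul_le_mul_right _ (desc3 _ _ h3)
    _ = A.card ^ 3 * Fintype.card (Cl n) := by rw [card_cl]; ring

theorem card_cov {n m : ℕ} (A : Finset (Fin n)) (I : Finset (Fin m)) :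
    (univ.filter fun φ : Fin m → Cl n => ∀ j ∈ I, cvar (φ j) ⊆ A).card * n ^ (3 * I.card) ≤
      A.card ^ (3 * I.card) * Fintype.card (Fin m → Cl n) := by
  obtain ⟨S, hS⟩ : ∃ S : Finset (Cl n), S = univ.filter fun c : Cl n => cvar c ⊆ A := ⟨_, rfl⟩
  have hmem : ∀ c, c ∈ S ↔ cvar c ⊆ A := fun c => by
    rw [hS, mem_filter]
    exact ⟨fun h => h.2, fun h => ⟨mem_univ _, h⟩⟩
  have h1 : (univ.filter fun φ : Fin m → Cl n => ∀ j ∈ I, cvar (φ j) ⊆ A) =
      Fintype.piFinset fun j => if j ∈ I then S else univ := by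
    ext φ
    rw [mem_filter, Fintype.mem_piFinset]
    constructor
    · rintro ⟨-, h⟩ j
      split_ifs with hj
      · exact (hmem _).2 (h j hj)
      · exact mem_univ _
    · intro h
      refine ⟨mem_univ _, fun j hj => ?_⟩
      have h2 := h j
      rw [if_pos hj] at h2
      exact (hmem _).1 h2
  have hIm : I.card ≤ m := by
    have := card_le_univ I
    rwa [Fintype.card_fin] at this
  have h2 : (Fintype.piFinset fun j : Fin m => if j ∈ I then S else univ).card =
      S.card ^ I.card * Fintype.card (Cl n) ^ (m - I.card) := by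
    rw [Fintype.card_piFinset]
    have h3 : ∀ j : Fin m, (if j ∈ I then S else univ : Finset (Cl n)).card =
        if j ∈ I then S.card else Fintype.card (Cl n) := fun j => by
      split_ifs
      · rfl
      · rfl
    rw [prod_congr rfl fun j _ => h3 j, prod_ite, prod_const, prod_const]
    have h4 : (univ.filter fun j : Fin m => j ∈ I) = I := by
      ext j
      rw [mem_filter]
      exact ⟨fun h => h.2, fun h => ⟨mem_univ _, h⟩⟩
    have h5 : (univ.filter fun j : Fin m => ¬ j ∈ I) = Iᶜ := by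
      ext j
      rw [mem_filter, mem_compl]
      exact ⟨fun h => h.2, fun h => ⟨mem_univ _, h⟩⟩
    rw [h4, h5, card_compl, Fintype.card_fin]
  have h3 : S.card * n ^ 3 ≤ A.card ^ 3 * Fintype.card (Cl n) := by
    rw [hS]
    exact card_sub A
  rw [h1, h2, Fintype.card_fun, Fintype.card_fin]
  calc S.card ^ I.card * Fintype.card (Cl n) ^ (m - I.card) * n ^ (3 * I.card)
      = (S.card * n ^ 3) ^ I.card * Fintype.card (Cl n) ^ (m - I.card) := by
        rw [mul_pow, ← pow_mul]; ring
    _ ≤ (A.card ^ 3 * Fintype.card (Cl n)) ^ I.card * Fintype.card (Cl n) ^ (m - I.card) :=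
        Nat.mul_le_mul_right _ (Nat.pow_le_pow_left h3 _)
    _ = A.card ^ (3 * I.card) * Fintype.card (Cl n) ^ (I.card + (m - I.card)) := by
        rw [mul_pow, ← pow_mul, pow_add]; ring
    _ = A.card ^ (3 * I.card) * Fintype.card (Cl n) ^ m := by rw [Nat.add_sub_cancel' hIm]

theorem card_one {n : ℕ} (x : Fin n → Bool) :
    8 * (univ.filter fun c : Cl n => ∃ i, x (c.1 i) = c.2 i).card = 7 * Fintype.card (Cl n) := by
  have h1 : (univ.filter fun c : Cl n => ¬ ∃ i, x (c.1 i) = c.2 i).card =
      n.descFactorial 3 := by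
    have h2 : (univ.filter fun c : Cl n => ¬ ∃ i, x (c.1 i) = c.2 i) =
        (univ : Finset (Fin 3 ↪ Fin n)).image fun e => ((e, fun i => !(x (e i))) : Cl n) := by
      ext c
      rw [mem_filter, mem_image]
      constructor
      · rintro ⟨-, h⟩
        refine ⟨c.1, mem_univ _, Prod.ext rfl ?_⟩
        funext i
        have h3 : ¬ x (c.1 i) = c.2 i := fun h4 => h ⟨i, h4⟩
        change (!(x (c.1 i))) = c.2 i
        rw [Bool.not_eq]
        exact h3
      · rintro ⟨e, -, rfl⟩
        refine ⟨mem_univ _, ?_⟩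
        rintro ⟨i, hi⟩
        exact absurd hi (by simp)
    rw [h2, card_image_of_injective]
    · rw [card_univ, Fintype.card_embedding_eq, Fintype.card_fin, Fintype.card_fin]
    · intro e e' h
      exact congrArg Prod.fst h
  have h2 := card_filter_add_card_filter_not (s := (univ : Finset (Cl n)))
    (fun c : Cl n => ∃ i, x (c.1 i) = c.2 i)
  rw [h1, card_univ, card_cl] at h2
  rw [card_cl]
  omega

theorem card_sat {n m : ℕ} :
    8 ^ m * (univ.filter fun φ : Fin m → Cl n => Sat φ).card ≤
      2 ^ n * 7 ^ m * Fintype.card (Fin m → Cl n) := by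
  obtain ⟨S, hS⟩ : ∃ S : (Fin n → Bool) → Finset (Cl n),
      S = fun x => univ.filter fun c : Cl n => ∃ i, x (c.1 i) = c.2 i := ⟨_, rfl⟩
  have hmem : ∀ x c, c ∈ S x ↔ ∃ i, x (c.1 i) = c.2 i := fun x c => by
    rw [hS, mem_filter]
    exact ⟨fun h => h.2, fun h => ⟨mem_univ _, h⟩⟩
  have hc : ∀ x, 8 * (S x).card = 7 * Fintype.card (Cl n) := fun x => by
    rw [hS]
    exact card_one x
  have h1 : (univ.filter fun φ : Fin m → Cl n => Sat φ) ⊆
      (univ : Finset (Fin n → Bool)).biUnion fun x => Fintype.piFinset fun _ => S x := by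
    intro φ hφ
    rw [mem_filter] at hφ
    obtain ⟨x, hx⟩ := hφ.2
    rw [mem_biUnion]
    refine ⟨x, mem_univ _, ?_⟩
    rw [Fintype.mem_piFinset]
    intro j
    exact (hmem _ _).2 (hx j)
  have h2 : 8 ^ m * (univ.filter fun φ : Fin m → Cl n => Sat φ).card ≤
      8 ^ m * ∑ x : Fin n → Bool, (S x).card ^ m := by
    refine Nat.mul_le_mul_left _ ((card_le_card h1).trans (card_biUnion_le.trans (le_of_eq ?_)))
    refine sum_congr rfl fun x _ => ?_
    rw [Fintype.card_piFinset, prod_const, card_univ, Fintype.card_fin]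
  refine h2.trans (le_of_eq ?_)
  rw [mul_sum]
  have h3 : ∀ x : Fin n → Bool, 8 ^ m * (S x).card ^ m = 7 ^ m * Fintype.card (Cl n) ^ m :=
    fun x => by rw [← mul_pow, hc, mul_pow]
  rw [sum_congr rfl fun x _ => h3 x, sum_const, card_univ, Fintype.card_fun, Fintype.card_fun,
    Fintype.card_fin, Fintype.card_fin, Fintype.card_bool, smul_eq_mul]
  ring

end Pool.Agent.H55.QT
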