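import Mathlib
import Pool.Agent.H3.Frg.Fourier

/-!
# Module XT: pseudo-expectations of XOR type

`E S` is the value of the monomial `∏ i ∈ S, x_i`, `x_i = 1` or `-1`, `x_i ^ 2 = 1`. `sg b = -1` if `b = true` and `1` otherwise.

* `XT.pos`. Let `n R` be the number of `S ∈ s` with `E (symmDiff S R) ≠ 0` (at least 1 for `R ∈ s`, because `E ∅ = 1`). For `S, T, R ∈ s` all
  symmetric differences have at most `2 * K ≤ D` elements and `symmDiff (symmDiff S R) (symmDiff R T) = symmDiff S T`, so: if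
  `E (symmDiff S R) ≠ 0` then `E (symmDiff S T) = E (symmDiff S R) * E (symmDiff R T)`. So `S ~ R` iff `E (symmDiff S R) ≠ 0` is an equivalence relation on `s`, `n` is
  constant on the classes, and for all `S, T ∈ s`: `∑ R ∈ s, (1 / n R) * (E (symmDiff S R) * E (symmDiff R T)) = E (symmDiff S T)` (if `S ~ T`:
  the terms with `R ~ S` are `E (symmDiff S T) / n S`, the others 0; if not `S ~ T`: all terms are 0). Hence the double sum is
  `∑ R ∈ s, (1 / n R) * (∑ S ∈ s, p S * E (symmDiff S R)) ^ 2 ≥ 0`.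
* `XT.null`: `R ↦ symmDiff R B = B \ R` is an involution of `B.powerset`, and the term for `B \ R` is minus the term for `R`:
  `E (symmDiff (symmDiff R B) T) = E (symmDiff B (symmDiff R T)) = E B * E (symmDiff R T)` (`E B ≠ 0`, all cards at most `B.card + T.card ≤ D`),
  `∏ i ∈ B \ R, sg (a i) = (∏ i ∈ B, sg (a i)) * ∏ i ∈ R, sg (a i)`, and `E B * ∏ i ∈ B, sg (a i) = -1`. So the sum is its own negative.
-/

set_option autoImplicit false
set_option linter.unusedSectionVars false

namespace Pool.Agent.H55.QT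

open Finset Classical Pool.Agent.H3.Frg

/-- a functional of XOR type on the monomials of degree at most `D` -/
structure XT (D : ℕ) (E : Finset ℕ → ℝ) : Prop where
  one : E ∅ = 1
  val : ∀ S, E S = 0 ∨ E S = 1 ∨ E S = -1
  mul : ∀ S T, S.card ≤ D → T.card ≤ D → (symmDiff S T).card ≤ D → E S ≠ 0 →
    E (symmDiff S T) = E S * E T

private theorem sd_card (S T : Finset ℕ) : (symmDiff S T).card ≤ S.card + T.card := by
  refine (Finset.card_le_card ?_).trans (Finset.card_union_le S T)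
  intro x hx
  rw [Finset.mem_symmDiff] at hx
  rw [Finset.mem_union]
  tauto

theorem XT.pos {D K : ℕ} {E : Finset ℕ → ℝ} (h : XT D E) (hK : 2 * K ≤ D) (s : Finset (Finset ℕ))
    (p : Finset ℕ → ℝ) (hs : ∀ S ∈ s, S.card ≤ K) :
    0 ≤ ∑ S ∈ s, ∑ T ∈ s, p S * p T * E (symmDiff S T) := by
  have hc : ∀ S ∈ s, ∀ T ∈ s, (symmDiff S T).card ≤ D := by
    intro S hS T hT
    have h1 := sd_card S T
    have h2 := hs S hS
    have h3 := hs T hT
    omega
  have hm : ∀ S ∈ s, ∀ R ∈ s, ∀ T ∈ s, E (symmDiff S R) ≠ 0 →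
      E (symmDiff S T) = E (symmDiff S R) * E (symmDiff R T) := by
    intro S hS R hR T hT h0
    have h1 : symmDiff (symmDiff S R) (symmDiff R T) = symmDiff S T := by
      rw [symmDiff_assoc, symmDiff_symmDiff_cancel_left]
    have h2 := h.mul (symmDiff S R) (symmDiff R T) (hc S hS R hR) (hc R hR T hT)
      (by rw [h1]; exact hc S hS T hT) h0
    rwa [h1] at h2
  obtain ⟨n, hn⟩ : ∃ n : Finset ℕ → ℝ, ∀ R, n R =
      ∑ S ∈ s, if E (symmDiff R S) ≠ 0 then (1 : ℝ) else 0 := ⟨_, fun _ => rfl⟩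
  have hnpos : ∀ R ∈ s, 0 < n R := by
    intro R hR
    rw [hn]
    refine Finset.sum_pos' (fun S _ => ?_) ⟨R, hR, ?_⟩
    · split_ifs <;> norm_num
    · have h1 : E (symmDiff R R) ≠ 0 := by
        rw [symmDiff_self, Finset.bot_eq_empty, h.one]
        exact one_ne_zero
      rw [if_pos h1]
      exact one_pos
  have hneq : ∀ S ∈ s, ∀ R ∈ s, E (symmDiff S R) ≠ 0 → n S = n R := by
    intro S hS R hR h0
    rw [hn, hn]
    refine Finset.sum_congr rfl fun T hT => ?_
    have h1 := hm S hS R hR T hT h0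
    have h2 : E (symmDiff S T) ≠ 0 ↔ E (symmDiff R T) ≠ 0 := by
      rw [h1]
      constructor
      · exact fun h3 => right_ne_zero_of_mul h3
      · exact fun h3 => mul_ne_zero h0 h3
    by_cases h3 : E (symmDiff S T) ≠ 0
    · rw [if_pos h3, if_pos (h2.1 h3)]
    · rw [if_neg h3, if_neg fun h4 => h3 (h2.2 h4)]
  have key : ∀ S ∈ s, ∀ T ∈ s,
      ∑ R ∈ s, (1 / n R) * (E (symmDiff S R) * E (symmDiff R T)) = E (symmDiff S T) := by
    intro S hS T hT
    have h1 : ∀ R ∈ s, (1 / n R) * (E (symmDiff S R) * E (symmDiff R T)) =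
        (if E (symmDiff S R) ≠ 0 then (1 : ℝ) else 0) * ((1 / n S) * E (symmDiff S T)) := by
      intro R hR
      by_cases h0 : E (symmDiff S R) ≠ 0
      · rw [if_pos h0, one_mul, hm S hS R hR T hT h0, hneq S hS R hR h0]
      · rw [if_neg h0, zero_mul]
        push Not at h0
        rw [h0, zero_mul, mul_zero]
    rw [Finset.sum_congr rfl h1, ← Finset.sum_mul, ← hn, ← mul_assoc,
      mul_one_div_cancel (hnpos S hS).ne', one_mul]
  have h2 : ∑ S ∈ s, ∑ T ∈ s, p S * p T * E (symmDiff S T) =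
      ∑ R ∈ s, (1 / n R) * (∑ S ∈ s, p S * E (symmDiff S R)) ^ 2 := by
    calc ∑ S ∈ s, ∑ T ∈ s, p S * p T * E (symmDiff S T) =
        ∑ S ∈ s, ∑ T ∈ s, ∑ R ∈ s,
          (1 / n R) * ((p S * E (symmDiff S R)) * (p T * E (symmDiff T R))) := by
          refine Finset.sum_congr rfl fun S hS => Finset.sum_congr rfl fun T hT => ?_
          rw [← key S hS T hT, Finset.mul_sum]
          refine Finset.sum_congr rfl fun R _ => ?_
          rw [symmDiff_comm T R]
          ring
      _ = ∑ S ∈ s, ∑ R ∈ s, ∑ T ∈ s,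
          (1 / n R) * ((p S * E (symmDiff S R)) * (p T * E (symmDiff T R))) :=
          Finset.sum_congr rfl fun S _ => Finset.sum_comm
      _ = ∑ R ∈ s, ∑ S ∈ s, ∑ T ∈ s,
          (1 / n R) * ((p S * E (symmDiff S R)) * (p T * E (symmDiff T R))) := Finset.sum_comm
      _ = ∑ R ∈ s, (1 / n R) * (∑ S ∈ s, p S * E (symmDiff S R)) ^ 2 := by
          refine Finset.sum_congr rfl fun R _ => ?_
          rw [sq, Finset.sum_mul_sum, Finset.mul_sum]
          refine Finset.sum_congr rfl fun S _ => ?_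
          rw [Finset.mul_sum]
  rw [h2]
  refine Finset.sum_nonneg fun R hR => mul_nonneg ?_ (sq_nonneg _)
  exact one_div_nonneg.2 (hnpos R hR).le

theorem XT.null {D : ℕ} {E : Finset ℕ → ℝ} (h : XT D E) {B T : Finset ℕ} (hB : B.card + T.card ≤ D)
    (a : ℕ → Bool) (ha : E B = -∏ i ∈ B, sg (a i)) :
    ∑ R ∈ B.powerset, (∏ i ∈ R, sg (a i)) * E (symmDiff R T) = 0 := by
  have hsq : ∀ R : Finset ℕ, (∏ i ∈ R, sg (a i)) * (∏ i ∈ R, sg (a i)) = 1 := by
    intro R
    rw [← Finset.prod_mul_distrib]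
    exact Finset.prod_eq_one fun i _ => sg_mul_self (a i)
  have hEB : E B ≠ 0 := by
    intro h0
    rw [h0] at ha
    have h1 := hsq B
    have h2 : ∏ i ∈ B, sg (a i) = 0 := by linarith
    rw [h2] at h1
    norm_num at h1
  have hinv : ∑ R ∈ B.powerset, (∏ i ∈ R, sg (a i)) * E (symmDiff R T) =
      ∑ R ∈ B.powerset, (∏ i ∈ B \ R, sg (a i)) * E (symmDiff (B \ R) T) := by
    refine Finset.sum_nbij' (fun R => B \ R) (fun R => B \ R) ?_ ?_ ?_ ?_ ?_
    · intro R _
      exact Finset.mem_powerset.2 Finset.sdiff_subset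
    · intro R _
      exact Finset.mem_powerset.2 Finset.sdiff_subset
    · intro R hR
      exact Finset.sdiff_sdiff_eq_self (Finset.mem_powerset.1 hR)
    · intro R hR
      exact Finset.sdiff_sdiff_eq_self (Finset.mem_powerset.1 hR)
    · intro R hR
      rw [Finset.sdiff_sdiff_eq_self (Finset.mem_powerset.1 hR)]
  have hneg : ∀ R ∈ B.powerset, (∏ i ∈ B \ R, sg (a i)) * E (symmDiff (B \ R) T) =
      -((∏ i ∈ R, sg (a i)) * E (symmDiff R T)) := by
    intro R hR
    have hRB := Finset.mem_powerset.1 hR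
    have h1 : symmDiff B (symmDiff R T) = symmDiff (B \ R) T := by
      rw [← symmDiff_assoc, symmDiff_of_ge hRB]
    have hRc : R.card ≤ B.card := Finset.card_le_card hRB
    have h2 := h.mul B (symmDiff R T) (by omega) ((sd_card R T).trans (by omega))
      (by
        rw [h1]
        refine (sd_card _ _).trans ?_
        have h3 : (B \ R).card ≤ B.card := Finset.card_le_card Finset.sdiff_subset
        omega) hEB
    rw [h1] at h2
    have h4 : (∏ i ∈ B \ R, sg (a i)) * (∏ i ∈ R, sg (a i)) = ∏ i ∈ B, sg (a i) :=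
      Finset.prod_sdiff hRB
    have h5 : ∏ i ∈ B \ R, sg (a i) = (∏ i ∈ B, sg (a i)) * (∏ i ∈ R, sg (a i)) := by
      rw [← h4, mul_assoc, hsq, mul_one]
    rw [h2, h5, ha]
    have h6 := hsq B
    linear_combination (-(∏ i ∈ R, sg (a i)) * E (symmDiff R T)) * h6
  have h7 := hinv
  rw [Finset.sum_congr rfl hneg, Finset.sum_neg_distrib] at h7
  linarith

end Pool.Agent.H55.QT
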