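import Mathlib
import Pool.Agent.H6.QL.Ifc
import Pool.Agent.H55.QT.Xt

set_option autoImplicit false
set_option linter.unusedSectionVars false

/-!
# Module XG: functionals of XOR type are pseudo-expectations

Here `Pool.H6.QL.sg b` is `1` for `true` and `-1` for `false`.

* `XG.pos`: copy of the proof of `XT.pos` (`Xt.lean`; there `ℕ` instead of `U`); or transport to `ℕ` if `U = Fin n`.
* `xg_of_xt`: `Finset.map` with `Fin.valEmbedding` commutes with `symmDiff` (`Finset.map_symmDiff`) and keeps cards.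
* `pe_flip`: induction on `c` for all `U`: `pe E (l :: c) (symmDiff U (symmDiff {l.1} B'))`, `B' = vs c`, is by definition
  `(pe E c (U Δ {l.1} Δ B') - sg l.2 * pe E c (U Δ B')) / 2` (`{l.1} Δ {l.1} = ∅`) `= P' (pe E c (U Δ {l.1}) - sg l.2 * pe E c U) / 2 =
  P' (- sg l.2) (pe E c U - sg l.2 * pe E c (U Δ {l.1})) / 2` because `sg l.2 ^ 2 = 1`.
* `pe_mul`: induction on `c` for all `U` with `U.card + c.length + B.card ≤ D`: `pe E [] U = E U`, `XG.mul` for `B`, `U`; the step is linear
  (`(symmDiff U {i}).card ≤ U.card + 1`).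
* `pe_zero`: `c` without repeated variables: `vs c = (c.map Prod.fst).toFinset`, card `c.length`. For `U.card + c.length ≤ D` the cards in `pe_mul` are too large by
  `c.length`, so argue on the level of subsets: CLAIM (induction on a suffix `c'` of `c`, `B = vs c`): for all `R ⊆ B` disjoint from `vs c'`...: simplest: prove
  by induction on `c'`: for all `U` such that `(symmDiff U S).card ≤ D` and `(symmDiff (symmDiff U S) B).card ≤ D` for all `S ⊆ vs c'`:
  `pe E c' (symmDiff U B) = E B * pe E c' U`. For `c' = c`, `U.card + c.length ≤ D`: `symmDiff U S` and `symmDiff U (B \ S)` have at most `U.card + B.card` elements.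
  With `pe_flip`: `P * pe E c U = pe E c (symmDiff U B) = E B * pe E c U`, `E B = -P`, `P = 1` or `-1`; so `pe E c U = 0`.
* `XG.pe`: assembling.
-/

namespace Pool.Agent.H55.QT

open Finset Classical Pool.H6.QL

/-- a functional of XOR type on the monomials of degree at most `D` -/
structure XG {U : Type} (D : ℕ) (E : Finset U → ℝ) : Prop where
  one : E ∅ = 1
  val : ∀ S, E S = 0 ∨ E S = 1 ∨ E S = -1
  mul : ∀ S T, S.card ≤ D → T.card ≤ D → (symmDiff S T).card ≤ D → E S ≠ 0 →
    E (symmDiff S T) = E S * E T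

/-- the variables of a list of literals -/
noncomputable def vs {U : Type} (c : List (U × Bool)) : Finset U := (c.map Prod.fst).toFinset

/-- the product of the signs of the falsifying assignment -/
noncomputable def sf {U : Type} (c : List (U × Bool)) : ℝ := (c.map fun l => -Pool.H6.QL.sg l.2).prod

private theorem sdc {U : Type} [DecidableEq U] (S T : Finset U) :
    (symmDiff S T).card ≤ S.card + T.card := by
  refine (Finset.card_le_card ?_).trans (Finset.card_union_le S T)
  intro x hx
  rw [Finset.mem_symmDiff] at hx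
  rw [Finset.mem_union]
  tauto

private theorem map_sd {n : ℕ} [inst : DecidableEq (Fin n)] (S T : Finset (Fin n)) :
    (symmDiff S T).map Fin.valEmbedding =
      symmDiff (S.map Fin.valEmbedding) (T.map Fin.valEmbedding) := by
  ext x
  simp only [Finset.mem_map, Finset.mem_symmDiff]
  constructor
  · rintro ⟨a, ha, rfl⟩
    rcases ha with ⟨h1, h2⟩ | ⟨h1, h2⟩
    · left
      refine ⟨⟨a, h1, rfl⟩, ?_⟩
      rintro ⟨b, hb, hab⟩
      exact h2 (Fin.valEmbedding.injective hab ▸ hb)
    · right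
      refine ⟨⟨a, h1, rfl⟩, ?_⟩
      rintro ⟨b, hb, hab⟩
      exact h2 (Fin.valEmbedding.injective hab ▸ hb)
  · rintro (⟨⟨a, ha, rfl⟩, h⟩ | ⟨⟨a, ha, rfl⟩, h⟩)
    · exact ⟨a, Or.inl ⟨ha, fun h1 => h ⟨a, h1, rfl⟩⟩, rfl⟩
    · exact ⟨a, Or.inr ⟨ha, fun h1 => h ⟨a, h1, rfl⟩⟩, rfl⟩

private theorem XG.mul2 {U : Type} [inst : DecidableEq U] {D : ℕ} {E : Finset U → ℝ} (h : XG D E) :
    ∀ S T : Finset U, S.card ≤ D → T.card ≤ D → (symmDiff S T).card ≤ D → E S ≠ 0 →
      E (symmDiff S T) = E S * E T := by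
  have e : inst = fun a b => Classical.propDecidable (a = b) := Subsingleton.elim _ _
  subst e
  exact h.mul

theorem xg_of_xt {n D : ℕ} {E : Finset ℕ → ℝ} (h : XT D E) :
    XG D (fun S : Finset (Fin n) => E (S.map Fin.valEmbedding)) := by
  refine ⟨?_, fun S => h.val _, ?_⟩
  · change E ((∅ : Finset (Fin n)).map Fin.valEmbedding) = 1
    rw [Finset.map_empty, h.one]
  · intro S T hS hT hST h0
    have e := @map_sd n (fun a b => Classical.propDecidable (a = b)) S T
    have hc := congrArg Finset.card e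
    rw [Finset.card_map] at hc
    have h1 := h.mul (S.map Fin.valEmbedding) (T.map Fin.valEmbedding)
      (by rw [Finset.card_map]; exact hS) (by rw [Finset.card_map]; exact hT)
      (by rw [← hc]; exact hST) h0
    exact (congrArg E e).trans h1

private theorem pos_aux {U : Type} [DecidableEq U] {D K : ℕ} {E : Finset U → ℝ} (hone : E ∅ = 1)
    (hmul : ∀ S T : Finset U, S.card ≤ D → T.card ≤ D → (symmDiff S T).card ≤ D → E S ≠ 0 →
      E (symmDiff S T) = E S * E T) (hK : 2 * K ≤ D) (s : Finset (Finset U))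
    (p : Finset U → ℝ) (hs : ∀ S ∈ s, S.card ≤ K) :
    0 ≤ ∑ S ∈ s, ∑ T ∈ s, p S * p T * E (symmDiff S T) := by
  have hc : ∀ S ∈ s, ∀ T ∈ s, (symmDiff S T).card ≤ D := by
    intro S hS T hT
    have h1 := sdc S T
    have h2 := hs S hS
    have h3 := hs T hT
    omega
  have hm : ∀ S ∈ s, ∀ R ∈ s, ∀ T ∈ s, E (symmDiff S R) ≠ 0 →
      E (symmDiff S T) = E (symmDiff S R) * E (symmDiff R T) := by
    intro S hS R hR T hT h0
    have h1 : symmDiff (symmDiff S R) (symmDiff R T) = symmDiff S T := by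
      rw [symmDiff_assoc, symmDiff_symmDiff_cancel_left]
    have h2 := hmul (symmDiff S R) (symmDiff R T) (hc S hS R hR) (hc R hR T hT)
      (by rw [h1]; exact hc S hS T hT) h0
    rwa [h1] at h2
  obtain ⟨n, hn⟩ : ∃ n : Finset U → ℝ, ∀ R, n R =
      ∑ S ∈ s, if E (symmDiff R S) ≠ 0 then (1 : ℝ) else 0 := ⟨_, fun _ => rfl⟩
  have hnpos : ∀ R ∈ s, 0 < n R := by
    intro R hR
    rw [hn]
    refine Finset.sum_pos' (fun S _ => ?_) ⟨R, hR, ?_⟩
    · split_ifs <;> norm_num
    · have h1 : E (symmDiff R R) ≠ 0 := by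
        rw [symmDiff_self, Finset.bot_eq_empty, hone]
        exact one_ne_zero
      rw [if_pos h1]
      exact one_pos
  have hneq : ∀ S ∈ s, ∀ R ∈ s, E (symmDiff S R) ≠ 0 → n S = n R := by
    intro S hS R hR h0
    rw [hn, hn]
    refine Finset.sum_congr rfl fun T hT => ?_
    have h1 := hm S hS R hR T hT h0
    have h2 : E (symmDiff S T) ≠ 0 ↔ E (symmDiff R T) ≠ 0 := by
      rw [h1]
      constructor
      · exact fun h3 => right_ne_zero_of_mul h3
      · exact fun h3 => mul_ne_zero h0 h3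
    by_cases h3 : E (symmDiff S T) ≠ 0
    · rw [if_pos h3, if_pos (h2.1 h3)]
    · rw [if_neg h3, if_neg fun h4 => h3 (h2.2 h4)]
  have key : ∀ S ∈ s, ∀ T ∈ s,
      ∑ R ∈ s, (1 / n R) * (E (symmDiff S R) * E (symmDiff R T)) = E (symmDiff S T) := by
    intro S hS T hT
    have h1 : ∀ R ∈ s, (1 / n R) * (E (symmDiff S R) * E (symmDiff R T)) =
        (if E (symmDiff S R) ≠ 0 then (1 : ℝ) else 0) * ((1 / n S) * E (symmDiff S T)) := by
      intro R hR
      by_cases h0 : E (symmDiff S R) ≠ 0
      · rw [if_pos h0, one_mul, hm S hS R hR T hT h0, hneq S hS R hR h0]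
      · rw [if_neg h0, zero_mul]
        push Not at h0
        rw [h0, zero_mul, mul_zero]
    rw [Finset.sum_congr rfl h1, ← Finset.sum_mul, ← hn, ← mul_assoc,
      mul_one_div_cancel (hnpos S hS).ne', one_mul]
  have h2 : ∑ S ∈ s, ∑ T ∈ s, p S * p T * E (symmDiff S T) =
      ∑ R ∈ s, (1 / n R) * (∑ S ∈ s, p S * E (symmDiff S R)) ^ 2 := by
    calc ∑ S ∈ s, ∑ T ∈ s, p S * p T * E (symmDiff S T) =
        ∑ S ∈ s, ∑ T ∈ s, ∑ R ∈ s,
          (1 / n R) * ((p S * E (symmDiff S R)) * (p T * E (symmDiff T R))) := by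
          refine Finset.sum_congr rfl fun S hS => Finset.sum_congr rfl fun T hT => ?_
          rw [← key S hS T hT, Finset.mul_sum]
          refine Finset.sum_congr rfl fun R _ => ?_
          rw [symmDiff_comm T R]
          ring
      _ = ∑ S ∈ s, ∑ R ∈ s, ∑ T ∈ s,
          (1 / n R) * ((p S * E (symmDiff S R)) * (p T * E (symmDiff T R))) :=
          Finset.sum_congr rfl fun S _ => Finset.sum_comm
      _ = ∑ R ∈ s, ∑ S ∈ s, ∑ T ∈ s,
          (1 / n R) * ((p S * E (symmDiff S R)) * (p T * E (symmDiff T R))) := Finset.sum_comm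
      _ = ∑ R ∈ s, (1 / n R) * (∑ S ∈ s, p S * E (symmDiff S R)) ^ 2 := by
          refine Finset.sum_congr rfl fun R _ => ?_
          rw [sq, Finset.sum_mul_sum, Finset.mul_sum]
          refine Finset.sum_congr rfl fun S _ => ?_
          rw [Finset.mul_sum]
  rw [h2]
  refine Finset.sum_nonneg fun R hR => mul_nonneg ?_ (sq_nonneg _)
  exact one_div_nonneg.2 (hnpos R hR).le

theorem XG.pos {n D K : ℕ} {E : Finset (Fin n) → ℝ} (h : XG D E) (hK : 2 * K ≤ D)
    (p : Finset (Fin n) → ℝ) (hp : ∀ S, K < S.card → p S = 0) :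
    0 ≤ ∑ S, ∑ T, p S * p T * E (symmDiff S T) := by
  have h1 : ∑ S, ∑ T, p S * p T * E (symmDiff S T) =
      ∑ S ∈ (univ.filter fun S : Finset (Fin n) => S.card ≤ K),
        ∑ T ∈ (univ.filter fun S : Finset (Fin n) => S.card ≤ K), p S * p T * E (symmDiff S T) := by
    symm
    refine (Finset.sum_subset (Finset.filter_subset _ _) ?_).trans ?_
    · intro S _ hS
      have h2 : p S = 0 := hp S (by
        by_contra h3
        exact hS (Finset.mem_filter.2 ⟨Finset.mem_univ _, not_lt.1 h3⟩))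
      refine Finset.sum_eq_zero fun T _ => ?_
      rw [h2, zero_mul, zero_mul]
    · refine Finset.sum_congr rfl fun S _ => ?_
      refine Finset.sum_subset (Finset.filter_subset _ _) ?_
      intro T _ hT
      have h2 : p T = 0 := hp T (by
        by_contra h3
        exact hT (Finset.mem_filter.2 ⟨Finset.mem_univ _, not_lt.1 h3⟩))
      rw [h2, mul_zero, zero_mul]
  rw [h1]
  exact pos_aux h.one h.mul2 hK _ p fun S hS => (Finset.mem_filter.1 hS).2

private theorem mem_vs {n : ℕ} {c : List (Fin n × Bool)} {i : Fin n} :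
    i ∈ vs c ↔ i ∈ c.map Prod.fst := by
  unfold vs
  exact @List.mem_toFinset _ (fun a b => Classical.propDecidable (a = b)) _ _

private theorem vs_nil {n : ℕ} : vs ([] : List (Fin n × Bool)) = ∅ := by
  ext i
  rw [mem_vs]
  simp

private theorem vs_cons {n : ℕ} {l : Fin n × Bool} {c : List (Fin n × Bool)}
    (h : l.1 ∉ c.map Prod.fst) : vs (l :: c) = symmDiff {l.1} (vs c) := by
  ext i
  rw [mem_vs, Finset.mem_symmDiff, mem_vs, List.map_cons, List.mem_cons, Finset.mem_singleton]
  constructor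
  · rintro (rfl | h1)
    · exact Or.inl ⟨rfl, h⟩
    · refine Or.inr ⟨h1, ?_⟩
      rintro rfl
      exact h h1
  · rintro (⟨h1, -⟩ | ⟨h1, -⟩)
    · exact Or.inl h1
    · exact Or.inr h1

private theorem sg_sq (b : Bool) : Pool.H6.QL.sg b * Pool.H6.QL.sg b = 1 := by
  cases b <;> simp [Pool.H6.QL.sg]

private theorem sg_ne (b : Bool) : Pool.H6.QL.sg b ≠ 0 := by
  cases b <;> simp [Pool.H6.QL.sg]

private theorem sf_cons {n : ℕ} (l : Fin n × Bool) (c : List (Fin n × Bool)) :
    sf (l :: c) = -Pool.H6.QL.sg l.2 * sf c := by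
  unfold sf
  rw [List.map_cons, List.prod_cons]

private theorem sf_ne {n : ℕ} (c : List (Fin n × Bool)) : sf c ≠ 0 := by
  induction c with
  | nil => simp [sf]
  | cons l c ih =>
    rw [sf_cons]
    exact mul_ne_zero (neg_ne_zero.2 (sg_ne _)) ih

private theorem pe_nil {n : ℕ} (E : Finset (Fin n) → ℝ) (U : Finset (Fin n)) :
    pe E [] U = E U := by
  rw [Pool.H6.QL.pe]

private theorem pe_cons {n : ℕ} (E : Finset (Fin n) → ℝ) (l : Fin n × Bool)
    (c : List (Fin n × Bool)) (U : Finset (Fin n)) :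
    pe E (l :: c) U = (pe E c U - Pool.H6.QL.sg l.2 * pe E c (symmDiff U {l.1})) / 2 := by
  rw [Pool.H6.QL.pe]

theorem pe_flip {n : ℕ} (E : Finset (Fin n) → ℝ) (c : List (Fin n × Bool))
    (hc : (c.map Prod.fst).Nodup) : ∀ U, pe E c (symmDiff U (vs c)) = sf c * pe E c U := by
  induction c with
  | nil =>
    intro U
    have h1 : symmDiff U (vs ([] : List (Fin n × Bool))) = U := by
      rw [vs_nil]
      exact symmDiff_bot U
    rw [h1]
    simp [sf]
  | cons l c ih =>
    intro U
    rw [List.map_cons, List.nodup_cons] at hc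
    have ih' := ih hc.2
    have hv := vs_cons hc.1
    have e1 : symmDiff U (vs (l :: c)) = symmDiff (symmDiff U {l.1}) (vs c) := by
      rw [hv, symmDiff_assoc]
    have e2 : symmDiff (symmDiff U (vs (l :: c))) {l.1} = symmDiff U (vs c) := by
      rw [hv, symmDiff_comm ({l.1} : Finset (Fin n)) (vs c), ← symmDiff_assoc U (vs c) {l.1},
        symmDiff_symmDiff_cancel_right]
    rw [pe_cons, pe_cons, e2, e1, ih' U, ih' (symmDiff U {l.1}), sf_cons]
    have h1 := sg_sq l.2
    linear_combination (-(sf c * pe E c (symmDiff U {l.1})) / 2) * h1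

theorem pe_zero {n D : ℕ} {E : Finset (Fin n) → ℝ} (h : XG D E) {c : List (Fin n × Bool)}
    (hc : (c.map Prod.fst).Nodup) (hE : E (vs c) = -sf c) {U : Finset (Fin n)}
    (hU : U.card + c.length ≤ D) : pe E c U = 0 := by
  have hsub : ∀ c' : List (Fin n × Bool), (c'.map Prod.fst).Nodup → ∀ U : Finset (Fin n),
      (∀ S, S ⊆ vs c' → (symmDiff U S).card ≤ D ∧ (symmDiff (symmDiff U S) (vs c)).card ≤ D) →
      (vs c).card ≤ D → E (vs c) ≠ 0 →
      pe E c' (symmDiff U (vs c)) = E (vs c) * pe E c' U := by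
    intro c'
    induction c' with
    | nil =>
      intro _ U hS hB hB0
      have h1 := hS ∅ (Finset.empty_subset _)
      have e0 : symmDiff U ∅ = U := symmDiff_bot U
      rw [e0] at h1
      rw [pe_nil, pe_nil, symmDiff_comm U (vs c)]
      exact h.mul2 (vs c) U hB h1.1 (by rw [symmDiff_comm]; exact h1.2) hB0
    | cons l c' ih =>
      intro hc' U hS hB hB0
      rw [List.map_cons, List.nodup_cons] at hc'
      have hv : ∀ S, S ⊆ vs c' → S ⊆ vs (l :: c') := by
        intro S hS' i hi
        have h1 := hS' hi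
        rw [mem_vs] at h1
        rw [mem_vs, List.map_cons]
        exact List.mem_cons_of_mem _ h1
      have hl : ∀ S, S ⊆ vs c' → symmDiff {l.1} S ⊆ vs (l :: c') := by
        intro S hS' i hi
        rw [Finset.mem_symmDiff, Finset.mem_singleton] at hi
        rcases hi with ⟨rfl, -⟩ | ⟨h1, -⟩
        · rw [mem_vs, List.map_cons]
          exact List.mem_cons_self
        · exact hv S hS' h1
      have i1 := ih hc'.2 U (fun S hS' => hS S (hv S hS')) hB hB0
      have i2 := ih hc'.2 (symmDiff U {l.1}) (fun S hS' => by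
        have h1 := hS _ (hl S hS')
        rw [← symmDiff_assoc] at h1
        exact h1) hB hB0
      have e1 : symmDiff (symmDiff U (vs c)) {l.1} = symmDiff (symmDiff U {l.1}) (vs c) := by
        rw [symmDiff_assoc, symmDiff_comm (vs c), ← symmDiff_assoc]
      rw [pe_cons, pe_cons, e1, i1, i2]
      ring
  have hBc : (vs c).card ≤ c.length := by
    have h1 : (vs c).card ≤ (c.map Prod.fst).length := by
      unfold vs
      exact @List.toFinset_card_le _ (fun a b => Classical.propDecidable (a = b)) _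
    rwa [List.length_map] at h1
  have hE0 : E (vs c) ≠ 0 := by
    rw [hE]
    exact neg_ne_zero.2 (sf_ne c)
  have h1 := hsub c hc U (fun S hS => by
    have h2 : S.card ≤ (vs c).card := Finset.card_le_card hS
    refine ⟨(sdc U S).trans (by omega), ?_⟩
    have e : symmDiff (symmDiff U S) (vs c) = symmDiff U (vs c \ S) := by
      rw [symmDiff_assoc, symmDiff_of_le hS]
    rw [e]
    have h3 : (vs c \ S).card ≤ (vs c).card := Finset.card_le_card Finset.sdiff_subset
    exact (sdc U _).trans (by omega)) (by omega) hE0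
  have h2 := pe_flip E c hc U
  rw [h1, hE] at h2
  have h3 : sf c * pe E c U = 0 := by linarith
  exact (mul_eq_zero.1 h3).resolve_left (sf_ne c)

theorem XG.pe {n D K : ℕ} {E : Finset (Fin n) → ℝ} (h : XG D E) (hK : 2 * K ≤ D)
    {Γ : Set (List (Fin n × Bool))} (hΓ : ∀ c ∈ Γ, (c.map Prod.fst).Nodup ∧ E (vs c) = -sf c) :
    PE n K Γ :=
  ⟨E, h.one, fun p hp => XG.pos h hK p hp,
    fun c hc U hU => pe_zero h (hΓ c hc).1 (hΓ c hc).2 (by omega)⟩

end Pool.Agent.H55.QT
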