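import Mathlib
import Pool.Agent.H55.QT.Xg
import Pool.Agent.H55.QT.RDefs

set_option autoImplicit false
set_option linter.unusedSectionVars false

/-!
# Module XOR: expanding systems of linear equations give functionals of XOR type

`par B I`: the set of the elements which are in an odd number of the sets `B j`, `j ∈ I`. `xE S = ∏ j ∈ I, s j` if `S = par B I` with `I.card ≤ r`.

* `par_symm`: `#{j ∈ I Δ J | x ∈ B j} ≡ #{j ∈ I | ..} + #{j ∈ J | ..}` modulo 2 (the filter commutes with `symmDiff`, `card (I Δ J) + 2 card (I ∩ J) = card I + card J`).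
* `xE_eq`: if `par B I = par B J`, `I.card, J.card ≤ r`, then `par B (I Δ J) = ∅`, `(I Δ J).card ≤ 2 r`, so `I Δ J = ∅` by `h1`.
* `xor_xg`: `one`: `I = ∅`. `val`: a product of `±1`. `mul`: `S = par B I`. If `T = par B J`: `(I Δ J).card ≤ 2 r`, `(par B (I Δ J)).card = (S Δ T).card ≤ D`, so
  `(I Δ J).card ≤ r` by `h2`; `∏ j ∈ I Δ J, s j = (∏ j ∈ I, s j) * ∏ j ∈ J, s j` (`s j ^ 2 = 1`). If `T` is not of this form then `xE T = 0` and `xE (S Δ T) = 0` (otherwise
  the first case for `S`, `S Δ T` shows that `T` is of this form).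
* `xor_single`: `par B {j} = B j`, `1 ≤ r`.
* `par_big`: `u1` = number of the `x` that are in exactly one `B j`, `j ∈ I`, `u2` = number of the `x` that are in at least two: `u1 + u2 = card of the union`,
  `u1 + 2 u2 ≤ ∑ j ∈ I, (B j).card = 3 * I.card` (double counting, `Finset.sum_card_bipartiteAbove_eq_sum_card_bipartiteBelow` or
  `Finset.sum_comm`), so `u1 ≥ 2 * union - 3 * I.card`, and the `x` counted by `u1` are in `par B I`. `4 * u1 ≥ 13 * I.card - 12 * I.card`.
-/

namespace Pool.Agent.H55.QT

open Finset Classical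

variable {n m : ℕ}

/-- elements in an odd number of the sets -/
noncomputable def par (B : Fin m → Finset (Fin n)) (I : Finset (Fin m)) : Finset (Fin n) :=
  univ.filter fun x => Odd (I.filter fun j => x ∈ B j).card

/-- the functional of the system of equations -/
noncomputable def xE (B : Fin m → Finset (Fin n)) (s : Fin m → ℝ) (r : ℕ) (S : Finset (Fin n)) : ℝ :=
  if h : ∃ I : Finset (Fin m), I.card ≤ r ∧ par B I = S then ∏ j ∈ h.choose, s j else 0

private theorem card_sd {α : Type} [DecidableEq α] (A B : Finset α) :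
    (symmDiff A B).card + 2 * (A ∩ B).card = A.card + B.card := by
  have h1 : symmDiff A B = (A \ B) ∪ (B \ A) := by
    ext x; simp [Finset.mem_symmDiff]
  have h2 : Disjoint (A \ B) (B \ A) := by
    rw [Finset.disjoint_left]
    intro x hx hy
    simp only [Finset.mem_sdiff] at hx hy
    exact hx.2 hy.1
  have h3 : (A \ B).card + (A ∩ B).card = A.card := Finset.card_sdiff_add_card_inter A B
  have h4 : (B \ A).card + (B ∩ A).card = B.card := Finset.card_sdiff_add_card_inter B A
  have h5 : B ∩ A = A ∩ B := Finset.inter_comm B A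
  rw [h5] at h4
  rw [h1, Finset.card_union_of_disjoint h2]
  omega

private theorem card_sd_le {α : Type} [DecidableEq α] (A B : Finset α) :
    (symmDiff A B).card ≤ A.card + B.card := by
  have := card_sd A B
  omega

theorem par_symm (B : Fin m → Finset (Fin n)) (I J : Finset (Fin m)) :
    par B (symmDiff I J) = symmDiff (par B I) (par B J) := by
  ext x
  have h1 : (symmDiff I J).filter (fun j => x ∈ B j) =
      symmDiff (I.filter fun j => x ∈ B j) (J.filter fun j => x ∈ B j) := by
    ext j
    simp only [Finset.mem_filter, Finset.mem_symmDiff]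
    tauto
  have h2 := card_sd (I.filter fun j => x ∈ B j) (J.filter fun j => x ∈ B j)
  simp only [par, Finset.mem_symmDiff, Finset.mem_filter, Finset.mem_univ, true_and]
  rw [h1]
  simp only [Nat.odd_iff]
  omega

theorem xE_eq {B : Fin m → Finset (Fin n)} {s : Fin m → ℝ} {r : ℕ}
    (h1 : ∀ I : Finset (Fin m), I.card ≤ 2 * r → par B I = ∅ → I = ∅) {I : Finset (Fin m)}
    (hI : I.card ≤ r) : xE B s r (par B I) = ∏ j ∈ I, s j := by
  have hex : ∃ I' : Finset (Fin m), I'.card ≤ r ∧ par B I' = par B I := ⟨I, hI, rfl⟩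
  rw [xE, dif_pos hex]
  have hs := hex.choose_spec
  have h3 : symmDiff hex.choose I = ∅ := by
    apply h1
    · have := card_sd_le hex.choose I
      omega
    · rw [par_symm, hs.2, symmDiff_self]
      rfl
  have h4 : hex.choose = I := symmDiff_eq_bot.mp h3
  rw [h4]

theorem xor_xg {B : Fin m → Finset (Fin n)} {s : Fin m → ℝ} (hs : ∀ j, s j = 1 ∨ s j = -1)
    {r D : ℕ} (h1 : ∀ I : Finset (Fin m), I.card ≤ 2 * r → par B I = ∅ → I = ∅)
    (h2 : ∀ I : Finset (Fin m), r < I.card → I.card ≤ 2 * r → D < (par B I).card) :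
    XG D (xE B s r) := by
  have hpe : par B ∅ = ∅ := by
    ext x
    simp [par]
  have hprod : ∀ I : Finset (Fin m), (∏ j ∈ I, s j) = 1 ∨ (∏ j ∈ I, s j) = -1 := by
    intro I
    induction I using Finset.induction_on with
    | empty => left; simp
    | insert a I ha ih =>
      rw [Finset.prod_insert ha]
      rcases hs a with h | h <;> rcases ih with h' | h' <;> rw [h, h'] <;> norm_num
  have hsq : ∀ I : Finset (Fin m), (∏ j ∈ I, s j) * (∏ j ∈ I, s j) = 1 := by
    intro I
    rcases hprod I with h | h <;> rw [h] <;> norm_num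
  have hsd : ∀ I J : Finset (Fin m), (∏ j ∈ symmDiff I J, s j) = (∏ j ∈ I, s j) * ∏ j ∈ J, s j := by
    intro I J
    have e1 : symmDiff I J = (I \ J) ∪ (J \ I) := by
      ext x; simp [Finset.mem_symmDiff]
    have e2 : Disjoint (I \ J) (J \ I) := by
      rw [Finset.disjoint_left]
      intro x hx hy
      simp only [Finset.mem_sdiff] at hx hy
      exact hx.2 hy.1
    have e3 : (∏ j ∈ I, s j) = (∏ j ∈ I \ J, s j) * ∏ j ∈ I ∩ J, s j := by
      rw [← Finset.prod_union (Finset.disjoint_sdiff_inter I J), Finset.sdiff_union_inter]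
    have e4 : (∏ j ∈ J, s j) = (∏ j ∈ J \ I, s j) * ∏ j ∈ I ∩ J, s j := by
      rw [Finset.inter_comm I J, ← Finset.prod_union (Finset.disjoint_sdiff_inter J I),
        Finset.sdiff_union_inter]
    rw [e1, Finset.prod_union e2, e3, e4]
    have := hsq (I ∩ J)
    calc (∏ j ∈ I \ J, s j) * ∏ j ∈ J \ I, s j
        = (∏ j ∈ I \ J, s j) * (∏ j ∈ J \ I, s j) * 1 := by ring
      _ = (∏ j ∈ I \ J, s j) * (∏ j ∈ J \ I, s j) *
          ((∏ j ∈ I ∩ J, s j) * ∏ j ∈ I ∩ J, s j) := by rw [this]
      _ = _ := by ring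
  have key : ∀ I T, I.card ≤ r → (∃ J : Finset (Fin m), J.card ≤ r ∧ par B J = T) →
      (symmDiff (par B I) T).card ≤ D →
      xE B s r (symmDiff (par B I) T) = xE B s r (par B I) * xE B s r T ∧
      ∃ J : Finset (Fin m), J.card ≤ r ∧ par B J = symmDiff (par B I) T := by
    rintro I T hI ⟨J, hJ, rfl⟩ hc
    rw [← par_symm] at hc ⊢
    have h3 : (symmDiff I J).card ≤ r := by
      by_contra h4
      push Not at h4
      have h5 := h2 (symmDiff I J) h4 (by have := card_sd_le I J; omega)
      omega
    refine ⟨?_, symmDiff I J, h3, rfl⟩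
    rw [xE_eq h1 h3, xE_eq h1 hI, xE_eq h1 hJ, hsd]
  refine ⟨?_, ?_, ?_⟩
  · have h3 := xE_eq (s := s) h1 (I := ∅) (by simp)
    rw [hpe] at h3
    rw [h3]
    simp
  · intro S
    rw [xE]
    split_ifs with h
    · exact Or.inr (hprod _)
    · exact Or.inl rfl
  · intro S T hS hT hST hne
    have hi : (fun a b : Fin n => propDecidable (a = b)) = instDecidableEqFin n := by
      funext a b
      exact Subsingleton.elim _ _
    rw [hi] at hST ⊢
    have hexS : ∃ I : Finset (Fin m), I.card ≤ r ∧ par B I = S := by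
      by_contra h
      exact hne (by rw [xE, dif_neg h])
    obtain ⟨I, hI, rfl⟩ := hexS
    by_cases hexT : ∃ J : Finset (Fin m), J.card ≤ r ∧ par B J = T
    · exact (key I T hI hexT hST).1
    · have hn : ¬ ∃ J : Finset (Fin m), J.card ≤ r ∧ par B J = symmDiff (par B I) T := by
        intro h
        have h3 := key I _ hI h (by
          rw [symmDiff_symmDiff_cancel_left]; exact hT)
        rw [symmDiff_symmDiff_cancel_left] at h3
        exact hexT h3.2
      have e1 : xE B s r T = 0 := by rw [xE, dif_neg hexT]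
      have e2 : xE B s r (symmDiff (par B I) T) = 0 := by rw [xE, dif_neg hn]
      rw [e1, e2, mul_zero]

theorem xor_single {B : Fin m → Finset (Fin n)} {s : Fin m → ℝ} {r : ℕ} (hr : 1 ≤ r)
    (h1 : ∀ I : Finset (Fin m), I.card ≤ 2 * r → par B I = ∅ → I = ∅) (j : Fin m) :
    xE B s r (B j) = s j := by
  have h2 : par B {j} = B j := by
    ext x
    simp only [par, Finset.mem_filter, Finset.mem_univ, true_and, Finset.filter_singleton]
    by_cases hx : x ∈ B j
    · simp [hx]
    · simp [hx]
  have h3 := xE_eq (s := s) h1 (I := {j}) (by simpa using hr)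
  rw [h2, Finset.prod_singleton] at h3
  exact h3

theorem par_big {B : Fin m → Finset (Fin n)} (hB : ∀ j, (B j).card = 3) {I : Finset (Fin m)}
    (h : 13 * I.card ≤ 8 * (I.biUnion B).card) : I.card ≤ 4 * (par B I).card := by
  have hU : ∀ x, x ∈ I.biUnion B ↔ 1 ≤ (I.filter fun j => x ∈ B j).card := by
    intro x
    rw [Finset.mem_biUnion, Nat.one_le_iff_ne_zero, Ne, Finset.card_eq_zero,
      Finset.filter_eq_empty_iff]
    push Not
    rfl
  have hsum : ∑ x ∈ I.biUnion B, (I.filter fun j => x ∈ B j).card = 3 * I.card := by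
    have e1 : ∀ x ∈ I.biUnion B, (I.filter fun j => x ∈ B j).card =
        ∑ j ∈ I, if x ∈ B j then 1 else 0 := by
      intro x _
      rw [Finset.card_filter]
    rw [Finset.sum_congr rfl e1, Finset.sum_comm]
    have e2 : ∀ j ∈ I, (∑ x ∈ I.biUnion B, if x ∈ B j then 1 else 0) = 3 := by
      intro j hj
      rw [← Finset.card_filter]
      have : (I.biUnion B).filter (fun x => x ∈ B j) = B j := by
        ext x
        simp only [Finset.mem_filter, Finset.mem_biUnion]
        exact ⟨fun h => h.2, fun h => ⟨⟨j, hj, h⟩, h⟩⟩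
      rw [this, hB]
    rw [Finset.sum_congr rfl e2, Finset.sum_const, smul_eq_mul, mul_comm]
  have hlow : ∑ x ∈ I.biUnion B, (2 - if Odd (I.filter fun j => x ∈ B j).card then 1 else 0) ≤
      ∑ x ∈ I.biUnion B, (I.filter fun j => x ∈ B j).card := by
    refine Finset.sum_le_sum fun x hx => ?_
    have h3 := (hU x).mp hx
    split_ifs with h4
    · omega
    · rw [Nat.odd_iff] at h4
      omega
  have hpar : (par B I) = (I.biUnion B).filter fun x => Odd (I.filter fun j => x ∈ B j).card := by
    ext x
    simp only [par, Finset.mem_filter, Finset.mem_univ, true_and]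
    refine ⟨fun h3 => ⟨(hU x).mpr h3.pos, h3⟩, fun h3 => h3.2⟩
  have hcnt : ∑ x ∈ I.biUnion B, (2 - if Odd (I.filter fun j => x ∈ B j).card then 1 else 0) +
      (par B I).card = 2 * (I.biUnion B).card := by
    rw [hpar, Finset.card_filter, ← Finset.sum_add_distrib]
    have : ∀ x ∈ I.biUnion B, ((2 - if Odd (I.filter fun j => x ∈ B j).card then 1 else 0) +
        if Odd (I.filter fun j => x ∈ B j).card then 1 else 0) = 2 := by
      intro x _
      split_ifs <;> rfl
    rw [Finset.sum_congr rfl this, Finset.sum_const, smul_eq_mul, mul_comm]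
  omega

end Pool.Agent.H55.QT
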