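import Mathlib
import Pool.Agent.H55.QT.Xor

set_option autoImplicit false
set_option linter.unusedSectionVars false

/-!
# Module RDET: expanding 3-CNFs have pseudo-expectations of large degree

PROOF. `B j := cvar (φ j)` (3 elements), `s j := - sf (clist (φ j))` (`1` or `-1`: a product of three signs), `D := 2 * K`. `h1` of `xor_xg`: `par_big` gives
`I.card ≤ 4 * 0`. `h2`: `r < I.card ≤ 4 * (par B I).card` and `8 * K ≤ r`, so `2 * K < (par B I).card`. `E := xE B s r`, `XG.pe` for
`Γ = {clist (φ j)}`: the three variables are different (`(φ j).1` is injective), `vs (clist (φ j)) = cvar (φ j)`, `xor_single`. `1 ≤ r`: if `r = 0` then `K = 0`;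
in this case take `r' = 1` (hypothesis `hr`): we assume `1 ≤ r`.
-/

namespace Pool.Agent.H55.QT

open Finset Classical Pool.H6.QL

private theorem rd_vs {n : ℕ} (c : Cl n) : vs (clist c) = cvar c := by
  ext x
  unfold vs cvar clist
  simp only [List.map_cons, List.map_nil, List.mem_toFinset, List.mem_cons, List.not_mem_nil,
    or_false, Finset.mem_map, Finset.mem_univ, true_and]
  constructor
  · rintro (h | h | h)
    · exact ⟨0, h.symm⟩
    · exact ⟨1, h.symm⟩
    · exact ⟨2, h.symm⟩
  · rintro ⟨i, rfl⟩
    fin_cases i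
    · exact Or.inl rfl
    · exact Or.inr (Or.inl rfl)
    · exact Or.inr (Or.inr rfl)

private theorem rd_nodup {n : ℕ} (c : Cl n) : ((clist c).map Prod.fst).Nodup := by
  unfold clist
  simp only [List.map_cons, List.map_nil, List.nodup_cons, List.mem_cons, List.not_mem_nil,
    or_false, not_false_eq_true, List.nodup_nil, and_true, not_or]
  refine ⟨⟨fun h => ?_, fun h => ?_⟩, fun h => ?_⟩
  · exact absurd (c.1.injective h) (by decide)
  · exact absurd (c.1.injective h) (by decide)
  · exact absurd (c.1.injective h) (by decide)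

private theorem rd_sf {n : ℕ} (c : Cl n) : -sf (clist c) = 1 ∨ -sf (clist c) = -1 := by
  unfold sf clist Pool.H6.QL.sg
  cases c.2 0 <;> cases c.2 1 <;> cases c.2 2 <;> norm_num

theorem pe_exp {n m r K : ℕ} {φ : Fin m → Cl n} (hr : 1 ≤ r) (hK : 8 * K ≤ r)
    (h : Exp13 (2 * r) φ) : PE n K {c | ∃ j, c = clist (φ j)} := by
  have hB : ∀ j, ((fun j => cvar (φ j)) j).card = 3 := by
    intro j
    unfold cvar
    rw [Finset.card_map, Finset.card_univ, Fintype.card_fin]
  have hbig : ∀ I : Finset (Fin m), I.card ≤ 2 * r →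
      I.card ≤ 4 * (par (fun j => cvar (φ j)) I).card := by
    intro I hI
    refine par_big hB ?_
    have h3 := h I hI
    refine h3.trans (le_of_eq ?_)
    congr 2
  have h1 : ∀ I : Finset (Fin m), I.card ≤ 2 * r → par (fun j => cvar (φ j)) I = ∅ → I = ∅ := by
    intro I hI hI0
    have h3 := hbig I hI
    rw [hI0, Finset.card_empty] at h3
    exact Finset.card_eq_zero.1 (by omega)
  have h2 : ∀ I : Finset (Fin m), r < I.card → I.card ≤ 2 * r →
      2 * K < (par (fun j => cvar (φ j)) I).card := by
    intro I hI hI2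
    have h3 := hbig I hI2
    omega
  have hX := xor_xg (B := fun j => cvar (φ j)) (s := fun j => -sf (clist (φ j)))
    (fun j => rd_sf (φ j)) h1 h2
  refine hX.pe le_rfl ?_
  rintro c ⟨j, rfl⟩
  refine ⟨rd_nodup (φ j), ?_⟩
  rw [rd_vs]
  exact xor_single (B := fun j => cvar (φ j)) (s := fun j => -sf (clist (φ j))) hr h1 j

end Pool.Agent.H55.QT
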