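import Mathlib
import Pool.Agent.H55.QT.RCnt
import Pool.Agent.H55.QT.RBin

set_option autoImplicit false
set_option linter.unusedSectionVars false

/-!
# Module REXP: almost all 3-CNFs expand (first moment)

PROOF. If `¬ Exp13 r φ` there is `I`, `i = I.card ≤ r`, with `8 * |union| < 13 * i` (so `1 ≤ i`). With `u := (13 * i - 1) / 8` (`8 * u < 13 * i`, and `|union| ≤ u`),
`u ≤ 2 * i ≤ 2 * r ≤ n`: there is `A` with `A.card = u` that contains the union (`Finset.exists_superset_card_eq`). So the set of bad `φ` is contained in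
the union over `i ∈ Icc 1 r`, `I ∈ powersetCard i univ`, `A ∈ powersetCard u univ` of the sets in `card_cov`: number at most
`∑ i ∈ Icc 1 r, choose (Δ n) i * choose n u * (u / n) ^ (3 i) * total` (`card_cov` divided by `n ^ (3 i) > 0`) `≤ ∑ (Cx Δ * i / n) ^ ((3 i + 7) / 8) * total` (`rbin`)
`≤ ∑ q ^ ((3 i + 7) / 8) * total`, `q := Cx Δ * r / n ≤ 1 / 2`, `≤ 6 * q * total` (`sum_geo`). `n = 0`: then `r = 0` and nothing is bad.
-/

namespace Pool.Agent.H55.QT

open Finset Classical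

/-- the number of points -/
private def uu (i : ℕ) : ℕ := (13 * i - 1) / 8

private theorem bad_sub {Δ n r : ℕ} (hr : 2 * r ≤ n) :
    (univ.filter fun φ : Fin (Δ * n) → Cl n => ¬ Exp13 r φ) ⊆
      (Finset.Icc 1 r).biUnion fun i => (powersetCard i (univ : Finset (Fin (Δ * n)))).biUnion fun I =>
        (powersetCard (uu i) (univ : Finset (Fin n))).biUnion fun A =>
          univ.filter fun φ : Fin (Δ * n) → Cl n => ∀ j ∈ I, cvar (φ j) ⊆ A := by
  intro φ hφ
  rw [Finset.mem_filter] at hφ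
  have h1 := hφ.2
  unfold Exp13 at h1
  push Not at h1
  obtain ⟨I, hI, h2⟩ := h1
  have hpos : 1 ≤ I.card := by omega
  have hA : (I.biUnion fun j => cvar (φ j)).card ≤ uu I.card := by
    unfold uu
    omega
  have hn : uu I.card ≤ Fintype.card (Fin n) := by
    rw [Fintype.card_fin]
    unfold uu
    omega
  obtain ⟨A, hA1, hA2⟩ := Finset.exists_superset_card_eq hA hn
  simp only [Finset.mem_biUnion, Finset.mem_Icc, Finset.mem_powersetCard, Finset.mem_filter,
    Finset.mem_univ, true_and]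
  refine ⟨I.card, ⟨hpos, hI⟩, I, ⟨Finset.subset_univ _, rfl⟩, A, ⟨Finset.subset_univ _, hA2⟩, ?_⟩
  intro j hj
  exact (Finset.subset_biUnion_of_mem (fun j => cvar (φ j)) hj).trans hA1

private theorem cov_real {n m : ℕ} (hn : 0 < n) (A : Finset (Fin n)) (I : Finset (Fin m)) :
    ((univ.filter fun φ : Fin m → Cl n => ∀ j ∈ I, cvar (φ j) ⊆ A).card : ℝ) ≤
      ((A.card : ℝ) / n) ^ (3 * I.card) * Fintype.card (Fin m → Cl n) := by
  have h1 : ((univ.filter fun φ : Fin m → Cl n => ∀ j ∈ I, cvar (φ j) ⊆ A).card : ℝ) *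
      (n : ℝ) ^ (3 * I.card) ≤ (A.card : ℝ) ^ (3 * I.card) * Fintype.card (Fin m → Cl n) := by
    exact_mod_cast card_cov A I
  have hn' : (0 : ℝ) < (n : ℝ) ^ (3 * I.card) := by positivity
  rw [div_pow, div_mul_eq_mul_div, le_div_iff₀ hn']
  exact h1

theorem card_nexp {Δ n r : ℕ} (hΔ : 1 ≤ Δ) (hr : 2 * r ≤ n) (hq : Cx Δ * r / n ≤ 1 / 2) :
    ((univ.filter fun φ : Fin (Δ * n) → Cl n => ¬ Exp13 r φ).card : ℝ) ≤
      6 * (Cx Δ * r / n) * Fintype.card (Fin (Δ * n) → Cl n) := by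
  have hCx : 0 ≤ Cx Δ := by
    unfold Cx
    positivity
  rcases Nat.eq_zero_or_pos r with hr0 | hr0
  · subst hr0
    have h1 := Finset.card_le_card (bad_sub (Δ := Δ) hr)
    have h2 : (Finset.Icc 1 0 : Finset ℕ) = ∅ := by
      ext x
      simp
    rw [h2, Finset.biUnion_empty, Finset.card_empty] at h1
    have h3 : ((univ.filter fun φ : Fin (Δ * n) → Cl n => ¬ Exp13 0 φ).card : ℝ) ≤ 0 := by
      exact_mod_cast h1
    refine h3.trans ?_
    positivity
  have hn : 0 < n := by omega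
  have hn' : (0 : ℝ) < n := by exact_mod_cast hn
  set tot : ℝ := (Fintype.card (Fin (Δ * n) → Cl n) : ℝ) with htot
  have htot0 : 0 ≤ tot := Nat.cast_nonneg _
  have h1 : ((univ.filter fun φ : Fin (Δ * n) → Cl n => ¬ Exp13 r φ).card : ℝ) ≤
      ∑ i ∈ Finset.Icc 1 r, ∑ I ∈ powersetCard i (univ : Finset (Fin (Δ * n))),
        ∑ A ∈ powersetCard (uu i) (univ : Finset (Fin n)),
          ((univ.filter fun φ : Fin (Δ * n) → Cl n => ∀ j ∈ I, cvar (φ j) ⊆ A).card : ℝ) := by
    have h2 : (univ.filter fun φ : Fin (Δ * n) → Cl n => ¬ Exp13 r φ).card ≤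
        ∑ i ∈ Finset.Icc 1 r, ∑ I ∈ powersetCard i (univ : Finset (Fin (Δ * n))),
          ∑ A ∈ powersetCard (uu i) (univ : Finset (Fin n)),
            (univ.filter fun φ : Fin (Δ * n) → Cl n => ∀ j ∈ I, cvar (φ j) ⊆ A).card := by
      refine (Finset.card_le_card (bad_sub hr)).trans ?_
      refine Finset.card_biUnion_le.trans ?_
      refine Finset.sum_le_sum fun i _ => ?_
      refine Finset.card_biUnion_le.trans ?_
      refine Finset.sum_le_sum fun I _ => ?_
      exact Finset.card_biUnion_le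
    exact_mod_cast h2
  refine h1.trans ?_
  have h3 : ∀ i ∈ Finset.Icc 1 r, (∑ I ∈ powersetCard i (univ : Finset (Fin (Δ * n))),
      ∑ A ∈ powersetCard (uu i) (univ : Finset (Fin n)),
        ((univ.filter fun φ : Fin (Δ * n) → Cl n => ∀ j ∈ I, cvar (φ j) ⊆ A).card : ℝ)) ≤
      (Cx Δ * r / n) ^ ((3 * i + 7) / 8) * tot := by
    intro i hi
    rw [Finset.mem_Icc] at hi
    have h4 : (∑ I ∈ powersetCard i (univ : Finset (Fin (Δ * n))),
        ∑ A ∈ powersetCard (uu i) (univ : Finset (Fin n)),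
          ((univ.filter fun φ : Fin (Δ * n) → Cl n => ∀ j ∈ I, cvar (φ j) ⊆ A).card : ℝ)) ≤
        ∑ _I ∈ powersetCard i (univ : Finset (Fin (Δ * n))),
          ∑ _A ∈ powersetCard (uu i) (univ : Finset (Fin n)), ((uu i : ℝ) / n) ^ (3 * i) * tot := by
      refine Finset.sum_le_sum fun I hI => Finset.sum_le_sum fun A hA => ?_
      rw [Finset.mem_powersetCard] at hI hA
      have h5 := cov_real hn A I
      rwa [hI.2, hA.2] at h5
    refine h4.trans ?_
    rw [Finset.sum_const, Finset.sum_const, Finset.card_powersetCard, Finset.card_powersetCard,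
      Finset.card_univ, Finset.card_univ, Fintype.card_fin, Fintype.card_fin, nsmul_eq_mul,
      nsmul_eq_mul]
    have hu : 8 * uu i < 13 * i := by
      unfold uu
      omega
    have h5 := rbin (n := n) hΔ hi.1 (by omega) hu
    have h6 : (Cx Δ * i / n) ^ ((3 * i + 7) / 8) ≤ (Cx Δ * r / n) ^ ((3 * i + 7) / 8) := by
      have h7 : (i : ℝ) ≤ r := by exact_mod_cast hi.2
      have h8 : Cx Δ * i / n ≤ Cx Δ * r / n :=
        div_le_div_of_nonneg_right (mul_le_mul_of_nonneg_left h7 hCx) hn'.le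
      exact pow_le_pow_left₀ (by positivity) h8 _
    calc ((Δ * n).choose i : ℝ) * ((n.choose (uu i) : ℝ) * (((uu i : ℝ) / n) ^ (3 * i) * tot))
        = (((Δ * n).choose i : ℝ) * (n.choose (uu i) : ℝ) * ((uu i : ℝ) / n) ^ (3 * i)) * tot := by
          ring
      _ ≤ (Cx Δ * r / n) ^ ((3 * i + 7) / 8) * tot :=
          mul_le_mul_of_nonneg_right (h5.trans h6) htot0
  refine (Finset.sum_le_sum h3).trans ?_
  rw [← Finset.sum_mul]
  exact mul_le_mul_of_nonneg_right (sum_geo (by positivity) hq r) htot0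

end Pool.Agent.H55.QT
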