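import Mathlib
import Pool.Agent.H55.QT.RExp
import Pool.Agent.H55.QT.RDet

set_option autoImplicit false
set_option linter.unusedSectionVars false

/-!
# Module RFIN: almost all 3-CNFs with `Δ n` clauses are unsatisfiable and have pseudo-expectations of linear degree

PROOF. WLOG `e ≤ 1` (replace `e` by `min e 1`). `c := e / (192 * Cx Δ)` (`Cx Δ ≥ 1`). `K := ⌊c * n⌋₊`, `r' := 16 * K ≤ 16 * c * n`. For `n ≥ 1 / c`: `1 ≤ K`.
`Cx Δ * r' / n ≤ 16 * c * Cx Δ = e / 12 ≤ 1 / 2`, `2 * r' ≤ 32 * c * n ≤ n`. `card_nexp`: all but `6 * e / 12 = e / 2` of the formulas satisfy `Exp13 (16 * K)`, hence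
`PE n K` (`pe_exp` with `r := 8 * K`). `card_sat`: the satisfiable ones are a fraction of at most `2 ^ n * (7 / 8) ^ (Δ * n) ≤ (2 * (7 / 8) ^ 6) ^ n ≤ (9 / 10) ^ n ≤ e / 2` for large `n`
(`tendsto_pow_atTop_nhds_zero_of_lt_one`, `exists_pow_lt_of_lt_one` and monotonicity).
-/

namespace Pool.Agent.H55.QT

open Finset Classical Pool.H6.QL

private theorem cx_pos {Δ : ℕ} (hΔ : 1 ≤ Δ) : 1 ≤ Cx Δ := by
  unfold Cx
  have h1 : (1 : ℝ) ≤ Δ := by exact_mod_cast hΔ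
  have h2 : (1 : ℝ) ≤ (54 * Δ) ^ 3 := one_le_pow₀ (by linarith)
  linarith

private theorem sat_bd {Δ n : ℕ} (hΔ : 6 ≤ Δ) :
    ((univ.filter fun φ : Fin (Δ * n) → Cl n => Sat φ).card : ℝ) ≤
      (9 / 10 : ℝ) ^ n * Fintype.card (Fin (Δ * n) → Cl n) := by
  have h1 := card_sat (n := n) (m := Δ * n)
  obtain ⟨A, hA⟩ : ∃ A, A = (univ.filter fun φ : Fin (Δ * n) → Cl n => Sat φ).card := ⟨_, rfl⟩
  obtain ⟨T, hT⟩ : ∃ T, T = Fintype.card (Fin (Δ * n) → Cl n) := ⟨_, rfl⟩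
  rw [← hA, ← hT] at h1 ⊢
  have h2 : (8 : ℝ) ^ (Δ * n) * A ≤ 2 ^ n * 7 ^ (Δ * n) * T := by exact_mod_cast h1
  have h3 : (A : ℝ) ≤ (2 ^ n * (7 / 8 : ℝ) ^ (Δ * n)) * T := by
    have h8 : (0 : ℝ) < 8 ^ (Δ * n) := by positivity
    have e1 : (2 ^ n * (7 / 8 : ℝ) ^ (Δ * n)) * T = 2 ^ n * 7 ^ (Δ * n) * T / 8 ^ (Δ * n) := by
      rw [div_pow]
      ring
    rw [e1, le_div_iff₀ h8]
    linarith
  refine h3.trans ?_
  refine mul_le_mul_of_nonneg_right ?_ (Nat.cast_nonneg _)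
  rw [pow_mul, ← mul_pow]
  refine pow_le_pow_left₀ (by positivity) ?_ n
  have h4 : (7 / 8 : ℝ) ^ Δ ≤ (7 / 8 : ℝ) ^ 6 :=
    pow_le_pow_of_le_one (by norm_num) (by norm_num) hΔ
  have h5 : (7 / 8 : ℝ) ^ 6 ≤ 9 / 20 := by norm_num
  linarith

theorem rand3 {Δ : ℕ} (hΔ : 6 ≤ Δ) {e : ℝ} (he : 0 < e) : ∃ c : ℝ, 0 < c ∧ ∃ n0 : ℕ, ∀ n, n0 ≤ n →
    1 ≤ ⌊c * n⌋₊ ∧
    ((univ.filter fun φ : Fin (Δ * n) → Cl n =>
      ¬ (¬ Sat φ ∧ PE n ⌊c * n⌋₊ {l | ∃ j, l = clist (φ j)})).card : ℝ) ≤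
      e * Fintype.card (Fin (Δ * n) → Cl n) := by
  obtain ⟨f, hf⟩ : ∃ f, f = min e 1 := ⟨_, rfl⟩
  have hf0 : 0 < f := by
    rw [hf]
    exact lt_min he one_pos
  have hf1 : f ≤ 1 := by
    rw [hf]
    exact min_le_right _ _
  have hfe : f ≤ e := by
    rw [hf]
    exact min_le_left _ _
  have hC := cx_pos (by omega : 1 ≤ Δ)
  obtain ⟨C, hCe⟩ : ∃ C, C = Cx Δ := ⟨_, rfl⟩
  rw [← hCe] at hC
  have hC0 : 0 < C := by linarith
  obtain ⟨c, hc⟩ : ∃ c, c = f / (192 * C) := ⟨_, rfl⟩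
  have hc0 : 0 < c := by
    rw [hc]
    positivity
  have hcC : 192 * (c * C) = f := by
    rw [hc]
    field_simp
  have hc1 : 192 * c ≤ 1 := by
    have : 192 * (c * 1) ≤ 192 * (c * C) := by gcongr
    linarith
  obtain ⟨n1, hn1⟩ := exists_pow_lt_of_lt_one (y := (9 / 10 : ℝ)) (half_pos hf0) (by norm_num)
  obtain ⟨n2, hn2⟩ := exists_nat_ge (1 / c)
  refine ⟨c, hc0, max n1 n2 + 1, fun n hn => ?_⟩
  have hn1' : n1 ≤ n := by
    have := le_max_left n1 n2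
    omega
  have hn2' : n2 ≤ n := by
    have := le_max_right n1 n2
    omega
  have hn0 : 0 < n := by omega
  have hnr : (0 : ℝ) < n := by exact_mod_cast hn0
  have hcn : 1 ≤ c * n := by
    have h1 : 1 / c ≤ n := hn2.trans (by exact_mod_cast hn2')
    rw [div_le_iff₀ hc0] at h1
    linarith
  obtain ⟨K, hK⟩ : ∃ K, K = ⌊c * n⌋₊ := ⟨_, rfl⟩
  have hK1 : 1 ≤ K := by
    rw [hK]
    exact Nat.le_floor (by exact_mod_cast hcn)
  have hKn : (K : ℝ) ≤ c * n := by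
    rw [hK]
    exact Nat.floor_le (by positivity)
  rw [← hK]
  refine ⟨hK1, ?_⟩
  have hr : 2 * (16 * K) ≤ n := by
    have h1 : (32 : ℝ) * K ≤ n := by
      have h2 : 192 * c * n ≤ 1 * n := mul_le_mul_of_nonneg_right hc1 hnr.le
      have h3 : 0 ≤ c * n := by positivity
      linarith
    have h2 : 32 * K ≤ n := by exact_mod_cast h1
    omega
  have hq' : Cx Δ * ((16 * K : ℕ) : ℝ) / n ≤ f / 12 := by
    rw [← hCe, div_le_iff₀ hnr]
    push_cast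
    have h1 : C * (16 * (K : ℝ)) ≤ C * (16 * (c * n)) := by gcongr
    have h2 : C * (16 * (c * n)) = f / 12 * n := by
      rw [← hcC]
      ring
    linarith
  have hq : Cx Δ * ((16 * K : ℕ) : ℝ) / n ≤ 1 / 2 := hq'.trans (by linarith)
  have hex := card_nexp (by omega : 1 ≤ Δ) hr hq
  have hsat := sat_bd (n := n) hΔ
  obtain ⟨T, hT⟩ : ∃ T, T = Fintype.card (Fin (Δ * n) → Cl n) := ⟨_, rfl⟩
  rw [← hT] at hex hsat ⊢
  have hT0 : (0 : ℝ) ≤ T := Nat.cast_nonneg _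
  have h9 : (9 / 10 : ℝ) ^ n ≤ f / 2 :=
    (pow_le_pow_of_le_one (by norm_num) (by norm_num) hn1').trans hn1.le
  have hsub : (univ.filter fun φ : Fin (Δ * n) → Cl n =>
      ¬ (¬ Sat φ ∧ PE n K {l | ∃ j, l = clist (φ j)})) ⊆
      (univ.filter fun φ : Fin (Δ * n) → Cl n => Sat φ) ∪
      (univ.filter fun φ : Fin (Δ * n) → Cl n => ¬ Exp13 (16 * K) φ) := by
    intro φ hφ
    rw [mem_filter] at hφ
    rw [mem_union, mem_filter, mem_filter]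
    by_contra hcon
    refine hφ.2 ⟨fun hs => hcon (Or.inl ⟨mem_univ _, hs⟩), ?_⟩
    have h1 : Exp13 (16 * K) φ := by
      by_contra h2
      exact hcon (Or.inr ⟨mem_univ _, h2⟩)
    refine pe_exp (r := 8 * K) (by omega) le_rfl ?_
    have : 2 * (8 * K) = 16 * K := by omega
    rw [this]
    exact h1
  have hcard := (card_le_card hsub).trans (card_union_le _ _)
  have hcard' : ((univ.filter fun φ : Fin (Δ * n) → Cl n =>
      ¬ (¬ Sat φ ∧ PE n K {l | ∃ j, l = clist (φ j)})).card : ℝ) ≤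
      ((univ.filter fun φ : Fin (Δ * n) → Cl n => Sat φ).card : ℝ) +
      ((univ.filter fun φ : Fin (Δ * n) → Cl n => ¬ Exp13 (16 * K) φ).card : ℝ) := by
    exact_mod_cast hcard
  have h5 : 6 * (Cx Δ * ((16 * K : ℕ) : ℝ) / n) * T ≤ f / 2 * T := by
    refine mul_le_mul_of_nonneg_right ?_ hT0
    linarith
  have h6 : (9 / 10 : ℝ) ^ n * T ≤ f / 2 * T := mul_le_mul_of_nonneg_right h9 hT0
  have h7 : f * T ≤ e * T := mul_le_mul_of_nonneg_right hfe hT0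
  linarith

end Pool.Agent.H55.QT
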