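import Mathlib
import Pool.Agent.H55.QT.RFin
import Pool.Agent.H6.QL.Tau

set_option autoImplicit false
set_option linter.unusedSectionVars false

/-!
# THEOREM QL for random 3-CNFs

`hard_mono`: monotonicity of `Hard` in the numbers. `rnd`: almost all 3-CNFs with `Δ n` clauses
(`Δ ≥ 6`) are unsatisfiable and hard with `K = n`.
-/

namespace Pool.Agent.H55.QT

open Finset Classical Pool.H6.QL Pool.Agent.H3.Frg Pool.Agent.H3.Frg2 Pool.Agent.H3.Frg4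
  Pool.Agent.H81.QG

theorem hard_mono {V : Type} {Γ : Set (List (V × Bool))} {K N e' δ' e δ : ℝ}
    (h : Hard Γ K e' δ') (h1 : N ^ δ ≤ K ^ δ') (h2 : N ^ (2 - e) ≤ K ^ (2 - e'))
    (h3 : N ^ (1 - e) ≤ K ^ (1 - e')) : Hard Γ N e δ := by
  intro Sch hSch
  have hS : ∀ ψ ∈ Sch, (ψ.len : ℝ) ≤ K ^ δ' ∧ ∀ x : ℕ → Bool, ψ.eval x = true :=
    fun ψ hψ => ⟨(hSch ψ hψ).1.trans h1, (hSch ψ hψ).2⟩
  obtain ⟨a1, a2, a3, a4, a5⟩ := h Sch hS
  refine ⟨?_, ?_, ?_, ?_, ?_⟩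
  · intro S T M hM hA hlt
    refine le_trans ?_ (a1 S T M hM hA (lt_of_lt_of_le hlt h2))
    exact Real.rpow_le_rpow_of_exponent_le (by norm_num) h1
  · intro L pf hpf hij
    exact h2.trans (a2 L pf hpf hij)
  · intro A l hA hl L pf hpf hi
    exact h2.trans (a3 A l hA hl L pf hpf hi)
  · intro s N1 N2 A hN1 hN2
    refine le_trans ?_ (a4 s N1 N2 A hN1 hN2)
    exact Real.rpow_le_rpow_of_exponent_le (by norm_num)
      (div_le_div_of_nonneg_right h3 (Real.sqrt_nonneg _))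
  · intro s hh A hA hnA
    refine le_trans ?_ (a5 s hh A hA hnA)
    exact div_le_div_of_nonneg_right h3 (Real.sqrt_nonneg _)

/-- `n ^ a ≤ K ^ b` for large `n` if `K ≥ c n`, `b > 0`, `a < b`. -/
theorem pow_cmp {c a b : ℝ} (hc : 0 < c) (hb : 0 < b) (hab : a < b) :
    ∃ n0 : ℕ, ∀ n : ℕ, n0 ≤ n → ∀ K : ℝ, c * n ≤ K → (n : ℝ) ^ a ≤ K ^ b := by
  have ht : Filter.Tendsto (fun n : ℕ => (n : ℝ) ^ (b - a)) Filter.atTop Filter.atTop :=
    (tendsto_rpow_atTop (by linarith)).comp tendsto_natCast_atTop_atTop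
  obtain ⟨n0, hn0⟩ := Filter.eventually_atTop.1 (ht.eventually_ge_atTop ((c ^ b)⁻¹))
  refine ⟨max n0 1, ?_⟩
  intro n hn K hK
  have hn1 : 1 ≤ n := le_trans (le_max_right _ _) hn
  have hnp : (0 : ℝ) < n := by exact_mod_cast hn1
  have h1 := hn0 n (le_trans (le_max_left _ _) hn)
  have h2 : (c * n) ^ b ≤ K ^ b := Real.rpow_le_rpow (by positivity) hK hb.le
  refine le_trans ?_ h2
  rw [Real.mul_rpow hc.le hnp.le]
  have h3 : (n : ℝ) ^ b = (n : ℝ) ^ (b - a) * (n : ℝ) ^ a := by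
    rw [← Real.rpow_add hnp]
    congr 1
    ring
  rw [h3, ← mul_assoc]
  have h4 : 1 ≤ c ^ b * (n : ℝ) ^ (b - a) := by
    have hcb : 0 < c ^ b := Real.rpow_pos_of_pos hc b
    calc (1 : ℝ) = c ^ b * (c ^ b)⁻¹ := (mul_inv_cancel₀ hcb.ne').symm
      _ ≤ c ^ b * (n : ℝ) ^ (b - a) := mul_le_mul_of_nonneg_left h1 hcb.le
  have h5 : 0 ≤ (n : ℝ) ^ a := by positivity
  nlinarith

theorem rnd {Δ : ℕ} (hΔ : 6 ≤ Δ) {e : ℝ} (he : 0 < e) : ∃ δ : ℝ, 0 < δ ∧ ∃ n0 : ℕ, ∀ n : ℕ, n0 ≤ n →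
    ((univ.filter fun φ : Fin (Δ * n) → Cl n =>
      ¬ (¬ Sat φ ∧ Hard {l | ∃ j, l = clist (φ j)} (n : ℝ) e δ)).card : ℝ) ≤
      e * Fintype.card (Fin (Δ * n) → Cl n) := by
  obtain ⟨e', he'⟩ : ∃ e', e' = min (e / 2) (1 / 2) := ⟨_, rfl⟩
  have he0 : 0 < e' := by
    rw [he']
    exact lt_min (by linarith) (by norm_num)
  have he1 : e' ≤ 1 / 2 := by
    rw [he']
    exact min_le_right _ _
  have he2 : e' < e := by
    have : e' ≤ e / 2 := by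
      rw [he']
      exact min_le_left _ _
    linarith
  obtain ⟨δ', hδ', K0, hK0⟩ := hard e' he0
  obtain ⟨c, hc, n1, hn1⟩ := rand3 hΔ he
  obtain ⟨n2, hn2⟩ := pow_cmp (c := c / 2) (a := δ' / 2) (b := δ') (by positivity) hδ' (by linarith)
  obtain ⟨n3, hn3⟩ := pow_cmp (c := c / 2) (a := 2 - e) (b := 2 - e') (by positivity)
    (by linarith) (by linarith)
  obtain ⟨n4, hn4⟩ := pow_cmp (c := c / 2) (a := 1 - e) (b := 1 - e') (by positivity)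
    (by linarith) (by linarith)
  obtain ⟨n5, hn5⟩ := pow_cmp (c := c / 2) (a := 0) (b := δ') (by positivity) hδ' hδ'
  have ht : Filter.Tendsto (fun n : ℕ => c / 2 * (n : ℝ)) Filter.atTop Filter.atTop :=
    tendsto_natCast_atTop_atTop.const_mul_atTop (by positivity)
  obtain ⟨n6, hn6⟩ := Filter.eventually_atTop.1 (ht.eventually_ge_atTop (K0 : ℝ))
  have ht2 : Filter.Tendsto (fun K : ℕ => (K : ℝ) ^ δ') Filter.atTop Filter.atTop :=
    (tendsto_rpow_atTop hδ').comp tendsto_natCast_atTop_atTop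
  obtain ⟨K1, hK1⟩ := Filter.eventually_atTop.1 (ht2.eventually_ge_atTop (3 : ℝ))
  obtain ⟨n7, hn7⟩ := Filter.eventually_atTop.1 (ht.eventually_ge_atTop (K1 : ℝ))
  refine ⟨δ' / 2, by linarith, n1 + n2 + n3 + n4 + n5 + n6 + n7, ?_⟩
  intro n hn
  obtain ⟨hK, hcard⟩ := hn1 n (by omega)
  refine le_trans ?_ hcard
  have hKn : c / 2 * n ≤ (⌊c * n⌋₊ : ℝ) := by
    have h1 : c * n < ⌊c * n⌋₊ + 1 := Nat.lt_floor_add_one _
    have h2 : (1 : ℝ) ≤ ⌊c * n⌋₊ := by exact_mod_cast hK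
    linarith
  have hKK : K0 ≤ ⌊c * n⌋₊ := by
    have h1 := hn6 n (by omega)
    exact_mod_cast h1.trans hKn
  have hKK1 : K1 ≤ ⌊c * n⌋₊ := by
    have h1 := hn7 n (by omega)
    exact_mod_cast h1.trans hKn
  have hsub : (univ.filter fun φ : Fin (Δ * n) → Cl n =>
      ¬ (¬ Sat φ ∧ Hard {l | ∃ j, l = clist (φ j)} (n : ℝ) e (δ' / 2))) ⊆
      (univ.filter fun φ : Fin (Δ * n) → Cl n =>
      ¬ (¬ Sat φ ∧ PE n ⌊c * n⌋₊ {l | ∃ j, l = clist (φ j)})) := by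
    intro φ hφ
    rw [mem_filter] at hφ ⊢
    refine ⟨hφ.1, fun hcon => hφ.2 ⟨hcon.1, ?_⟩⟩
    have hH := hK0 n ⌊c * n⌋₊ {l | ∃ j, l = clist (φ j)} hKK hcon.2 (by
      rintro l ⟨j, rfl⟩
      have h3 := hK1 ⌊c * n⌋₊ hKK1
      simpa [clist] using h3)
    exact hard_mono hH (hn2 n (by omega) _ hKn) (hn3 n (by omega) _ hKn) (hn4 n (by omega) _ hKn)
  exact_mod_cast card_le_card hsub

end Pool.Agent.H55.QT
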