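import Mathlib
import Pool.Agent.H55.QT.Rnd
import Pool.Agent.H6.QR.Gen2

set_option autoImplicit false
set_option linter.unusedSectionVars false

/-!
# THEOREM QL, strong form, for random 3-CNFs

`hard2_mono`: monotonicity of `Hard2` in the numbers. `rnd2`: almost all 3-CNFs with `Δ n` clauses
(`Δ ≥ 6`) are unsatisfiable and hard with `K = n`.
-/

namespace Pool.Agent.H55.QT

open Finset Classical Pool.H6.QL Pool.Agent.H3.Frg Pool.Agent.H3.Frg2 Pool.Agent.H3.Frg4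
  Pool.Agent.H81.QG

theorem hard2_mono {V : Type} {Γ : Set (List (V × Bool))} {K N e' δ' e δ : ℝ}
    (h : Hard2 Γ K e' δ') (h1 : N ^ δ ≤ K ^ δ') (h2 : N ^ (2 - e) ≤ K ^ (2 - e')) :
    Hard2 Γ N e δ := by
  intro Sch hSch
  have hS : ∀ ψ ∈ Sch, (ψ.len : ℝ) ≤ K ^ δ' ∧ ∀ x : ℕ → Bool, ψ.eval x = true :=
    fun ψ hψ => ⟨(hSch ψ hψ).1.trans h1, (hSch ψ hψ).2⟩
  obtain ⟨a1, a2, a3, a4, a5⟩ := h Sch hS
  refine ⟨?_, ?_, ?_, ?_, ?_⟩
  · intro S T M hM hA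
    exact h2.trans (a1 S T M hM hA)
  · intro L pf hpf hij
    exact h2.trans (a2 L pf hpf hij)
  · intro A l hA hl L pf hpf hi
    exact h2.trans (a3 A l hA hl L pf hpf hi)
  · intro s N1 N2 A hN1 hN2
    exact h2.trans (a4 s N1 N2 A hN1 hN2)
  · intro s hh A hA hnA
    exact h2.trans (a5 s hh A hA hnA)

theorem rnd2 {Δ : ℕ} (hΔ : 6 ≤ Δ) {e : ℝ} (he : 0 < e) : ∃ δ : ℝ, 0 < δ ∧ ∃ n0 : ℕ, ∀ n : ℕ, n0 ≤ n →
    ((univ.filter fun φ : Fin (Δ * n) → Cl n =>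
      ¬ (¬ Sat φ ∧ Hard2 {l | ∃ j, l = clist (φ j)} (n : ℝ) e δ)).card : ℝ) ≤
      e * Fintype.card (Fin (Δ * n) → Cl n) := by
  obtain ⟨e', he'⟩ : ∃ e', e' = min (e / 2) (1 / 2) := ⟨_, rfl⟩
  have he0 : 0 < e' := by
    rw [he']
    exact lt_min (by linarith) (by norm_num)
  have he1 : e' ≤ 1 / 2 := by
    rw [he']
    exact min_le_right _ _
  have he2 : e' < e := by
    have : e' ≤ e / 2 := by
      rw [he']
      exact min_le_left _ _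
    linarith
  obtain ⟨δ', hδ', K0, hK0⟩ := Pool.H6.QR.hard2 e' he0
  obtain ⟨c, hc, n1, hn1⟩ := rand3 hΔ he
  obtain ⟨n2, hn2⟩ := pow_cmp (c := c / 2) (a := δ' / 2) (b := δ') (by positivity) hδ' (by linarith)
  obtain ⟨n3, hn3⟩ := pow_cmp (c := c / 2) (a := 2 - e) (b := 2 - e') (by positivity)
    (by linarith) (by linarith)
  obtain ⟨n5, hn5⟩ := pow_cmp (c := c / 2) (a := 0) (b := δ') (by positivity) hδ' hδ'
  have ht : Filter.Tendsto (fun n : ℕ => c / 2 * (n : ℝ)) Filter.atTop Filter.atTop :=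
    tendsto_natCast_atTop_atTop.const_mul_atTop (by positivity)
  obtain ⟨n6, hn6⟩ := Filter.eventually_atTop.1 (ht.eventually_ge_atTop (K0 : ℝ))
  have ht2 : Filter.Tendsto (fun K : ℕ => (K : ℝ) ^ δ') Filter.atTop Filter.atTop :=
    (tendsto_rpow_atTop hδ').comp tendsto_natCast_atTop_atTop
  obtain ⟨K1, hK1⟩ := Filter.eventually_atTop.1 (ht2.eventually_ge_atTop (3 : ℝ))
  obtain ⟨n7, hn7⟩ := Filter.eventually_atTop.1 (ht.eventually_ge_atTop (K1 : ℝ))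
  refine ⟨δ' / 2, by linarith, n1 + n2 + n3 + n5 + n6 + n7, ?_⟩
  intro n hn
  obtain ⟨hK, hcard⟩ := hn1 n (by omega)
  refine le_trans ?_ hcard
  have hKn : c / 2 * n ≤ (⌊c * n⌋₊ : ℝ) := by
    have h1 : c * n < ⌊c * n⌋₊ + 1 := Nat.lt_floor_add_one _
    have h2 : (1 : ℝ) ≤ ⌊c * n⌋₊ := by exact_mod_cast hK
    linarith
  have hKK : K0 ≤ ⌊c * n⌋₊ := by
    have h1 := hn6 n (by omega)
    exact_mod_cast h1.trans hKn
  have hKK1 : K1 ≤ ⌊c * n⌋₊ := by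
    have h1 := hn7 n (by omega)
    exact_mod_cast h1.trans hKn
  have hsub : (univ.filter fun φ : Fin (Δ * n) → Cl n =>
      ¬ (¬ Sat φ ∧ Hard2 {l | ∃ j, l = clist (φ j)} (n : ℝ) e (δ' / 2))) ⊆
      (univ.filter fun φ : Fin (Δ * n) → Cl n =>
      ¬ (¬ Sat φ ∧ PE n ⌊c * n⌋₊ {l | ∃ j, l = clist (φ j)})) := by
    intro φ hφ
    rw [mem_filter] at hφ ⊢
    refine ⟨hφ.1, fun hcon => hφ.2 ⟨hcon.1, ?_⟩⟩
    have hH := hK0 n ⌊c * n⌋₊ {l | ∃ j, l = clist (φ j)} hKK hcon.2 (by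
      rintro l ⟨j, rfl⟩
      have h3 := hK1 ⌊c * n⌋₊ hKK1
      simpa [clist] using h3)
    exact hard2_mono hH (hn2 n (by omega) _ hKn) (hn3 n (by omega) _ hKn)
  exact_mod_cast card_le_card hsub

end Pool.Agent.H55.QT
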