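import Mathlib
import Pool.Agent.H55.AG.UbTD
import Pool.Agent.H55.AG.Defs
import Pool.Agent.H55.QT.Xt

set_option autoImplicit false
set_option linter.unusedSectionVars false

/-!
# Module TAN: a well linked set defines a functional of XOR type (edge tangle)

`bdm G ν U`: the set of the names of the edges that leave `U` (`mem_bdm`: for an edge `s(x, y)`: `ν s(x, y) ∈ bdm G ν U` iff
exactly one of `x`, `y` is in `U`). `U` is small if `8 * (W ∩ U).card < W.card`. `qE S = ∏ v ∈ U, sg (c v)` if `S = bdm G ν U` for a small `U`.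

* `bdm_symm`: extensionality; elements of both sides are names of edges (`bdm_elem` in `UbTD` is private: copy), `mem_bdm`, `Finset.mem_symmDiff`, tauto.
* `bdm_inj`: `x ∈ U ↔ x ∈ U'` is invariant along edges (`mem_bdm` for both), so by connectedness it has the same truth value for all `x`
  (`hG.preconnected`, induction on walks). So `U' = U` or `U' = Uᶜ`.
* `qE_eq`: if `U` is small then the `U'` chosen in the definition for `S = bdm G ν U` is `U`: otherwise `U' = Uᶜ` and
  `8 * W.card = 8 * (W ∩ U).card + 8 * (W ∩ Uᶜ).card < 2 * W.card`.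
* `qE_xt`: `one`: `bdm G ν ∅ = ∅`, `∅` is small because `W` is not empty. `val`: by cases, a product of `sg`s is `1` or `-1`. `mul`: `S = bdm G ν U`,
  `U` small. First: if also `T = bdm G ν U'`, `U'` small, then for `X = symmDiff U U'`: `bdm G ν X = symmDiff S T`,
  `(cutG G X).card = (bdm G ν X).card ≤ D` (`ν` is injective on the edges, and the pairs of `cutG G X` are determined by
  their edges), `8 * D < W.card`, so by `hW` not both `W.card ≤ 8 * (W ∩ X).card` and `W.card ≤ 8 * (W \ X).card`; but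
  `8 * (W ∩ X).card ≤ 8 * (W ∩ U).card + 8 * (W ∩ U').card < 2 * W.card`, so `8 * (W \ X).card > 6 * W.card ≥ W.card` and `X` is small. By `qE_eq`
  `E (symmDiff S T) = ∏ v ∈ X, sg (c v) = E S * E T` (`sg ^ 2 = 1`). Second: if `T` is not of this form then `E T = 0` and `E (symmDiff S T) = 0`: otherwise
  `symmDiff S T = bdm G ν U''`, `U''` small, and the first case for `S` and `symmDiff S T` shows that `T` is of this form.
* `qE_star`: `{v}` is small because `8 * 1 < W.card`.
-/

namespace Pool.Agent.H55.QT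

open Finset Classical Pool.Agent.H3.Frg Pool.Agent.H55.AG

variable {V : Type} [Fintype V]

/-- the functional of XOR type of the well linked set `W` -/
noncomputable def qE (G : SimpleGraph V) (ν : Sym2 V → ℕ) (c : V → Bool) (W : Finset V)
    (S : Finset ℕ) : ℝ :=
  if h : ∃ U : Finset V, bdm G ν U = S ∧ 8 * (W ∩ U).card < W.card then ∏ v ∈ h.choose, sg (c v)
  else 0

private theorem belem {G : SimpleGraph V} {ν : Sym2 V → ℕ} {F : Finset V} {e : ℕ}
    (h : e ∈ bdm G ν F) : ∃ x y, G.Adj x y ∧ e = ν s(x, y) := by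
  unfold bdm at h
  obtain ⟨p, hp, he⟩ := Finset.mem_image.1 h
  exact ⟨p.1, p.2, (Finset.mem_filter.1 hp).2.1, he.symm⟩

theorem bdm_symm {G : SimpleGraph V} {ν : Sym2 V → ℕ} (hν : Set.InjOn ν G.edgeSet)
    (U U' : Finset V) : bdm G ν (symmDiff U U') = symmDiff (bdm G ν U) (bdm G ν U') := by
  ext e
  by_cases hE : ∃ x y, G.Adj x y ∧ e = ν s(x, y)
  · obtain ⟨x, y, hxy, rfl⟩ := hE
    rw [Finset.mem_symmDiff, mem_bdm hν hxy, mem_bdm hν hxy, mem_bdm hν hxy, Finset.mem_symmDiff,
      Finset.mem_symmDiff]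
    tauto
  · constructor
    · intro h
      exact absurd (belem h) hE
    · intro h
      rcases Finset.mem_symmDiff.1 h with ⟨h1, _⟩ | ⟨h1, _⟩
      · exact absurd (belem h1) hE
      · exact absurd (belem h1) hE

theorem bdm_inj {G : SimpleGraph V} (hG : G.Connected) {ν : Sym2 V → ℕ}
    (hν : Set.InjOn ν G.edgeSet) {U U' : Finset V} (h : bdm G ν U = bdm G ν U') :
    U' = U ∨ U' = Uᶜ := by
  have hst : ∀ x y, G.Adj x y → ((x ∈ U ↔ x ∈ U') ↔ (y ∈ U ↔ y ∈ U')) := by
    intro x y hxy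
    have h1 := mem_bdm hν hxy (F := U)
    have h2 := mem_bdm hν hxy (F := U')
    rw [h] at h1
    tauto
  have hwk : ∀ x y, G.Walk x y → ((x ∈ U ↔ x ∈ U') ↔ (y ∈ U ↔ y ∈ U')) := by
    intro x y p
    induction p with
    | nil => exact Iff.rfl
    | cons hadj _ ih => exact (hst _ _ hadj).trans ih
  have hall : ∀ x y, ((x ∈ U ↔ x ∈ U') ↔ (y ∈ U ↔ y ∈ U')) := by
    intro x y
    obtain ⟨p⟩ := hG.preconnected x y
    exact hwk x y p
  obtain ⟨v0⟩ := hG.nonempty
  by_cases h0 : (v0 ∈ U ↔ v0 ∈ U')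
  · left
    ext x
    exact ((hall v0 x).1 h0).symm
  · right
    ext x
    rw [Finset.mem_compl]
    have h1 : ¬ (x ∈ U ↔ x ∈ U') := fun h2 => h0 ((hall v0 x).2 h2)
    tauto

private theorem card_two (W U : Finset V) : (W ∩ U).card + (W ∩ Uᶜ).card = W.card := by
  rw [← Finset.card_union_of_disjoint]
  · rw [← Finset.inter_union_distrib_left, Finset.union_compl, Finset.inter_univ]
  · rw [Finset.disjoint_left]
    intro x hx hx'
    exact (Finset.mem_compl.1 (Finset.mem_inter.1 hx').2) (Finset.mem_inter.1 hx).2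

theorem qE_eq {G : SimpleGraph V} (hG : G.Connected) {ν : Sym2 V → ℕ}
    (hν : Set.InjOn ν G.edgeSet) (c : V → Bool) {W U : Finset V}
    (hU : 8 * (W ∩ U).card < W.card) : qE G ν c W (bdm G ν U) = ∏ v ∈ U, sg (c v) := by
  have h : ∃ U' : Finset V, bdm G ν U' = bdm G ν U ∧ 8 * (W ∩ U').card < W.card := ⟨U, rfl, hU⟩
  unfold qE
  rw [dif_pos h]
  obtain ⟨h1, h2⟩ := h.choose_spec
  rcases bdm_inj hG hν h1.symm with h3 | h3
  · rw [h3]
  · exfalso
    rw [h3] at h2
    have h4 := card_two W U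
    omega

private theorem prod_sg (c : V → Bool) (U : Finset V) :
    ∏ v ∈ U, sg (c v) = (1 : ℝ) ∨ ∏ v ∈ U, sg (c v) = (-1 : ℝ) := by
  induction U using Finset.induction_on with
  | empty => left; rfl
  | insert a s ha ih =>
    rw [Finset.prod_insert ha]
    cases hc : c a <;> rcases ih with h | h <;> rw [h] <;> simp [sg]

private theorem sg_sq (b : Bool) : sg b * sg b = 1 := by
  cases b <;> simp [sg]

private theorem prod_symm (c : V → Bool) (U U' : Finset V) :
    ∏ v ∈ symmDiff U U', sg (c v) = (∏ v ∈ U, sg (c v)) * ∏ v ∈ U', sg (c v) := by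
  have key : ∀ X : Finset V, ∏ v ∈ X, sg (c v) = ∏ v : V, if v ∈ X then sg (c v) else 1 := by
    intro X
    rw [Finset.prod_ite_mem, Finset.univ_inter]
  rw [key, key U, key U', ← Finset.prod_mul_distrib]
  refine Finset.prod_congr rfl fun v _ => ?_
  by_cases h1 : v ∈ U
  · by_cases h2 : v ∈ U'
    · rw [if_neg (fun h => by rw [Finset.mem_symmDiff] at h; tauto), if_pos h1, if_pos h2, sg_sq]
    · rw [if_pos (Finset.mem_symmDiff.2 (Or.inl ⟨h1, h2⟩)), if_pos h1, if_neg h2, mul_one]
  · by_cases h2 : v ∈ U'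
    · rw [if_pos (Finset.mem_symmDiff.2 (Or.inr ⟨h2, h1⟩)), if_neg h1, if_pos h2, one_mul]
    · rw [if_neg (fun h => by rw [Finset.mem_symmDiff] at h; tauto), if_neg h1, if_neg h2, one_mul]

private theorem card_cut {G : SimpleGraph V} {ν : Sym2 V → ℕ} (hν : Set.InjOn ν G.edgeSet)
    (X : Finset V) : (cutG G X).card = (bdm G ν X).card := by
  unfold bdm
  rw [Finset.card_image_of_injOn]
  intro p hp q hq he
  have hp' : G.Adj p.1 p.2 ∧ p.1 ∈ X ∧ p.2 ∉ X := (Finset.mem_filter.1 hp).2
  have hq' : G.Adj q.1 q.2 ∧ q.1 ∈ X ∧ q.2 ∉ X := (Finset.mem_filter.1 hq).2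
  have h1 : s(p.1, p.2) = s(q.1, q.2) := hν (G.mem_edgeSet.2 hp'.1) (G.mem_edgeSet.2 hq'.1) he
  rcases Sym2.eq_iff.1 h1 with ⟨h2, h3⟩ | ⟨h2, h3⟩
  · exact Prod.ext h2 h3
  · exfalso
    rw [h2] at hp'
    exact hq'.2.2 hp'.2.1

private theorem sm_symm {G : SimpleGraph V} {ν : Sym2 V → ℕ} (hν : Set.InjOn ν G.edgeSet)
    {W : Finset V} {D : ℕ} (hW : WL G W) (hD : 8 * D < W.card) {U U' : Finset V}
    (hU : 8 * (W ∩ U).card < W.card) (hU' : 8 * (W ∩ U').card < W.card)
    (hc : (bdm G ν (symmDiff U U')).card ≤ D) : 8 * (W ∩ symmDiff U U').card < W.card := by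
  by_contra hcon
  push Not at hcon
  have h1 : (W ∩ symmDiff U U').card ≤ (W ∩ U).card + (W ∩ U').card := by
    refine (Finset.card_le_card ?_).trans (Finset.card_union_le _ _)
    intro x hx
    rw [Finset.mem_inter, Finset.mem_symmDiff] at hx
    rw [Finset.mem_union, Finset.mem_inter, Finset.mem_inter]
    tauto
  have h2 : (W ∩ symmDiff U U').card + (W \ symmDiff U U').card = W.card :=
    Finset.card_inter_add_card_sdiff _ _
  have h3 := hW (symmDiff U U') hcon (by omega)
  rw [card_cut hν] at h3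
  omega

private theorem first {G : SimpleGraph V} (hG : G.Connected) {ν : Sym2 V → ℕ}
    (hν : Set.InjOn ν G.edgeSet) (c : V → Bool) {W : Finset V} {D : ℕ} (hW : WL G W)
    (hD : 8 * D < W.card) {U U' : Finset V}
    (hU : 8 * (W ∩ U).card < W.card) (hU' : 8 * (W ∩ U').card < W.card)
    (hc : (symmDiff (bdm G ν U) (bdm G ν U')).card ≤ D) :
    qE G ν c W (symmDiff (bdm G ν U) (bdm G ν U')) =
      qE G ν c W (bdm G ν U) * qE G ν c W (bdm G ν U') := by
  rw [← bdm_symm hν] at hc ⊢
  rw [qE_eq hG hν c (sm_symm hν hW hD hU hU' hc), qE_eq hG hν c hU, qE_eq hG hν c hU', prod_symm]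

private theorem bdm_emp {G : SimpleGraph V} {ν : Sym2 V → ℕ} : bdm G ν (∅ : Finset V) = ∅ := by
  rw [Finset.eq_empty_iff_forall_notMem]
  intro e he
  unfold bdm at he
  obtain ⟨p, hp, _⟩ := Finset.mem_image.1 he
  exact absurd (Finset.mem_filter.1 hp).2.2.1 (Finset.notMem_empty _)

theorem qE_xt {G : SimpleGraph V} (hG : G.Connected) {ν : Sym2 V → ℕ}
    (hν : Set.InjOn ν G.edgeSet) (c : V → Bool) {W : Finset V} {D : ℕ} (hW : WL G W)
    (hD : 8 * D < W.card) : XT D (qE G ν c W) := by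
  have hex : ∀ S : Finset ℕ, qE G ν c W S ≠ 0 →
      ∃ U : Finset V, bdm G ν U = S ∧ 8 * (W ∩ U).card < W.card := by
    intro S hS
    by_contra hcon
    refine hS ?_
    unfold qE
    rw [dif_neg hcon]
  refine ⟨?_, ?_, ?_⟩
  · have h1 : 8 * (W ∩ (∅ : Finset V)).card < W.card := by
      rw [Finset.inter_empty, Finset.card_empty]
      omega
    have h2 := qE_eq hG hν c h1
    rwa [bdm_emp, Finset.prod_empty] at h2
  · intro S
    by_cases h : qE G ν c W S = 0
    · exact Or.inl h
    · obtain ⟨U, rfl, hU⟩ := hex S h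
      rw [qE_eq hG hν c hU]
      exact Or.inr (prod_sg c U)
  · intro S T _ hT hST hE
    obtain ⟨U, rfl, hU⟩ := hex S hE
    by_cases h : qE G ν c W T = 0
    · rw [h, mul_zero]
      by_contra hcon
      obtain ⟨U', hU'1, hU'⟩ := hex _ hcon
      have h1 : T = symmDiff (bdm G ν U) (bdm G ν U') := by
        rw [hU'1, symmDiff_symmDiff_cancel_left]
      have h2 : (symmDiff (bdm G ν U) (bdm G ν U')).card ≤ D := by
        rw [← h1]
        exact hT
      have h3 := first hG hν c hW hD hU hU' h2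
      rw [← h1, h] at h3
      rcases mul_eq_zero.1 h3.symm with h4 | h4
      · exact hE h4
      · rw [hU'1] at h4
        exact hcon h4
    · obtain ⟨U', rfl, hU'⟩ := hex T h
      exact first hG hν c hW hD hU hU' hST

theorem qE_star {G : SimpleGraph V} (hG : G.Connected) {ν : Sym2 V → ℕ}
    (hν : Set.InjOn ν G.edgeSet) (c : V → Bool) {W : Finset V} (hW : 8 < W.card) (v : V) :
    qE G ν c W (bdm G ν {v}) = sg (c v) := by
  have h1 : (W ∩ ({v} : Finset V)).card ≤ 1 := by
    refine (Finset.card_le_card Finset.inter_subset_right).trans ?_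
    rw [Finset.card_singleton]
  rw [qE_eq hG hν c (by omega), Finset.prod_singleton]

end Pool.Agent.H55.QT
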