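import Mathlib
import Pool.Agent.H55.QT.Tan
import Pool.Agent.H55.QT.Xg
import Pool.Agent.H55.AG.WLex

set_option autoImplicit false
set_option linter.unusedSectionVars false

/-!
# Module TSP: the Tseitin formula of a graph of large treewidth has a pseudo-expectation of large degree

`TsC G ν c`: the clauses of the Tseitin formula as lists of literals over `Fin n`, `ν` gives the names of the edges: for every vertex `v` all lists without
repetitions whose variables are exactly the edges at `v` and whose falsifying assignment (literal `(i, b)` is false iff the value of `i` is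
`! b`) violates the equation of `v` (the number of true edges at `v` is odd iff `c v = true`).

PROOF. `m0 := 16 * K + 9`, `wl_exists` gives `W`, `W.card = 16 * K + 9`, `WL G W`. `ν' g := (ν g : ℕ)` is injective on the edges. `qE_xt` for `D = 2 * K` and `ν'`, `xg_of_xt`,
`XG.pe`. For `l ∈ TsC`: `(vs l).map Fin.valEmbedding = bdm G ν' {v}` (`mem_bdm`: the edges at `v`), `qE_star`: the value is `Pool.Agent.H3.Frg.sg (c v)`
(`-1` if `c v = true`). `- sf l = Pool.Agent.H3.Frg.sg (c v)`: with `x i = true` the value of the variable `i` is `1` in the convention of `H6/QL` and `-1` in the one of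
`H3/Frg`! `sf l = ∏ (- sg b)` = product over the edges at `v` of (`1` if the falsifying value `! b` is true, `-1` if it is false). NOTE: so the monomial of
`E` in the `H6` convention is `(-1) ^ |S|` times the one in the `H3` convention: use `E' S := (-1) ^ S.card * qE .. S` instead of `qE`: it is also of XOR type
(`card (S Δ T) ≡ card S + card T` modulo 2); `E' (vs l) = (-1) ^ deg v * H3.sg (c v)` and `sf l = (-1) ^ #{false edges} = (-1) ^ (deg v) * (-1) ^ #{true edges}`, and
`(-1) ^ #{true edges} = - H3.sg (c v)` because the falsifying assignment violates the equation. The lemma `xg_sign` is this remark.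
-/

namespace Pool.Agent.H55.QT

open Finset Classical Pool.H6.QL Pool.Agent.H55.AG

variable {V : Type} [Fintype V]

/-- the clauses of the Tseitin formula -/
def TsC {n : ℕ} (G : SimpleGraph V) (ν : Sym2 V → Fin n) (c : V → Bool) :
    Set (List (Fin n × Bool)) :=
  {l | (l.map Prod.fst).Nodup ∧ ∃ v, (∀ i, i ∈ l.map Prod.fst ↔ ∃ u, G.Adj v u ∧ i = ν s(v, u)) ∧
    ¬ (Odd (l.filter fun q => q.2 = false).length ↔ c v = true)}

private theorem sd_parity {U : Type} [DecidableEq U] (S T : Finset U) :
    (symmDiff S T).card + 2 * (S ∩ T).card = S.card + T.card := by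
  have h1 : (symmDiff S T).card = (S \ T).card + (T \ S).card := by
    rw [symmDiff_def, Finset.sup_eq_union, Finset.card_union_of_disjoint]
    rw [Finset.disjoint_left]
    intro x hx hx'
    rw [Finset.mem_sdiff] at hx hx'
    exact hx'.2 hx.1
  have h2 := Finset.card_sdiff_add_card_inter S T
  have h3 := Finset.card_sdiff_add_card_inter T S
  rw [Finset.inter_comm T S] at h3
  omega

private theorem xg_sign' {U : Type} {D : ℕ} {E : Finset U → ℝ} (h : XG D E) :
    XG D (fun S => (-1) ^ S.card * E S) := by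
  refine ⟨?_, ?_, ?_⟩
  · change (-1 : ℝ) ^ (∅ : Finset U).card * E ∅ = 1
    rw [Finset.card_empty, pow_zero, one_mul, h.one]
  · intro S
    change (-1 : ℝ) ^ S.card * E S = 0 ∨ (-1 : ℝ) ^ S.card * E S = 1 ∨ (-1 : ℝ) ^ S.card * E S = -1
    rcases neg_one_pow_eq_or ℝ S.card with h1 | h1 <;> rcases h.val S with h2 | h2 | h2 <;>
      rw [h1, h2] <;> norm_num
  · intro S T hS hT hST hE
    change (-1 : ℝ) ^ (symmDiff S T).card * E (symmDiff S T) =
      ((-1 : ℝ) ^ S.card * E S) * ((-1 : ℝ) ^ T.card * E T)
    have hE' : E S ≠ 0 := by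
      intro h0
      apply hE
      change (-1 : ℝ) ^ S.card * E S = 0
      rw [h0, mul_zero]
    rw [h.mul S T hS hT hST hE']
    have h1 : (-1 : ℝ) ^ (symmDiff S T).card = (-1 : ℝ) ^ S.card * (-1 : ℝ) ^ T.card := by
      rw [← pow_add, ← sd_parity S T, pow_add, pow_mul, neg_one_sq, one_pow, mul_one]
    rw [h1]
    ring

theorem xg_sign {n D : ℕ} {E : Finset (Fin n) → ℝ} (h : XG D E) :
    XG D (fun S => (-1) ^ S.card * E S) :=
  xg_sign' h

private theorem mem_vs {U : Type} (c : List (U × Bool)) (i : U) : i ∈ vs c ↔ i ∈ c.map Prod.fst := by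
  unfold vs
  rw [List.mem_toFinset]

private theorem card_vs {U : Type} {c : List (U × Bool)} (h : (c.map Prod.fst).Nodup) :
    (vs c).card = c.length := by
  unfold vs
  rw [List.toFinset_card_of_nodup h, List.length_map]

private theorem sf_eq {n : ℕ} (l : List (Fin n × Bool)) :
    sf l = (-1) ^ l.length * (-1) ^ (l.filter fun q => q.2 = false).length := by
  induction l with
  | nil => simp [sf]
  | cons q l ih =>
    have h1 : sf (q :: l) = -Pool.H6.QL.sg q.2 * sf l := by
      unfold sf
      rw [List.map_cons, List.prod_cons]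
    rw [h1, ih]
    obtain ⟨i, b⟩ := q
    cases b
    · rw [List.filter_cons_of_pos (by simp), List.length_cons, List.length_cons, pow_succ, pow_succ]
      simp [Pool.H6.QL.sg]
    · rw [List.filter_cons_of_neg (by simp), List.length_cons, pow_succ]
      simp [Pool.H6.QL.sg]

theorem pe_ts {Δ K n : ℕ} {G : SimpleGraph V} (hG : G.Connected) (hdeg : ∀ v, (nbG G v).card ≤ Δ)
    (hw : ¬ TwLE G (4 * (Δ * (16 * K + 10)) + 1)) {ν : Sym2 V → Fin n}
    (hν : Set.InjOn ν G.edgeSet) (c : V → Bool) : PE n K (TsC G ν c) := by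
  obtain ⟨W, hWc, hW⟩ := wl_exists (m0 := 16 * K + 9) (by omega) hdeg hw
  have hν' : Set.InjOn (fun g => (ν g : ℕ)) G.edgeSet := by
    intro a ha b hb hab
    exact hν ha hb (Fin.ext hab)
  have h1 := qE_xt hG hν' c (D := 2 * K) hW (by omega)
  have h2 := xg_sign (xg_of_xt (n := n) h1)
  refine h2.pe le_rfl ?_
  rintro l ⟨hnd, v, hv, hpar⟩
  refine ⟨hnd, ?_⟩
  change (-1 : ℝ) ^ (vs l).card * qE G (fun g => (ν g : ℕ)) c W ((vs l).map Fin.valEmbedding) = -sf l
  have h3 : (vs l).map Fin.valEmbedding = bdm G (fun g => (ν g : ℕ)) {v} := by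
    ext e
    rw [Finset.mem_map]
    unfold bdm
    rw [Finset.mem_image]
    constructor
    · rintro ⟨i, hi, rfl⟩
      rw [mem_vs, hv] at hi
      obtain ⟨u, hu, rfl⟩ := hi
      refine ⟨(v, u), ?_, rfl⟩
      unfold cutG
      rw [Finset.mem_filter]
      refine ⟨Finset.mem_univ _, hu, Finset.mem_singleton_self _, ?_⟩
      rw [Finset.mem_singleton]
      exact hu.ne'
    · rintro ⟨p, hp, rfl⟩
      unfold cutG at hp
      rw [Finset.mem_filter, Finset.mem_singleton] at hp
      obtain ⟨-, h4, h5, -⟩ := hp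
      refine ⟨ν s(p.1, p.2), ?_, rfl⟩
      rw [mem_vs, hv]
      refine ⟨p.2, ?_, ?_⟩
      · rw [← h5]
        exact h4
      · rw [← h5]
  have h6 : (vs l).card = l.length := card_vs hnd
  rw [h3, qE_star hG hν' c (by omega) v, h6, sf_eq]
  rw [← mul_neg]
  congr 1
  cases hc : c v
  · rw [hc] at hpar
    have h7 : Odd (l.filter fun q => q.2 = false).length := by
      by_contra h8
      exact hpar ⟨fun h9 => absurd h9 h8, fun h9 => absurd h9 Bool.false_ne_true⟩
    rw [h7.neg_one_pow, neg_neg]
    rfl
  · rw [hc] at hpar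
    have h7 : ¬ Odd (l.filter fun q => q.2 = false).length := fun h8 =>
      hpar ⟨fun _ => rfl, fun _ => h8⟩
    rw [Nat.not_odd_iff_even] at h7
    rw [h7.neg_one_pow]
    rfl

end Pool.Agent.H55.QT
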