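import Mathlib
import Pool.Agent.H90.UB.Xo
import Pool.Agent.H55.AG.Stmt
import Pool.Agent.H55.AG.UbTD
import Pool.Agent.H55.AG.UbP
import Pool.Agent.H55.QT.TsP
import Pool.Agent.H6.QL.Evc

set_option autoImplicit false
set_option linter.unusedSectionVars false

/-!
# Sharpness of QL: the clauses of a vertex of `G` in the shape of `Cls (TsC G μ c)`, the linear system

Copies of `ubcl` and `ubpg` (`H55/AG/UbCl.lean`, `UbP.lean`) with one more conclusion.
-/

namespace Pool.Agent.H55.QT

open Finset Classical Pool.Agent.H3.Frg Pool.Agent.H3.Frg2 Pool.Agent.H3.Frg4 Pool.Agent.H90.UB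
  Pool.Agent.H55.AG

private theorem sg_xor (a c : Bool) : sg (xor a c) = sg a * sg c := by
  cases a <;> cases c <;> simp [sg]

private theorem sg_inj {a c : Bool} (h : sg a = sg c) : a = c := by
  cases a <;> cases c <;> simp_all [sg] <;> norm_num at h

private theorem sg_chain {V : Type} (v0 : V) (x : V → Bool) : ∀ l : List V,
    sg ((chain v0 l).eval x) = (l.map fun e => sg (x e)).prod := by
  intro l
  induction l with
  | nil =>
    have h : (chain v0 []).eval x = false := eval_bot v0 x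
    rw [h]; simp [sg]
  | cons e l ih =>
    simp only [Pool.Agent.H90.UB.chain, eval_xo, sg_xor, List.map_cons, List.prod_cons, ih, Fm.eval]

private theorem prod_sg {W : Type} (B : Finset W) (x : W → Bool) :
    ∏ e ∈ B, sg (x e) = (-1) ^ (B.filter fun e => x e = true).card := by
  have h1 : ∀ v ∈ B, sg (x v) = if x v = true then (-1 : ℝ) else 1 := fun v _ => rfl
  rw [Finset.prod_congr rfl h1, Finset.prod_ite, Finset.prod_const, Finset.prod_const_one,
    mul_one]

private theorem pow_sg {k : ℕ} {b : Bool} (h : Odd k ↔ b = true) : (-1 : ℝ) ^ k = sg b := by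
  cases b with
  | true => rw [(h.2 rfl).neg_one_pow]; rfl
  | false =>
    have h1 : ¬ Odd k := fun h2 => absurd (h.1 h2) (by decide)
    rw [(Nat.not_odd_iff_even.1 h1).neg_one_pow]
    rfl

private theorem subs_ren {W W' : Type} [DecidableEq W] (f : W → W') (A : Fm W) (i : W') :
    Fm.var i ∈ (A.ren f).subs → ∃ j ∈ A.vars, i = f j := by
  induction A with
  | var j =>
    intro h
    simp only [Fm.ren, Fm.subs, List.mem_singleton, Fm.var.injEq] at h
    exact ⟨j, Finset.mem_singleton_self j, h⟩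
  | neg A ih =>
    intro h
    simp only [Fm.ren, Fm.subs, List.mem_cons, reduceCtorEq, false_or] at h
    exact ih h
  | imp A B ihA ihB =>
    intro h
    simp only [Fm.ren, Fm.subs, List.mem_cons, List.mem_append, reduceCtorEq, false_or] at h
    rcases h with h | h
    · obtain ⟨j, hj, e⟩ := ihA h
      exact ⟨j, Finset.mem_union_left _ hj, e⟩
    · obtain ⟨j, hj, e⟩ := ihB h
      exact ⟨j, Finset.mem_union_right _ hj, e⟩

private theorem mem_bdm1 {V : Type} [Fintype V] {G : SimpleGraph V} {V' : Type}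
    [DecidableEq V'] {μ : Sym2 V → V'} (v : V) (e : V') :
    e ∈ bdm G μ {v} ↔ ∃ u, G.Adj v u ∧ μ s(v, u) = e := by
  unfold bdm cutG
  rw [mem_image]
  constructor
  · rintro ⟨q, hq, rfl⟩
    rw [mem_filter, mem_singleton] at hq
    obtain ⟨-, h1, h2, -⟩ := hq
    refine ⟨q.2, ?_, ?_⟩
    · rw [← h2]
      exact h1
    · rw [h2]
  · rintro ⟨u, hu, rfl⟩
    refine ⟨(v, u), ?_, rfl⟩
    rw [mem_filter, mem_singleton, mem_singleton]
    exact ⟨mem_univ _, hu, rfl, hu.ne'⟩

private theorem card_bdm1 {V : Type} [Fintype V] {G : SimpleGraph V} {V' : Type}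
    [DecidableEq V'] {μ : Sym2 V → V'} (hμ : Set.InjOn μ G.edgeSet) (v : V) (x : V' → Bool) :
    ((bdm G μ {v}).filter fun e => x e = true).card =
      (univ.filter fun u => G.Adj v u ∧ x (μ s(v, u)) = true).card := by
  have h1 : (bdm G μ {v}).filter (fun e => x e = true) =
      (univ.filter fun u => G.Adj v u ∧ x (μ s(v, u)) = true).image fun u => μ s(v, u) := by
    ext e
    rw [mem_filter, mem_image, mem_bdm1]
    constructor
    · rintro ⟨⟨u, hu, rfl⟩, hx⟩
      refine ⟨u, ?_, rfl⟩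
      rw [mem_filter]
      exact ⟨mem_univ _, hu, hx⟩
    · rintro ⟨u, hu, rfl⟩
      rw [mem_filter] at hu
      exact ⟨⟨u, hu.2.1, rfl⟩, hu.2.2⟩
  rw [h1]
  refine Finset.card_image_of_injOn ?_
  intro u hu u' hu' he
  rw [Finset.mem_coe, mem_filter] at hu hu'
  have h2 : s(v, u) = s(v, u') := hμ hu.2.1 hu'.2.1 he
  exact Sym2.congr_right.1 h2

theorem excl_clF {V : Type} (a : V → Bool) : ∀ (l : List V) (v : V),
    excl a v l = Pool.H6.QL.clF (v, !a v) (l.map fun w => (w, !a w)) := by
  have h0 : ∀ v : V, ltr v (a v) = Pool.H6.QL.litF (v, !a v) := by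
    intro v
    unfold ltr Pool.H6.QL.litF
    cases a v <;> simp
  intro l
  induction l with
  | nil => intro v; simp only [excl, List.map_nil, Pool.H6.QL.clF, h0]
  | cons w l ih =>
    intro v
    simp only [excl, List.map_cons, Pool.H6.QL.clF, h0, ih w]

private theorem len_flt {V : Type} [DecidableEq V] (U : Finset V) : ∀ l : List V, l.Nodup →
    ((l.map fun i => (i, !decide (i ∈ U))).filter fun q => q.2 = false).length =
      (l.toFinset ∩ U).card := by
  intro l
  induction l with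
  | nil => intro _; simp
  | cons w l ih =>
    intro hl
    rw [List.nodup_cons] at hl
    have h1 := ih hl.2
    rw [List.map_cons, List.filter_cons, List.toFinset_cons]
    by_cases hw : w ∈ U
    · rw [Finset.insert_inter_of_mem hw, Finset.card_insert_of_notMem, ← h1]
      · simp [hw]
      · intro h
        exact hl.1 (List.mem_toFinset.1 (Finset.mem_inter.1 h).1)
    · rw [Finset.insert_inter_of_notMem hw, ← h1]
      simp [hw]

theorem ubcl2 {V : Type} [Fintype V] {G : SimpleGraph V} {D M : ℕ}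
    (hdeg : ∀ v, (nbG G v).card ≤ D) {ν : Sym2 V → ℕ} (hν : Set.InjOn ν G.edgeSet)
    (μ : Sym2 V → Fin M) (hμ : ∀ g ∈ G.edgeSet, (μ g : ℕ) = ν g) (c : V → Bool) (v : V)
    (hv : ∃ u, G.Adj v u) (v0 : Fin M) :
    ∃ Cs : List (Fm (Fin M)), Cs ≠ [] ∧ Cs.length ≤ 2 ^ D ∧
      (∀ A ∈ Cs, A.ren Fin.val ∈ Ts D G ν c ∧ A.len ≤ 4 * D ∧ A ∈ Pool.H6.QL.Cls (TsC G μ c)) ∧
      ∀ x : Fin M → Bool, (∀ A ∈ Cs, A.eval x = true) →
        (chain v0 (bdm G μ {v}).toList).eval x = c v := by
  have hμi : Set.InjOn μ G.edgeSet := by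
    intro g hg g' hg' h
    refine hν hg hg' ?_
    rw [← hμ g hg, ← hμ g' hg', h]
  obtain ⟨B, hB⟩ : ∃ B, B = bdm G μ {v} := ⟨_, rfl⟩
  have hBD : B.card ≤ D := by
    rw [hB]
    exact bdm_single hdeg v
  have hBne : B.Nonempty := by
    obtain ⟨u, hu⟩ := hv
    refine ⟨μ s(v, u), ?_⟩
    rw [hB, mem_bdm1]
    exact ⟨u, hu, rfl⟩
  obtain ⟨w, l, hl⟩ : ∃ w l, B.toList = w :: l := by
    cases h : B.toList with
    | nil =>
      rw [Finset.toList_eq_nil] at h
      rw [h] at hBne
      exact absurd hBne Finset.not_nonempty_empty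
    | cons w l => exact ⟨w, l, rfl⟩
  have hlen : l.length + 1 = B.card := by
    rw [← Finset.length_toList, hl, List.length_cons]
  have hmem : ∀ e, e ∈ w :: l ↔ e ∈ B := by
    intro e
    rw [← hl, Finset.mem_toList]
  obtain ⟨cl, hcl⟩ : ∃ cl : Finset (Fin M) → Fm (Fin M),
      ∀ U, cl U = excl (fun i => decide (i ∈ U)) w l := ⟨_, fun _ => rfl⟩
  have hev : ∀ U ⊆ B, ∀ x : Fin M → Bool,
      (cl U).eval x ≠ true → U = B.filter fun e => x e = true := by
    intro U hU x hx
    rw [hcl, Ne, eval_excl] at hx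
    push Not at hx
    ext e
    rw [mem_filter]
    constructor
    · intro he
      refine ⟨hU he, ?_⟩
      rw [hx e ((hmem e).2 (hU he))]
      exact decide_eq_true he
    · rintro ⟨he, hxe⟩
      rw [hx e ((hmem e).2 he)] at hxe
      exact of_decide_eq_true hxe
  obtain ⟨P, hP⟩ : ∃ P : Finset (Finset (Fin M)),
      ∀ U, U ∈ P ↔ U ⊆ B ∧ ¬ (Odd U.card ↔ c v = true) := by
    refine ⟨B.powerset.filter fun U => ¬ (Odd U.card ↔ c v = true), fun U => ?_⟩
    rw [mem_filter, mem_powerset]
  have hPc : P.card ≤ 2 ^ D := by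
    have h1 : P ⊆ B.powerset := fun U hU => mem_powerset.2 ((hP U).1 hU).1
    refine (Finset.card_le_card h1).trans ?_
    rw [Finset.card_powerset]
    exact Nat.pow_le_pow_right (by norm_num) hBD
  have hPne : P.Nonempty := by
    by_cases hc : c v = true
    · refine ⟨∅, (hP _).2 ⟨Finset.empty_subset _, fun h => ?_⟩⟩
      have h1 := h.2 hc
      rw [Finset.card_empty] at h1
      exact absurd h1 (by decide)
    · refine ⟨{w}, (hP _).2 ⟨?_, fun h => ?_⟩⟩
      · rw [Finset.singleton_subset_iff, ← hmem]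
        exact List.mem_cons_self
      · have h1 : Odd ({w} : Finset (Fin M)).card := by
          rw [Finset.card_singleton]
          exact odd_one
        exact hc (h.1 h1)
  refine ⟨P.toList.map cl, ?_, ?_, ?_, ?_⟩
  · intro h
    rw [List.map_eq_nil_iff, Finset.toList_eq_nil] at h
    rw [h] at hPne
    exact absurd hPne Finset.not_nonempty_empty
  · rw [List.length_map, Finset.length_toList]
    exact hPc
  · intro A hA
    obtain ⟨U, hU, rfl⟩ := List.mem_map.1 hA
    rw [Finset.mem_toList, hP] at hU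
    refine ⟨⟨?_, v, ?_, ?_⟩, ?_, ?_⟩
    · rw [hcl]
      exact isClause_ren _ (isClause_mono (isClause_excl _ l w) (by omega))
    · intro i hi
      obtain ⟨j, hj, rfl⟩ := subs_ren Fin.val (cl U) i hi
      rw [hcl] at hj
      have h1 := vars_excl _ l w hj
      rw [List.mem_toFinset, hmem, hB, mem_bdm1] at h1
      obtain ⟨u, hu, rfl⟩ := h1
      exact ⟨u, hu, hμ _ hu⟩
    · intro x hx
      rw [eval_ren]
      by_contra hne
      have h1 := hev U hU.1 _ hne
      apply hU.2
      rw [h1, hB, card_bdm1 hμi v (fun i => x (i : ℕ)), ← hx]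
      have h2 : (univ.filter fun u => G.Adj v u ∧ x ((μ s(v, u) : Fin M) : ℕ) = true) =
          univ.filter fun u => G.Adj v u ∧ x (ν s(v, u)) = true := by
        ext u
        rw [mem_filter, mem_filter]
        constructor
        · rintro ⟨h3, h4, h5⟩
          rw [hμ _ h4] at h5
          exact ⟨h3, h4, h5⟩
        · rintro ⟨h3, h4, h5⟩
          rw [← hμ _ h4] at h5
          exact ⟨h3, h4, h5⟩
      rw [h2]
    · rw [hcl]
      refine (len_excl _ l w).trans ?_
      omega
    · refine ⟨(w, !decide (w ∈ U)), l.map (fun i => (i, !decide (i ∈ U))), ?_, ?_⟩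
      · have hL : ((w, !decide (w ∈ U)) :: l.map (fun i => (i, !decide (i ∈ U)))) =
            (w :: l).map (fun i => (i, !decide (i ∈ U))) := rfl
        have hfst : ((w :: l).map (fun i => (i, !decide (i ∈ U)))).map Prod.fst = w :: l := by
          rw [List.map_map]
          exact List.map_id _
        have hnd : (w :: l).Nodup := by
          rw [← hl]
          exact Finset.nodup_toList B
        rw [hL]
        refine ⟨?_, v, ?_, ?_⟩
        · rw [hfst]
          exact hnd
        · intro i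
          rw [hfst, hmem, hB, mem_bdm1]
          constructor
          · rintro ⟨u, hu, rfl⟩
            exact ⟨u, hu, rfl⟩
          · rintro ⟨u, hu, rfl⟩
            exact ⟨u, hu, rfl⟩
        · have h1 : (w :: l).toFinset ∩ U = U := by
            rw [Finset.inter_eq_right]
            intro i hi
            rw [List.mem_toFinset, hmem]
            exact hU.1 hi
          rw [len_flt U (w :: l) hnd, h1]
          exact hU.2
      · rw [hcl]
        exact excl_clF _ l w
  · intro x hx
    have h1 : Odd (B.filter fun e => x e = true).card ↔ c v = true := by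
      by_contra hcon
      have h2 := hx (cl (B.filter fun e => x e = true)) (List.mem_map.2 ⟨_, Finset.mem_toList.2
        ((hP _).2 ⟨Finset.filter_subset _ _, hcon⟩), rfl⟩)
      rw [hcl, eval_excl] at h2
      obtain ⟨e, he, h3⟩ := h2
      apply h3
      have heB := (hmem e).1 he
      by_cases h4 : x e = true
      · rw [h4]
        symm
        exact decide_eq_true (mem_filter.2 ⟨heB, h4⟩)
      · rw [Bool.not_eq_true] at h4
        rw [h4]
        symm
        refine decide_eq_false fun h5 => ?_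
        have h6 := (mem_filter.1 h5).2
        rw [h4] at h6
        exact absurd h6 (by decide)
    apply sg_inj
    rw [sg_chain, Finset.prod_map_toList, ← hB, prod_sg]
    exact pow_sg h1

private theorem sg_CD (ch : ℕ → Bool) (h : ℕ) : ∀ v,
    sg (CD ch h v) = ∏ u ∈ Finset.range (2 ^ h), sg (ch (v + u)) := by
  induction h with
  | zero => intro v; simp [CD]
  | succ h ih =>
    intro v
    simp only [CD]
    rw [sg_xor, ih, ih, pow_succ, mul_two, Finset.prod_range_add]
    congr 1
    exact Finset.prod_congr rfl fun u _ => by rw [add_assoc]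

private def mm {V : Type} [DecidableEq V] (e : V) (A : Finset V) : Bool := decide (e ∈ A)

private theorem mm_true {V : Type} [DecidableEq V] {e : V} {A : Finset V} (h : e ∈ A) :
    mm e A = true := by
  unfold mm; exact decide_eq_true h

private theorem mm_false {V : Type} [DecidableEq V] {e : V} {A : Finset V} (h : e ∉ A) :
    mm e A = false := by
  unfold mm; exact decide_eq_false h

private theorem mm_symm {V : Type} [DecidableEq V] (e : V) (A B : Finset V) :
    mm e (symmDiff A B) = xor (mm e A) (mm e B) := by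
  by_cases h2 : e ∈ A <;> by_cases h3 : e ∈ B
  · rw [mm_true h2, mm_true h3, mm_false (by simp [Finset.mem_symmDiff, h2, h3])]; rfl
  · rw [mm_true h2, mm_false h3, mm_true (by simp [Finset.mem_symmDiff, h2, h3])]; rfl
  · rw [mm_false h2, mm_true h3, mm_true (by simp [Finset.mem_symmDiff, h2, h3])]; rfl
  · rw [mm_false h2, mm_false h3, mm_false (by simp [Finset.mem_symmDiff, h2, h3])]; rfl

private theorem sg_SD {V : Type} [DecidableEq V] (inc : ℕ → Finset V) (e : V) (h : ℕ) : ∀ v,
    sg (mm e (SD inc h v)) = ∏ u ∈ Finset.range (2 ^ h), sg (mm e (inc (v + u))) := by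
  induction h with
  | zero => intro v; rw [pow_zero, Finset.prod_range_one]; rfl
  | succ h ih =>
    intro v
    have h1 : SD inc (h + 1) v = symmDiff (SD inc h v) (SD inc h (v + 2 ^ h)) := rfl
    rw [h1, mm_symm, sg_xor, ih, ih, pow_succ, mul_two, Finset.prod_range_add]
    congr 1
    exact Finset.prod_congr rfl fun u _ => by rw [add_assoc]

/-- products over the vertices -/
private theorem prod_pad {Wv : Type} [Fintype Wv] {m : ℕ} (hm : Fintype.card Wv ≤ m)
    (w : Fin (Fintype.card Wv) ≃ Wv) (G : Wv → ℝ) (F : ℕ → ℝ)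
    (h1 : ∀ (u : ℕ) (h : u < Fintype.card Wv), F u = G (w ⟨u, h⟩))
    (h2 : ∀ u, Fintype.card Wv ≤ u → F u = 1) :
    ∏ u ∈ Finset.range m, F u = ∏ v : Wv, G v := by
  have h3 : ∏ u ∈ Finset.range m, F u = ∏ u ∈ Finset.range (Fintype.card Wv), F u := by
    symm
    refine Finset.prod_subset (Finset.range_subset_range.2 hm) fun u _ hu => ?_
    rw [Finset.mem_range, not_lt] at hu
    exact h2 u hu
  rw [h3, Finset.prod_range, ← Equiv.prod_comp w]
  exact Finset.prod_congr rfl fun u _ => h1 u u.isLt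

private theorem getD_cases {α : Type} (l : List α) (j : ℕ) (a : α) :
    l.getD j a ∈ l ∨ l.getD j a = a := by
  by_cases h : j < l.length
  · left
    rw [List.getD_eq_getElem _ _ h]
    exact List.getElem_mem h
  · right
    exact List.getD_eq_default _ _ (not_lt.1 h)

private theorem prod_one_neg {V : Type} [Fintype V] (x : V) :
    ∏ v : V, (if x = v then (-1 : ℝ) else 1) = -1 := by
  rw [Finset.prod_ite_eq, if_pos (mem_univ x)]

private theorem sg_bdm {V : Type} [Fintype V] {G : SimpleGraph V} {V' : Type} [DecidableEq V']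
    {μ : Sym2 V → V'} (hμ : Set.InjOn μ G.edgeSet) {x y : V} (h : G.Adj x y) (v : V) :
    sg (mm (μ s(x, y)) (bdm G μ {v})) =
      (if x = v then (-1 : ℝ) else 1) * (if y = v then (-1 : ℝ) else 1) := by
  have h1 := mem_bdm hμ h (F := {v})
  rw [mem_singleton, mem_singleton] at h1
  by_cases hx : x = v
  · by_cases hy : y = v
    · rw [if_pos hx, if_pos hy, mm_false fun h2 => h1.1 h2 ⟨fun _ => hy, fun _ => hx⟩]
      simp [sg]
    · rw [if_pos hx, if_neg hy, mm_true (h1.2 fun h2 => hy (h2.1 hx))]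
      simp [sg]
  · by_cases hy : y = v
    · rw [if_neg hx, if_pos hy, mm_true (h1.2 fun h2 => hx (h2.2 hy))]
      simp [sg]
    · rw [if_neg hx, if_neg hy, mm_false fun h2 => h1.1 h2 ⟨fun h3 => absurd h3 hx,
        fun h3 => absurd h3 hy⟩]
      simp [sg]

private theorem prod_bdm {V : Type} [Fintype V] {G : SimpleGraph V} {V' : Type} [DecidableEq V']
    {μ : Sym2 V → V'} (hμ : Set.InjOn μ G.edgeSet) (e : V') :
    ∏ v : V, sg (mm e (bdm G μ {v})) = 1 := by
  by_cases he : ∃ v, e ∈ bdm G μ {v}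
  · obtain ⟨v, hv⟩ := he
    unfold bdm at hv
    rw [mem_image] at hv
    obtain ⟨p, hp, rfl⟩ := hv
    unfold cutG at hp
    rw [mem_filter] at hp
    rw [Finset.prod_congr rfl fun v _ => sg_bdm hμ hp.2.1 v, Finset.prod_mul_distrib,
      prod_one_neg, prod_one_neg]
    norm_num
  · refine Finset.prod_eq_one fun v _ => ?_
    rw [mm_false fun h => he ⟨v, h⟩]
    simp [sg]

private theorem prod_charge {V : Type} [Fintype V] {c : V → Bool}
    (hc : Odd (univ.filter fun v => c v = true).card) : ∏ v : V, sg (c v) = -1 := by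
  have h1 : ∀ v ∈ (univ : Finset V), sg (c v) = if c v = true then (-1 : ℝ) else 1 :=
    fun v _ => rfl
  rw [Finset.prod_congr rfl h1, Finset.prod_ite, Finset.prod_const, Finset.prod_const_one,
    mul_one, hc.neg_one_pow]

theorem ubpg2 {V : Type} [Fintype V] (G : SimpleGraph V) {D : ℕ} (hG : G.Connected)
    (h2 : 2 ≤ Fintype.card V) (hdeg : ∀ v, (nbG G v).card ≤ D)
    {μ : Sym2 V → Fin (D * Fintype.card V)} (hμi : Set.InjOn μ G.edgeSet)
    {c : V → Bool} (hc : Odd (univ.filter fun v => c v = true).card) :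
    1 ≤ D ∧ ∃ C : ℕ → Fm ℕ,
      (∀ i, ∃ A ∈ Pool.H6.QL.Cls (TsC G μ c), C i = A.ren Fin.val) ∧
      UBP D (Fintype.card V) C := by
  have hnb : ∀ v, ∃ u, G.Adj v u := by
    intro v
    have : Nontrivial V := Fintype.one_lt_card_iff_nontrivial.1 (by omega)
    obtain ⟨u, hu⟩ := exists_ne v
    obtain ⟨q⟩ := hG.preconnected v u
    cases q with
    | nil => exact absurd rfl hu
    | cons h _ => exact ⟨_, h⟩
  obtain ⟨v1⟩ : Nonempty V := hG.nonempty
  have hD : 1 ≤ D := by
    obtain ⟨u, hu⟩ := hnb v1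
    refine le_trans ?_ (hdeg v1)
    rw [Nat.one_le_iff_ne_zero, Finset.card_ne_zero]
    exact ⟨u, by unfold nbG; rw [mem_filter]; exact ⟨mem_univ _, hu⟩⟩
  refine ⟨hD, ?_⟩
  have hM0 : 0 < D * Fintype.card V := Nat.mul_pos (by omega) (by omega)
  obtain ⟨v0, hv0⟩ : ∃ v0 : Fin (D * Fintype.card V), (v0 : ℕ) = 0 := ⟨⟨0, hM0⟩, rfl⟩
  have hν : Set.InjOn (fun g => (μ g : ℕ)) G.edgeSet := fun g hg g' hg' h =>
    hμi hg hg' (Fin.ext h)
  choose Cs hCs1 hCs2 hCs3 hCs4 using fun v => ubcl2 hdeg hν μ (fun _ _ => rfl) c v (hnb v) v0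
  obtain ⟨w⟩ : Nonempty (Fin (Fintype.card V) ≃ V) := ⟨(Fintype.equivFin V).symm⟩
  obtain ⟨A0, hA0⟩ : ∃ A0, A0 ∈ Cs v1 := List.exists_mem_of_ne_nil _ (hCs1 v1)
  obtain ⟨C', hC'1, hC'2⟩ : ∃ C' : ℕ → Fm (Fin (D * Fintype.card V)),
      (∀ i (h : i / 2 ^ D < Fintype.card V),
        C' i = (Cs (w ⟨i / 2 ^ D, h⟩)).getD (i % 2 ^ D) A0) ∧
      ∀ i, ¬ i / 2 ^ D < Fintype.card V → C' i = A0 :=
    ⟨fun i => if h : i / 2 ^ D < Fintype.card V then
      (Cs (w ⟨i / 2 ^ D, h⟩)).getD (i % 2 ^ D) A0 else A0,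
      fun i h => dif_pos h, fun i h => dif_neg h⟩
  have hC'3 : ∀ i, ∃ v, C' i ∈ Cs v := by
    intro i
    by_cases h : i / 2 ^ D < Fintype.card V
    · rw [hC'1 i h]
      rcases getD_cases (Cs (w ⟨i / 2 ^ D, h⟩)) (i % 2 ^ D) A0 with h3 | h3
      · exact ⟨_, h3⟩
      · refine ⟨v1, ?_⟩
        rw [h3]
        exact hA0
    · refine ⟨v1, ?_⟩
      rw [hC'2 i h]
      exact hA0
  obtain ⟨inc, hinc1, hinc2⟩ : ∃ inc : ℕ → Finset (Fin (D * Fintype.card V)),
      (∀ v (h : v < Fintype.card V), inc v = bdm G μ {w ⟨v, h⟩}) ∧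
      ∀ v, ¬ v < Fintype.card V → inc v = ∅ :=
    ⟨fun v => if h : v < Fintype.card V then bdm G μ {w ⟨v, h⟩} else ∅,
      fun v h => dif_pos h, fun v h => dif_neg h⟩
  obtain ⟨ch, hch1, hch2⟩ : ∃ ch : ℕ → Bool,
      (∀ v (h : v < Fintype.card V), ch v = c (w ⟨v, h⟩)) ∧
      ∀ v, ¬ v < Fintype.card V → ch v = false :=
    ⟨fun v => if h : v < Fintype.card V then c (w ⟨v, h⟩) else false,
      fun v h => dif_pos h, fun v h => dif_neg h⟩
  have hhh : Fintype.card V ≤ 2 ^ Nat.clog 2 (Fintype.card V) :=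
    Nat.le_pow_clog (by norm_num) _
  refine ⟨fun i => (C' i).ren Fin.val, fun i => ?_, _, Nat.clog 2 (Fintype.card V), v0, C', inc,
    ch, le_rfl, hhh, ?_, fun i => rfl, ?_, ?_, ?_, ?_, ?_⟩
  · obtain ⟨v, hv⟩ := hC'3 i
    exact ⟨C' i, (hCs3 v _ hv).2.2, rfl⟩
  · have h3 : 2 ^ (Nat.clog 2 (Fintype.card V) - 1) < Fintype.card V := by
      have := Nat.pow_pred_clog_lt_self (b := 2) (by norm_num) (by omega : 1 < Fintype.card V)
      simpa using this
    have h4 : 0 < Nat.clog 2 (Fintype.card V) := Nat.clog_pos (by norm_num) (by omega)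
    calc 2 ^ Nat.clog 2 (Fintype.card V) = 2 * 2 ^ (Nat.clog 2 (Fintype.card V) - 1) := by
          rw [← pow_succ']; congr 1; omega
      _ ≤ 2 * Fintype.card V := by omega
  · intro i
    obtain ⟨v, hv⟩ := hC'3 i
    exact (hCs3 v _ hv).2.1
  · intro v
    by_cases h : v < Fintype.card V
    · rw [hinc1 v h]
      exact bdm_single hdeg _
    · rw [hinc2 v h, Finset.card_empty]
      exact Nat.zero_le _
  · rw [Finset.eq_empty_iff_forall_notMem]
    intro e he
    have h1 := sg_SD inc e (Nat.clog 2 (Fintype.card V)) 0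
    rw [mm_true he] at h1
    have h3 : ∏ u ∈ Finset.range (2 ^ Nat.clog 2 (Fintype.card V)),
        sg (mm e (inc (0 + u))) = ∏ v : V, sg (mm e (bdm G μ {v})) := by
      refine prod_pad hhh w _ _ (fun u hu => ?_) (fun u hu => ?_)
      · rw [zero_add, hinc1 u hu]
      · rw [zero_add, hinc2 u (not_lt.2 hu), mm_false (Finset.notMem_empty _)]
        simp [sg]
    rw [h3, prod_bdm hμi] at h1
    simp only [sg] at h1
    norm_num at h1
  · have h1 := sg_CD ch (Nat.clog 2 (Fintype.card V)) 0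
    have h3 : ∏ u ∈ Finset.range (2 ^ Nat.clog 2 (Fintype.card V)), sg (ch (0 + u)) =
        ∏ v : V, sg (c v) := by
      refine prod_pad hhh w _ _ (fun u hu => ?_) (fun u hu => ?_)
      · rw [zero_add, hch1 u hu]
      · rw [zero_add, hch2 u (not_lt.2 hu)]
        simp [sg]
    rw [h3, prod_charge hc] at h1
    apply sg_inj
    rw [h1]
    simp [sg]
  · intro v
    by_cases hv : v < Fintype.card V
    · refine ⟨(List.range (Cs (w ⟨v, hv⟩)).length).map fun j => v * 2 ^ D + j, ?_,
        fun x hx => ?_⟩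
      · rw [List.length_map, List.length_range]
        exact hCs2 _
      · rw [hinc1 v hv, hch1 v hv]
        refine hCs4 (w ⟨v, hv⟩) x fun A hA => ?_
        obtain ⟨j, hj, rfl⟩ := List.getElem_of_mem hA
        have hjD : j < 2 ^ D := lt_of_lt_of_le hj (hCs2 _)
        have h3 := hx (v * 2 ^ D + j) (List.mem_map.2 ⟨j, List.mem_range.2 hj, rfl⟩)
        have hp : 0 < 2 ^ D := by positivity
        have e1 : (v * 2 ^ D + j) / 2 ^ D = v := by
          rw [Nat.add_comm, Nat.add_mul_div_right _ _ hp, Nat.div_eq_of_lt hjD, zero_add]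
        have e2 : (v * 2 ^ D + j) % 2 ^ D = j := by
          rw [Nat.add_comm, Nat.add_mul_mod_self_right, Nat.mod_eq_of_lt hjD]
        have e3 : C' (v * 2 ^ D + j) = (Cs (w ⟨v, hv⟩))[j] := by
          rw [hC'1 _ (by rw [e1]; exact hv), e2]
          have e4 : (⟨(v * 2 ^ D + j) / 2 ^ D, by rw [e1]; exact hv⟩ : Fin (Fintype.card V)) =
              ⟨v, hv⟩ := Fin.ext e1
          rw [e4, List.getD_eq_getElem _ _ hj]
        rw [← e3]
        exact h3
    · refine ⟨[], Nat.zero_le _, fun x _ => ?_⟩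
      rw [hinc2 v hv, hch2 v hv, Finset.toList_empty]
      exact eval_bot _ x

end Pool.Agent.H55.QT
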