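import Mathlib
import Pool.Agent.H55.QT.ShA
import Pool.Agent.H55.AG.UbT

set_option autoImplicit false
set_option linter.unusedSectionVars false

/-!
# Sharpness of QL: refutations of total size `O(n ^ 2 (log n) ^ 2)` of the clauses `TsC`

As `H55/AG/UbT.lean`, but over the variables `Fin (D * n)` and with the axioms `Cls (TsC G μ c)`.
-/

namespace Pool.Agent.H55.QT

open Finset Classical Pool.Agent.H3.Frg Pool.Agent.H3.Frg2 Pool.Agent.H3.Frg4 Pool.Agent.H90.UB
  Pool.Agent.H55.AG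

private theorem ren_ren {V V' V'' : Type} (f : V → V') (g : V' → V'') (A : Fm V) :
    (A.ren f).ren g = A.ren (fun v => g (f v)) := by
  induction A with
  | var i => rfl
  | neg A ih => simp only [Fm.ren, ih]
  | imp A B ihA ihB => simp only [Fm.ren, ihA, ihB]

private theorem ren_id {V : Type} (A : Fm V) : A.ren (fun v => v) = A := by
  induction A with
  | var i => rfl
  | neg A ih => simp only [Fm.ren, ih]
  | imp A B ihA ihB => simp only [Fm.ren, ihA, ihB]

private theorem leaves_ren {V V' : Type} (f : V → V') (A : Fm V) : (A.ren f).leaves = A.leaves := by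
  induction A with
  | var i => rfl
  | neg A ih => simpa only [Fm.ren, Fm.leaves] using ih
  | imp A B ihA ihB => simp only [Fm.ren, Fm.leaves, ihA, ihB]

theorem ubs {F : Set (Fm ℕ)} (hF : Pool.Agent.H90.UB.Compl F) (D : ℕ) : ∃ Cc : ℕ,
    ∀ (V : Type) [Fintype V] (G : SimpleGraph V), G.Connected → 2 ≤ Fintype.card V →
    (∀ v, (nbG G v).card ≤ D) →
    ∀ (μ : Sym2 V → Fin (D * Fintype.card V)), Set.InjOn μ G.edgeSet →
    ∀ (c : V → Bool), Odd (univ.filter fun v => c v = true).card →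
    ∃ (L : ℕ) (pf : Fin L → Fm (Fin (D * Fintype.card V))),
      IsDer F (Pool.H6.QL.Cls (TsC G μ c)) pf ∧ (∃ i j, pf i = Fm.neg (pf j)) ∧
      ∑ i, (pf i).leaves ≤ Cc * (Fintype.card V ^ 2 * (Nat.log 2 (Fintype.card V) + 1) ^ 2) := by
  rcases Nat.eq_zero_or_pos D with hD0 | hD0
  · refine ⟨0, fun V _ G hG h2 hdeg μ hμ c hc => ?_⟩
    have h := (ubpg2 G hG h2 hdeg hμ hc).1
    omega
  obtain ⟨ℓ0, K0, h0⟩ := ub0T D hD0
  obtain ⟨c0, hc0, hsim⟩ := simulT hF ℓ0
  refine ⟨c0 * K0, fun V _ G hG h2 hdeg μ hμ c hc => ?_⟩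
  obtain ⟨-, C, hC, hU⟩ := ubpg2 G hG h2 hdeg hμ hc
  obtain ⟨ne, v0, C', l, hne, hCC, hl, ⟨A, hA, hA'⟩, htot⟩ := h0 _ C hU
  obtain ⟨l', hl', hsub, htot'⟩ := hsim (Fin ne) v0 (Set.range C') l hl
  obtain ⟨pf, hpf, hpf1, hpf2⟩ := to_derT hl'
  have hM0 : 0 < D * Fintype.card V := Nat.mul_pos hD0 (by omega)
  obtain ⟨g, hg⟩ : ∃ g : ℕ → Fin (D * Fintype.card V), ∀ i : Fin (D * Fintype.card V),
      g (i : ℕ) = i :=
    ⟨fun i => if h : i < D * Fintype.card V then ⟨i, h⟩ else ⟨0, hM0⟩, fun i => dif_pos i.isLt⟩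
  refine ⟨l'.length, fun i => (pf i).ren (fun v : Fin ne => g (v : ℕ)), ?_, ?_, ?_⟩
  · have h1 := isDer_ren hpf (fun v : Fin ne => g (v : ℕ))
    intro i
    rcases h1 i with h2 | h2
    · left
      obtain ⟨B, ⟨j, rfl⟩, h3⟩ := h2
      have h3' : (C' j).ren (fun v : Fin ne => g (v : ℕ)) = (pf i).ren (fun v : Fin ne => g (v : ℕ)) := h3
      show (pf i).ren (fun v : Fin ne => g (v : ℕ)) ∈ _
      obtain ⟨A1, hA1, hA2⟩ := hC j
      have h4 : (C' j).ren (fun v : Fin ne => g (v : ℕ)) = A1 := by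
        rw [← ren_ren (fun v : Fin ne => (v : ℕ)) g]
        have h5 : (C' j).ren (fun v : Fin ne => (v : ℕ)) = C j := (hCC j).symm
        rw [h5, hA2, ren_ren]
        have h6 : (fun v : Fin (D * Fintype.card V) => g (Fin.val v)) = fun v => v := by
          funext v
          exact hg v
        rw [h6, ren_id]
      rw [← h3', h4]
      exact hA1
    · exact Or.inr h2
  · obtain ⟨i, hi⟩ := hpf1 _ (hsub _ hA')
    obtain ⟨j, hj⟩ := hpf1 _ (hsub _ hA)
    refine ⟨i, j, ?_⟩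
    show (pf i).ren _ = Fm.neg ((pf j).ren _)
    rw [hi, hj]
    rfl
  · calc ∑ i, ((pf i).ren (fun v : Fin ne => g (v : ℕ))).leaves ≤ ∑ i, (pf i).len :=
          Finset.sum_le_sum fun i _ => by
            rw [leaves_ren]
            exact leaves_le_len _
      _ = tot l' := hpf2
      _ ≤ c0 * tot l := htot'
      _ ≤ c0 * (K0 * (Fintype.card V ^ 2 * (Nat.log 2 (Fintype.card V) + 1) ^ 2)) :=
          Nat.mul_le_mul_left _ htot
      _ = _ := by ring

end Pool.Agent.H55.QT
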