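import Mathlib
import Pool.Agent.H55.QT.ShB
import Pool.Agent.H55.AG.TDTw
import Pool.Agent.H3.Frg.Expander

set_option autoImplicit false
set_option linter.unusedSectionVars false

/-!
# Sharpness of QL: graphs of bounded degree and linear treewidth

`exg`: for `3 ≤ n`, `42 d < n` there is a connected graph with `n` vertices, degrees at most `16` and
treewidth at least `d / 16 - 1`. `shp`: sets of clauses of length at most `16` over `16 n` variables with
pseudo-expectations of linear degree and refutations of total size `O(n ^ 2 (log n) ^ 2)`.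
-/

namespace Pool.Agent.H55.QT

open Finset Classical Pool.Agent.H3.Frg Pool.Agent.H3.Frg2 Pool.Agent.H3.Frg4 Pool.Agent.H55.AG

/-- a tree decomposition has a node in the middle -/
theorem td_mid {V : Type} [Fintype V] {G : SimpleGraph V} {k n : ℕ} (hn : 3 ≤ n) {F B : Finset V}
    (h : TD G k F B) (hF : n < 3 * F.card) :
    ∃ F' B', TD G k F' B' ∧ n < 3 * F'.card ∧ 3 * F'.card ≤ 2 * n := by
  induction h with
  | nil => simp at hF
  | intro F B v _ _ _ _ ih => exact ih hF
  | forget F B v h1 h2 h3 h4 ih =>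
    by_cases hc : n < 3 * F.card
    · exact ih hc
    · refine ⟨_, _, TD.forget F B v h1 h2 h3 h4, hF, ?_⟩
      have := Finset.card_insert_le v F
      omega
  | join F F' B h1 h2 h3 h4 ih ih' =>
    by_cases hc : n < 3 * F.card
    · exact ih hc
    by_cases hc' : n < 3 * F'.card
    · exact ih' hc'
    refine ⟨_, _, TD.join F F' B h1 h2 h3 h4, hF, ?_⟩
    have := Finset.card_union_le F F'
    omega

theorem exg (n d : ℕ) [NeZero n] (hn : 3 ≤ n) (hd : 42 * d < n) :
    ∃ G : SimpleGraph (ZMod n), G.Connected ∧ (∀ v, (nbG G v).card ≤ 16) ∧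
      (∀ k, TwLE G k → d < 16 * (k + 1)) ∧
      ∃ μ : Sym2 (ZMod n) → Fin (16 * n), Set.InjOn μ G.edgeSet := by
  obtain ⟨tgt, hE, hdeg⟩ := exists_graph n d hn hd
  obtain ⟨src, hsrc⟩ : ∃ s : Edg n → ZMod n, s = srcOf := ⟨_, rfl⟩
  rw [← hsrc] at hE hdeg
  obtain ⟨G, hG⟩ : ∃ G : SimpleGraph (ZMod n), ∀ v w, G.Adj v w ↔
      v ≠ w ∧ ∃ e, (src e = v ∧ tgt e = w) ∨ (src e = w ∧ tgt e = v) := by
    refine ⟨{ Adj := fun v w => v ≠ w ∧ ∃ e, (src e = v ∧ tgt e = w) ∨ (src e = w ∧ tgt e = v)
              symm := ⟨fun v w hvw => ?_⟩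
              loopless := ⟨fun v hv => hv.1 rfl⟩ }, fun _ _ => Iff.rfl⟩
    obtain ⟨h1, e, h2⟩ := hvw
    exact ⟨h1.symm, e, h2.symm⟩
  refine ⟨G, ?_, ?_, ?_, ?_⟩
  · have hpre : G.Preconnected := by
      intro v w
      obtain ⟨X, hX⟩ : ∃ X : Finset (ZMod n), ∀ u, u ∈ X ↔ G.Reachable v u :=
        ⟨univ.filter fun u => G.Reachable v u, fun u => by simp⟩
      have hbd : ∀ e : Edg n, (src e ∈ X ↔ tgt e ∈ X) := by
        intro e
        rw [hX, hX]
        by_cases he : src e = tgt e
        · rw [he]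
        · have ha : G.Adj (src e) (tgt e) := (hG _ _).2 ⟨he, e, Or.inl ⟨rfl, rfl⟩⟩
          exact ⟨fun h => h.trans ha.reachable, fun h => h.trans ha.symm.reachable⟩
      have hv : v ∈ X := (hX v).2 (SimpleGraph.Reachable.refl v)
      have hb1 : bd src tgt X = ∅ := by
        rw [Finset.eq_empty_iff_forall_notMem]
        intro e he
        rw [mem_bd] at he
        exact he (hbd e)
      have hb2 : bd src tgt Xᶜ = ∅ := by
        rw [Finset.eq_empty_iff_forall_notMem]
        intro e he
        rw [mem_bd, Finset.mem_compl, Finset.mem_compl, hbd e] at he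
        exact he Iff.rfl
      by_cases hc : 3 * X.card ≤ 2 * Fintype.card (ZMod n)
      · rw [hE.conn X hc hb1] at hv
        exact absurd hv (Finset.notMem_empty _)
      · have hc2 : 3 * Xᶜ.card ≤ 2 * Fintype.card (ZMod n) := by
          have := Finset.card_add_card_compl X
          omega
        have h3 := hE.conn Xᶜ hc2 hb2
        have hw : w ∈ X := by
          by_contra hw
          have : w ∈ Xᶜ := Finset.mem_compl.2 hw
          rw [h3] at this
          exact Finset.notMem_empty _ this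
        exact (hX w).1 hw
    exact SimpleGraph.Connected.mk hpre
  · intro v
    have h1 : ∀ u ∈ nbG G v, ∃ e, e ∈ bd src tgt {v} ∧ ((src e = v ∧ tgt e = u) ∨
        (src e = u ∧ tgt e = v)) := by
      intro u hu
      unfold nbG at hu
      rw [mem_filter, hG] at hu
      obtain ⟨-, hne, e, he⟩ := hu
      refine ⟨e, ?_, he⟩
      rw [mem_bd, Finset.mem_singleton, Finset.mem_singleton]
      rcases he with ⟨h2, h3⟩ | ⟨h2, h3⟩
      · rw [h2, h3]
        exact fun h => hne ((h.1 rfl).symm)
      · rw [h2, h3]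
        exact fun h => hne ((h.2 rfl).symm)
    choose! f hf1 hf2 using h1
    refine le_trans (Finset.card_le_card_of_injOn f hf1 ?_) (hdeg v)
    intro u hu u' hu' he
    have a1 := hf2 u hu
    have a2 := hf2 u' hu'
    rw [← he] at a2
    rcases a1 with ⟨b1, b2⟩ | ⟨b1, b2⟩ <;> rcases a2 with ⟨c1, c2⟩ | ⟨c1, c2⟩
    · rw [← b2, ← c2]
    · rw [← b2, ← c1, b1, c2]
    · rw [← b1, ← c2, b2, c1]
    · rw [← b1, ← c1]
  · intro k hk
    have h1 := td_of_tw hk
    have hcard : (univ : Finset (ZMod n)).card = n := by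
      rw [Finset.card_univ, ZMod.card]
    obtain ⟨F, B, hFB, hF1, hF2⟩ := td_mid (n := n) hn h1 (by rw [hcard]; omega)
    obtain ⟨-, hB, hnb⟩ := td_inv hFB
    have h2 := hE.exp F (by rw [ZMod.card]; exact hF1) (by rw [ZMod.card]; exact hF2)
    have h3 : bd src tgt F ⊆ B.biUnion fun b => bd src tgt {b} := by
      intro e he
      rw [mem_bd] at he
      rw [Finset.mem_biUnion]
      by_cases hs : src e ∈ F
      · have ht : tgt e ∉ F := fun ht => he ⟨fun _ => ht, fun _ => hs⟩
        have hne : src e ≠ tgt e := fun h => ht (h ▸ hs)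
        have ha : G.Adj (src e) (tgt e) := (hG _ _).2 ⟨hne, e, Or.inl ⟨rfl, rfl⟩⟩
        have hb := (hnb _ hs _ ha).resolve_left ht
        refine ⟨tgt e, hb, ?_⟩
        rw [mem_bd, Finset.mem_singleton, Finset.mem_singleton]
        exact fun h => hne (h.2 rfl)
      · have ht : tgt e ∈ F := by
          by_contra ht
          exact he ⟨fun h => absurd h hs, fun h => absurd h ht⟩
        have hne : tgt e ≠ src e := fun h => hs (h ▸ ht)
        have ha : G.Adj (tgt e) (src e) := (hG _ _).2 ⟨hne, e, Or.inr ⟨rfl, rfl⟩⟩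
        have hb := (hnb _ ht _ ha).resolve_left hs
        refine ⟨src e, hb, ?_⟩
        rw [mem_bd, Finset.mem_singleton, Finset.mem_singleton]
        exact fun h => hne (h.1 rfl)
    have h4 : (bd src tgt F).card ≤ B.card * 16 := by
      refine (Finset.card_le_card h3).trans ?_
      exact Finset.card_biUnion_le_card_mul _ _ _ fun b _ => hdeg b
    have h5 : B.card * 16 ≤ (k + 1) * 16 := Nat.mul_le_mul_right _ hB
    omega
  · have h1 : ∀ g : Sym2 (ZMod n), g ∈ G.edgeSet → ∃ e : Edg n, s(src e, tgt e) = g := by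
      intro g
      induction g using Sym2.ind with
      | _ v w =>
        intro h
        rw [SimpleGraph.mem_edgeSet, hG] at h
        obtain ⟨-, e, ⟨h2, h3⟩ | ⟨h2, h3⟩⟩ := h
        · exact ⟨e, by rw [h2, h3]⟩
        · exact ⟨e, by rw [h2, h3]; exact Sym2.eq_swap⟩
    choose! f hf using h1
    have hc : Fintype.card (Edg n) ≤ 16 * n := by
      rw [Fintype.card_prod, Fintype.card_option, Fintype.card_fin, ZMod.card]
      omega
    obtain ⟨emb⟩ : Nonempty (Edg n ↪ Fin (16 * n)) := by
      rw [Function.Embedding.nonempty_iff_card_le, Fintype.card_fin]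
      exact hc
    refine ⟨fun g => emb (f g), fun g hg g' hg' h => ?_⟩
    have h2 := emb.injective h
    rw [← hf g hg, ← hf g' hg', h2]

end Pool.Agent.H55.QT
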