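import Mathlib
import Pool.Agent.H55.QT.Rnd2
import Pool.Agent.H55.QT.Shp

set_option autoImplicit false
set_option linter.unusedSectionVars false

/-!
# Sharpness of QL, strong form

`shp2`: sets `Γ n` of clauses of length at most `16` over `16 n` variables (Tseitin formulas of graphs with
`n` vertices) with pseudo-expectations of linear degree, hence hard with `K = n`, which have refutations of
total size `O(n ^ 2 (log n) ^ 2)` in every complete system.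
-/

namespace Pool.Agent.H55.QT

open Finset Classical Pool.H6.QL Pool.Agent.H3.Frg Pool.Agent.H3.Frg2 Pool.Agent.H3.Frg4
  Pool.Agent.H55.AG

theorem shp2 : ∃ n0 : ℕ, ∃ Γ : (n : ℕ) → Set (List (Fin (16 * n) × Bool)),
    (∀ n, n0 ≤ n → (∀ l ∈ Γ n, l.length ≤ 16) ∧
      PE (16 * n) ⌊(1 / 10 ^ 6 : ℝ) * n⌋₊ (Γ n)) ∧
    (∀ e : ℝ, 0 < e → ∃ δ : ℝ, 0 < δ ∧ ∃ n1 : ℕ, ∀ n, n1 ≤ n → Hard2 (Γ n) (n : ℝ) e δ) ∧
    ∀ F : Set (Fm ℕ), Pool.Agent.H90.UB.Compl F → ∃ Cc : ℕ, ∀ n, n0 ≤ n →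
      ∃ (L : ℕ) (pf : Fin L → Fm (Fin (16 * n))), IsDer F (Cls (Γ n)) pf ∧
        (∃ i j, pf i = Fm.neg (pf j)) ∧
        ∑ i, (pf i).leaves ≤ Cc * (n ^ 2 * (Nat.log 2 n + 1) ^ 2) := by
  have key : ∀ n : ℕ, 10 ^ 7 ≤ n → ∃ Γ : Set (List (Fin (16 * n) × Bool)),
      ((∀ l ∈ Γ, l.length ≤ 16) ∧ PE (16 * n) ⌊(1 / 10 ^ 6 : ℝ) * n⌋₊ Γ) ∧
      ∃ (V : Type) (_ : Fintype V) (G : SimpleGraph V) (μ : Sym2 V → Fin (16 * n)) (c : V → Bool),
        n = Fintype.card V ∧ G.Connected ∧ (∀ v, (nbG G v).card ≤ 16) ∧ Set.InjOn μ G.edgeSet ∧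
        Odd (univ.filter fun v => c v = true).card ∧ Γ = TsC G μ c := by
    intro n hn
    haveI : NeZero n := ⟨by omega⟩
    obtain ⟨d, hd⟩ : ∃ d, d = (n - 1) / 42 := ⟨_, rfl⟩
    obtain ⟨G, hG, hdeg, htw, μ, hμ⟩ := exg n d (by omega) (by omega)
    obtain ⟨c, hc⟩ : ∃ c : ZMod n → Bool, ∀ v, c v = true ↔ v = 0 :=
      ⟨fun v => decide (v = 0), fun v => by simp⟩
    have hodd : Odd (univ.filter fun v => c v = true).card := by
      have h1 : (univ.filter fun v => c v = true) = {0} := by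
        ext v
        rw [mem_filter, Finset.mem_singleton, hc]
        simp
      rw [h1, Finset.card_singleton]
      exact odd_one
    refine ⟨TsC G μ c, ⟨?_, ?_⟩, ZMod n, inferInstance, G, μ, c, (ZMod.card n).symm, hG, hdeg, hμ,
      hodd, rfl⟩
    · rintro l ⟨hnd, v, hv, -⟩
      have h1 : l.length = (l.map Prod.fst).toFinset.card := by
        rw [List.toFinset_card_of_nodup hnd, List.length_map]
      rw [h1]
      refine le_trans ?_ (hdeg v)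
      have h2 : (l.map Prod.fst).toFinset ⊆ (nbG G v).image fun u => μ s(v, u) := by
        intro i hi
        rw [List.mem_toFinset, hv] at hi
        obtain ⟨u, hu, rfl⟩ := hi
        rw [Finset.mem_image]
        refine ⟨u, ?_, rfl⟩
        unfold nbG
        rw [mem_filter]
        exact ⟨mem_univ _, hu⟩
      exact (Finset.card_le_card h2).trans Finset.card_image_le
    · refine pe_ts (Δ := 16) hG hdeg ?_ hμ c
      intro hk
      have h1 := htw _ hk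
      have h2 : (⌊(1 / 10 ^ 6 : ℝ) * n⌋₊ : ℝ) ≤ (1 / 10 ^ 6 : ℝ) * n :=
        Nat.floor_le (by positivity)
      have h3 : 10 ^ 6 * ⌊(1 / 10 ^ 6 : ℝ) * n⌋₊ ≤ n := by
        have h4 : (10 : ℝ) ^ 6 * ⌊(1 / 10 ^ 6 : ℝ) * n⌋₊ ≤ n := by linarith
        exact_mod_cast h4
      omega
  choose! Γ hΓ1 hΓ2 using key
  refine ⟨10 ^ 7, Γ, hΓ1, ?_, ?_⟩
  · intro e he
    obtain ⟨e', he'⟩ : ∃ e', e' = min (e / 2) (1 / 2) := ⟨_, rfl⟩
    have he0 : 0 < e' := by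
      rw [he']
      exact lt_min (by linarith) (by norm_num)
    have he1 : e' ≤ 1 / 2 := by
      rw [he']
      exact min_le_right _ _
    have he2 : e' < e := by
      have : e' ≤ e / 2 := by
        rw [he']
        exact min_le_left _ _
      linarith
    obtain ⟨δ', hδ', K0, hK0⟩ := Pool.H6.QR.hard2 e' he0
    obtain ⟨n2, hn2⟩ := pow_cmp (c := 1 / 10 ^ 7) (a := δ' / 2) (b := δ') (by positivity) hδ'
      (by linarith)
    obtain ⟨n3, hn3⟩ := pow_cmp (c := 1 / 10 ^ 7) (a := 2 - e) (b := 2 - e') (by positivity)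
      (by linarith) (by linarith)
    have ht : Filter.Tendsto (fun n : ℕ => (1 / 10 ^ 7 : ℝ) * (n : ℝ)) Filter.atTop Filter.atTop :=
      tendsto_natCast_atTop_atTop.const_mul_atTop (by positivity)
    obtain ⟨n6, hn6⟩ := Filter.eventually_atTop.1 (ht.eventually_ge_atTop (K0 : ℝ))
    have ht2 : Filter.Tendsto (fun K : ℕ => (K : ℝ) ^ δ') Filter.atTop Filter.atTop :=
      (tendsto_rpow_atTop hδ').comp tendsto_natCast_atTop_atTop
    obtain ⟨K1, hK1⟩ := Filter.eventually_atTop.1 (ht2.eventually_ge_atTop (16 : ℝ))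
    obtain ⟨n7, hn7⟩ := Filter.eventually_atTop.1 (ht.eventually_ge_atTop (K1 : ℝ))
    refine ⟨δ' / 2, by linarith, 10 ^ 7 + n2 + n3 + n6 + n7, ?_⟩
    intro n hn
    obtain ⟨hlen, hPE⟩ := hΓ1 n (by omega)
    have hKn : (1 / 10 ^ 7 : ℝ) * n ≤ (⌊(1 / 10 ^ 6 : ℝ) * n⌋₊ : ℝ) := by
      have h1 : (1 / 10 ^ 6 : ℝ) * n < ⌊(1 / 10 ^ 6 : ℝ) * n⌋₊ + 1 := Nat.lt_floor_add_one _
      have h2 : (10 ^ 7 : ℝ) ≤ n := by
        have h3 : 10 ^ 7 ≤ n := by omega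
        exact_mod_cast h3
      have h4 : (1 : ℝ) + (1 / 10 ^ 7 : ℝ) * n ≤ (1 / 10 ^ 6 : ℝ) * n := by
        linarith
      linarith
    have hKK : K0 ≤ ⌊(1 / 10 ^ 6 : ℝ) * n⌋₊ := by
      have h1 := hn6 n (by omega)
      exact_mod_cast h1.trans hKn
    have hKK1 : K1 ≤ ⌊(1 / 10 ^ 6 : ℝ) * n⌋₊ := by
      have h1 := hn7 n (by omega)
      exact_mod_cast h1.trans hKn
    have hH := hK0 (16 * n) ⌊(1 / 10 ^ 6 : ℝ) * n⌋₊ (Γ n) hKK hPE (by
      intro l hl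
      have h3 := hK1 _ hKK1
      have h4 : (l.length : ℝ) ≤ 16 := by exact_mod_cast hlen l hl
      exact h4.trans h3)
    exact hard2_mono hH (hn2 n (by omega) _ hKn) (hn3 n (by omega) _ hKn)
  · intro F hF
    obtain ⟨Cc, hCc⟩ := ubs' hF 16
    refine ⟨Cc, ?_⟩
    intro n hn
    obtain ⟨V, _, G, μ, c, hc1, hG, hdeg, hμ, hodd, hΓ⟩ := hΓ2 n hn
    rw [hΓ]
    exact hCc n V G hc1 hG (by omega) hdeg μ hμ c hodd

end Pool.Agent.H55.QT
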