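import Mathlib
import Pool.Agent.H55.QT.Tan
import Pool.Agent.H55.AG.Stmt
import Pool.Agent.H55.AG.WLex

set_option autoImplicit false
set_option linter.unusedSectionVars false

/-!
# Module TSN: the Tseitin formula of a graph of large treewidth has a pseudo-expectation of large degree

* `ts_null`: let `v` be the vertex of `A ∈ Ts Δ G ν c`. `A` has only variables `ν s(v, u)`, `u` adjacent to `v` (`IsClause`; `A.vars` and the
  variables in `A.subs` are the same: see `subs_ren` in `UbCl.lean`, `vars_subs` in `H3/Frg2/Small.lean`). If `ν s(v, u) ∉ A.vars` for a neighbour `u` then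
  the value of `a` at `ν s(v, u)` can be changed (`Function.update`) so that the equation of `v` becomes true (`ν` is injective on the edges, so
  exactly one summand changes), and `A` keeps the value `false` (`eval_congr`): contradiction. So `A.vars = bdm G ν {v}` (`mem_bdm`), and the equation
  of `v` is false for `a`: `∏ i ∈ A.vars, sg (a i) = (-1) ^ #{true edges at v} = -sg (c v)`, and `qE (bdm G ν {v}) = sg (c v)` (`qE_star`).
  Then `XT.null` (`(bdm G ν {v}).card ≤ Δ` by `bdm_single`).
* `pe_tw`: `m0 := 8 * D + 9`, `wl_exists` with `d := Δ` (`1 ≤ Δ` is not needed) gives `W`; `E := qE G ν c W`.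
-/

namespace Pool.Agent.H55.QT

open Finset Classical Pool.Agent.H3.Frg Pool.Agent.H3.Frg2 Pool.Agent.H3.Frg4 Pool.Agent.H55.AG

variable {V : Type} [Fintype V]

private theorem var_subs (A : Fm ℕ) {i : ℕ} (h : i ∈ A.vars) : Fm.var i ∈ A.subs := by
  induction A with
  | var j =>
    simp only [Fm.vars, Finset.mem_singleton] at h
    rw [h]
    simp [Fm.subs]
  | neg A ih =>
    simp only [Fm.vars] at h
    simp only [Fm.subs, List.mem_cons]
    exact Or.inr (ih h)
  | imp A B ihA ihB =>
    simp only [Fm.vars, Finset.mem_union] at h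
    simp only [Fm.subs, List.mem_cons, List.mem_append]
    rcases h with h | h
    · exact Or.inr (Or.inl (ihA h))
    · exact Or.inr (Or.inr (ihB h))

private theorem mem_bd1 {G : SimpleGraph V} {ν : Sym2 V → ℕ} (v : V) (e : ℕ) :
    e ∈ bdm G ν {v} ↔ ∃ u, G.Adj v u ∧ ν s(v, u) = e := by
  unfold bdm cutG
  rw [mem_image]
  constructor
  · rintro ⟨q, hq, rfl⟩
    rw [mem_filter, mem_singleton] at hq
    obtain ⟨-, h1, h2, -⟩ := hq
    refine ⟨q.2, ?_, ?_⟩
    · rw [← h2]
      exact h1
    · rw [h2]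
  · rintro ⟨u, hu, rfl⟩
    refine ⟨(v, u), ?_, rfl⟩
    rw [mem_filter, mem_singleton, mem_singleton]
    exact ⟨mem_univ _, hu, rfl, hu.ne'⟩

private theorem card_bd1 {G : SimpleGraph V} {ν : Sym2 V → ℕ} (hν : Set.InjOn ν G.edgeSet) (v : V)
    (x : ℕ → Bool) : ((bdm G ν {v}).filter fun e => x e = true).card =
      (univ.filter fun u => G.Adj v u ∧ x (ν s(v, u)) = true).card := by
  have h1 : (bdm G ν {v}).filter (fun e => x e = true) =
      (univ.filter fun u => G.Adj v u ∧ x (ν s(v, u)) = true).image fun u => ν s(v, u) := by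
    ext e
    rw [mem_filter, mem_image, mem_bd1]
    constructor
    · rintro ⟨⟨u, hu, rfl⟩, hx⟩
      refine ⟨u, ?_, rfl⟩
      rw [mem_filter]
      exact ⟨mem_univ _, hu, hx⟩
    · rintro ⟨u, hu, rfl⟩
      rw [mem_filter] at hu
      exact ⟨⟨u, hu.2.1, rfl⟩, hu.2.2⟩
  rw [h1]
  refine Finset.card_image_of_injOn ?_
  intro u hu u' hu' he
  rw [Finset.mem_coe, mem_filter] at hu hu'
  have h2 : s(v, u) = s(v, u') := hν hu.2.1 hu'.2.1 he
  exact Sym2.congr_right.1 h2

private theorem prod_sg (B : Finset ℕ) (x : ℕ → Bool) :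
    ∏ e ∈ B, sg (x e) = (-1) ^ (B.filter fun e => x e = true).card := by
  have h1 : ∀ v ∈ B, sg (x v) = if x v = true then (-1 : ℝ) else 1 := fun v _ => rfl
  rw [Finset.prod_congr rfl h1, Finset.prod_ite, Finset.prod_const, Finset.prod_const_one,
    mul_one]

private theorem pow_sg_iff (k : ℕ) (b : Bool) :
    (Odd k ↔ b = true) ↔ (-1 : ℝ) ^ k = sg b := by
  rcases Nat.even_or_odd k with h | h
  · have h0 : ¬ Odd k := Nat.not_odd_iff_even.2 h
    rw [h.neg_one_pow]
    cases b with
    | true =>
      constructor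
      · intro h1
        exact absurd (h1.2 rfl) h0
      · intro h1
        unfold sg at h1
        norm_num at h1
    | false =>
      constructor
      · intro _
        unfold sg
        simp
      · intro _
        exact ⟨fun h2 => absurd h2 h0, fun h2 => absurd h2 (by decide)⟩
  · rw [h.neg_one_pow]
    cases b with
    | true =>
      constructor
      · intro _
        unfold sg
        simp
      · intro _
        exact ⟨fun _ => rfl, fun _ => h⟩
    | false =>
      constructor
      · intro h1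
        exact absurd (h1.1 h) (by decide)
      · intro h1
        unfold sg at h1
        norm_num at h1

private theorem par_iff {G : SimpleGraph V} {ν : Sym2 V → ℕ} (hν : Set.InjOn ν G.edgeSet) (v : V)
    (b : Bool) (x : ℕ → Bool) :
    (Odd (univ.filter fun u => G.Adj v u ∧ x (ν s(v, u)) = true).card ↔ b = true) ↔
      ∏ e ∈ bdm G ν {v}, sg (x e) = sg b := by
  rw [prod_sg, card_bd1 hν, pow_sg_iff]

private theorem prod_sq (B : Finset ℕ) (x : ℕ → Bool) :
    (∏ e ∈ B, sg (x e)) * (∏ e ∈ B, sg (x e)) = 1 := by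
  rw [← Finset.prod_mul_distrib]
  exact Finset.prod_eq_one fun i _ => sg_mul_self (x i)

theorem ts_null {Δ D : ℕ} {G : SimpleGraph V} (hG : G.Connected) (hdeg : ∀ v, (nbG G v).card ≤ Δ)
    {ν : Sym2 V → ℕ} (hν : Set.InjOn ν G.edgeSet) (c : V → Bool) {W : Finset V} (hW : WL G W)
    (hD : 8 * D < W.card) (hW8 : 8 < W.card) {A : Fm ℕ} (hA : A ∈ Ts Δ G ν c) (a : ℕ → Bool)
    (ha : A.eval a = false) (T : Finset ℕ) (hT : T.card + Δ ≤ D) :
    ∑ R ∈ A.vars.powerset, (∏ i ∈ R, sg (a i)) * qE G ν c W (symmDiff R T) = 0 := by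
  have hA' := hA
  obtain ⟨-, v, hsub, hev⟩ := hA'
  have hnot : ∏ e ∈ bdm G ν {v}, sg (a e) = -sg (c v) := by
    have h1 : ¬ ∏ e ∈ bdm G ν {v}, sg (a e) = sg (c v) := by
      intro h2
      have h3 := hev a ((par_iff hν v (c v) a).2 h2)
      rw [ha] at h3
      exact absurd h3 (by decide)
    have h2 := prod_sq (bdm G ν {v}) a
    have h3 := sg_mul_self (c v)
    have h4 : (∏ e ∈ bdm G ν {v}, sg (a e) - sg (c v)) *
        (∏ e ∈ bdm G ν {v}, sg (a e) + sg (c v)) = 0 := by
      linear_combination h2 - h3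
    rcases mul_eq_zero.1 h4 with h5 | h5
    · exact absurd (sub_eq_zero.1 h5) h1
    · exact eq_neg_of_add_eq_zero_left h5
  have hvars : A.vars = bdm G ν {v} := by
    apply Finset.Subset.antisymm
    · intro i hi
      obtain ⟨u, hu, rfl⟩ := hsub i (var_subs A hi)
      rw [mem_bd1]
      exact ⟨u, hu, rfl⟩
    · intro i hi
      by_contra hni
      have h1 : A.eval (Function.update a i (!a i)) = A.eval a := by
        refine eval_congr A fun j hj => ?_
        rw [Function.update_of_ne]
        rintro rfl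
        exact hni hj
      have h2 : ∏ e ∈ bdm G ν {v}, sg (Function.update a i (!a i) e) = sg (c v) := by
        rw [← Finset.mul_prod_erase _ _ hi] at hnot
        rw [← Finset.mul_prod_erase _ _ hi, Function.update_self]
        have h3 : ∏ e ∈ (bdm G ν {v}).erase i, sg (Function.update a i (!a i) e) =
            ∏ e ∈ (bdm G ν {v}).erase i, sg (a e) := by
          refine Finset.prod_congr rfl fun e he => ?_
          rw [Function.update_of_ne (Finset.ne_of_mem_erase he)]
        have h4 : sg (!a i) = -sg (a i) := by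
          cases a i <;> simp [sg]
        rw [h3, h4]
        linear_combination -hnot
      have h3 := hev _ ((par_iff hν v (c v) _).2 h2)
      rw [h1, ha] at h3
      exact absurd h3 (by decide)
  rw [hvars]
  refine (qE_xt hG hν c hW hD).null ?_ a ?_
  · have h1 : (bdm G ν {v}).card ≤ Δ := bdm_single hdeg v
    omega
  · rw [hnot, neg_neg]
    exact qE_star hG hν c hW8 v

theorem pe_tw {Δ D : ℕ} {G : SimpleGraph V} (hG : G.Connected) (hdeg : ∀ v, (nbG G v).card ≤ Δ)
    (hw : ¬ TwLE G (4 * (Δ * (8 * D + 10)) + 1)) {ν : Sym2 V → ℕ} (hν : Set.InjOn ν G.edgeSet)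
    (c : V → Bool) : ∃ E : Finset ℕ → ℝ, XT D E ∧
      ∀ A ∈ Ts Δ G ν c, ∀ a : ℕ → Bool, A.eval a = false → ∀ T : Finset ℕ, T.card + Δ ≤ D →
        ∑ R ∈ A.vars.powerset, (∏ i ∈ R, sg (a i)) * E (symmDiff R T) = 0 := by
  obtain ⟨W, hWc, hW⟩ := wl_exists (G := G) (d := Δ) (m0 := 8 * D + 9) (by omega) hdeg hw
  have hD : 8 * D < W.card := by omega
  have hW8 : 8 < W.card := by omega
  exact ⟨qE G ν c W, qE_xt hG hν c hW hD, fun A hA a ha T hT =>
    ts_null hG hdeg hν c hW hD hW8 hA a ha T hT⟩

end Pool.Agent.H55.QT
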